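import Mathlib
import Pool.Agent.Helper36.UnivCover

/-!
The function `(u + v)(u + w)` has even value when `u² - v²` and `u² - w²` have value one.
-/

set_option autoImplicit false

namespace Pool.Agent.WMS

open Polynomial

lemma val_pair {L Γ₀ : Type*} [Field L] [LinearOrderedCommGroupWithZero Γ₀] (val : Valuation L Γ₀)
    (h2 : val 2 = 1) (u v p : L) (hp : u ^ 2 - v ^ 2 = p) (hvp : val p = 1) :
    (val u ≤ 1 → val (u + v) = 1) ∧
      (1 < val u → val (u + v) = val u ∨ val (u + v) = (val u)⁻¹) := by
  have hprod : val (u + v) * val (u - v) = 1 := by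
    rw [← map_mul, ← hvp, ← hp]
    congr 1
    ring
  constructor
  · intro hu
    have hv2 : val (v ^ 2) ≤ 1 := by
      have h1 : v ^ 2 = u ^ 2 - p := by rw [← hp]; ring
      rw [h1]
      refine (val.map_sub _ _).trans (max_le ?_ hvp.le)
      rw [map_pow]
      exact pow_le_one' hu 2
    have hv : val v ≤ 1 := by
      rw [map_pow] at hv2
      exact (pow_le_one_iff (by norm_num)).mp hv2
    have a1 : val (u + v) ≤ 1 := (val.map_add _ _).trans (max_le hu hv)
    have a2 : val (u - v) ≤ 1 := (val.map_sub _ _).trans (max_le hu hv)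
    refine le_antisymm a1 ?_
    by_contra hlt
    push Not at hlt
    have h3 : val (u + v) * val (u - v) < 1 := by
      calc val (u + v) * val (u - v) ≤ val (u + v) * 1 := by gcongr
        _ < 1 := by rw [mul_one]; exact hlt
    rw [hprod] at h3
    exact lt_irrefl _ h3
  · intro hu
    have hu0 : val u ≠ 0 := by
      intro h0
      rw [h0] at hu
      exact not_lt_zero hu
    have hv : val v = val u := by
      have h1 : v ^ 2 = u ^ 2 - p := by rw [← hp]; ring
      have h3 : val (v ^ 2) = val (u ^ 2) := by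
        rw [h1]
        apply Valuation.map_sub_eq_of_lt_left
        rw [hvp, map_pow]
        exact one_lt_pow₀ hu (by norm_num)
      rw [map_pow, map_pow] at h3
      exact (pow_left_inj₀ zero_le zero_le (by norm_num)).mp h3
    have a1 : val (u + v) ≤ val u := (val.map_add _ _).trans (max_le le_rfl hv.le)
    have a2 : val (u - v) ≤ val u := (val.map_sub _ _).trans (max_le le_rfl hv.le)
    have h4 : val u ≤ max (val (u + v)) (val (u - v)) := by
      have h5 : val ((u + v) + (u - v)) = val u := by
        have : (u + v) + (u - v) = 2 * u := by ring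
        rw [this, map_mul, h2, one_mul]
      rw [← h5]
      exact val.map_add _ _
    rcases le_max_iff.mp h4 with h5 | h5
    · exact Or.inl (le_antisymm a1 h5)
    · right
      have h6 : val (u - v) = val u := le_antisymm a2 h5
      rw [h6] at hprod
      exact eq_inv_of_mul_eq_one_left hprod

lemma val_even {L Γ₀ : Type*} [Field L] [LinearOrderedCommGroupWithZero Γ₀] (val : Valuation L Γ₀)
    (h2 : val 2 = 1) (u v w p q : L) (hp : u ^ 2 - v ^ 2 = p) (hq : u ^ 2 - w ^ 2 = q)
    (hvp : val p = 1) (hvq : val q = 1) : ∃ h : L, val ((u + v) * (u + w)) = val h ^ 2 := by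
  obtain ⟨p1, p2⟩ := val_pair val h2 u v p hp hvp
  obtain ⟨q1, q2⟩ := val_pair val h2 u w q hq hvq
  rcases le_or_gt (val u) 1 with hu | hu
  · exact ⟨1, by rw [map_mul, p1 hu, q1 hu, map_one]; simp⟩
  · have hu0 : val u ≠ 0 := by
      intro h0
      rw [h0] at hu
      exact not_lt_zero hu
    rcases p2 hu with hp' | hp' <;> rcases q2 hu with hq' | hq'
    · exact ⟨u, by rw [map_mul, hp', hq', sq]⟩
    · exact ⟨1, by rw [map_mul, hp', hq', mul_inv_cancel₀ hu0, map_one]; simp⟩
    · exact ⟨1, by rw [map_mul, hp', hq', inv_mul_cancel₀ hu0, map_one]; simp⟩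
    · exact ⟨u⁻¹, by rw [map_mul, hp', hq', map_inv₀, sq]⟩

end Pool.Agent.WMS
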