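import Mathlib
import Pool.Agent.Helper19.Sec.Fixed
import Pool.Agent.WMS.ValEven

/-!
Square roots of `(u + v)(u + w)` in the universal cover, where `u², v², w²` are the values of
`1 / (x - θ₀) - 1 / (θᵢ - θ₀)`.
-/

set_option autoImplicit false

namespace Pool.Agent.WMS

open Polynomial Pool.Agent.Helper36 Pool.Agent.Helper19.Sec

section

variable {k K Ω : Type*} [Field k] [Field K] [Field Ω] [Algebra k K] [Algebra K Ω] [Algebra k Ω]
  [IsScalarTower k K Ω] [CharZero k] [Algebra.IsAlgebraic K Ω] [IsAlgClosed Ω]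

/-- the relation defining the elements `u`, with `u² = 1 / (x - θ₀) - 1 / (θ - θ₀)` -/
def IsR (x : K) (θ₀ θ : algebraicClosure k Ω) (u : univCover k K Ω) : Prop :=
  u ^ 2 = (algebraMap K (univCover k K Ω) x - incl k K Ω θ₀)⁻¹ - incl k K Ω ((θ - θ₀)⁻¹)

omit [IsAlgClosed Ω] in
lemma xsub_ne (x : K) (hx : Transcendental k x) (e : algebraicClosure k Ω) :
    algebraMap K (univCover k K Ω) x - incl k K Ω e ≠ 0 := by
  intro h0
  have h1 : (e : Ω) = algebraMap K Ω x := by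
    have := congrArg Subtype.val (sub_eq_zero.mp h0)
    exact this.symm
  have h2 : IsAlgebraic k (algebraMap K Ω x) := by
    rw [← h1]
    exact mem_algebraicClosure_iff.mp e.2
  exact hx ((isAlgebraic_algebraMap_iff (algebraMap K Ω).injective).mp h2)

/-- one step of the tower -/
lemma step_u (f : k[X]) (hf : f.Separable) (c : k) (hc : c ≠ 0) (x y : K)
    (hx : Transcendental k x) (hxy : algebraMap k K c * y ^ 2 = aeval x f)
    (L : IntermediateField K Ω) (h1 : FiniteDimensional K L) (h2 : UnramifiedEverywhere k K L)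
    (θ₀ θ : algebraicClosure k Ω) (hθ₀ : aeval θ₀ f = 0) (hθ : aeval θ f = 0) (hne : θ ≠ θ₀)
    (u : univCover k K Ω) (hu : IsR x θ₀ θ u) :
    ∃ L' : IntermediateField K Ω, L ≤ L' ∧ (u : Ω) ∈ L' ∧ FiniteDimensional K L' ∧
      UnramifiedEverywhere k K L' := by
  obtain ⟨r, L1, hr, hL1, hrL, hθ₀L, hθL, hfin1, hun1⟩ :=
    exists_sqrt f hf c hc x y hx hxy L h1 h2 θ₀ θ hθ₀ hθ
  set xM : univCover k K Ω := algebraMap K (univCover k K Ω) x with hxM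
  have hx0 := xsub_ne x hx θ₀
  have hx1 := xsub_ne x hx θ
  rw [← hxM] at hx0 hx1
  have hd : θ - θ₀ ≠ 0 := sub_ne_zero.mpr hne
  have hdι : incl k K Ω (θ - θ₀) ≠ 0 := by rwa [_root_.map_ne_zero]
  have hr0 : r ≠ 0 := by
    rintro rfl
    rw [zero_pow (by norm_num)] at hr
    exact mul_ne_zero hx0 hx1 hr.symm
  have h3 : (u * (xM - incl k K Ω θ₀) / r) ^ 2 = incl k K Ω (-(θ - θ₀)⁻¹) := by
    rw [div_pow, mul_pow, hr, hu, ← hxM]
    have h4 : incl k K Ω ((θ - θ₀)⁻¹) = (incl k K Ω (θ - θ₀))⁻¹ := map_inv₀ _ _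
    have h5 : incl k K Ω θ = incl k K Ω θ₀ + incl k K Ω (θ - θ₀) := by
      rw [← map_add]; congr 1; ring
    rw [map_neg, h4]
    rw [h5] at hx1 ⊢
    field_simp
    ring
  obtain ⟨κ, hκ⟩ := root_mem_range (incl k K Ω) (n := 2) (by norm_num) h3
  obtain ⟨L2, hL2, hκL, hfin2, hun2⟩ := unram_adjoin_const L1 hfin1 hun1 (κ : Ω)
    (mem_algebraicClosure_iff.mp κ.2)
  refine ⟨L2, hL1.trans hL2, ?_, hfin2, hun2⟩
  have h6 : u = incl k K Ω κ * r / (xM - incl k K Ω θ₀) := by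
    rw [← hκ]
    field_simp
  rw [h6]
  show ((κ : Ω) * (r : Ω)) / (algebraMap K Ω x - (θ₀ : Ω)) ∈ L2
  exact L2.div_mem (L2.mul_mem hκL (hL2 hrL)) (L2.sub_mem (L2.algebraMap_mem x) (hL2 hθ₀L))

theorem exists_y (f : k[X]) (hf : f.Separable) (c : k) (hc : c ≠ 0) (x y : K)
    (hx : Transcendental k x) (hxy : algebraMap k K c * y ^ 2 = aeval x f)
    (θ₀ θ₁ θ₂ θ₃ : algebraicClosure k Ω) (hθ₀ : aeval θ₀ f = 0) (hθ₁ : aeval θ₁ f = 0)
    (hθ₂ : aeval θ₂ f = 0) (hθ₃ : aeval θ₃ f = 0) (n1 : θ₁ ≠ θ₀) (n2 : θ₂ ≠ θ₀) (n3 : θ₃ ≠ θ₀)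
    (n12 : θ₁ ≠ θ₂) (n13 : θ₁ ≠ θ₃) (u v w : univCover k K Ω) (hu : IsR x θ₀ θ₁ u)
    (hv : IsR x θ₀ θ₂ v) (hw : IsR x θ₀ θ₃ w) :
    ∃ z : univCover k K Ω, z ^ 2 = (u + v) * (u + w) := by
  obtain ⟨L1, hL1, hu1, hfin1, hun1⟩ := step_u f hf c hc x y hx hxy ⊥ (bot_unram (k := k)).1
    bot_unram.2 θ₀ θ₁ hθ₀ hθ₁ n1 u hu
  obtain ⟨L2, hL2, hu2, hfin2, hun2⟩ := step_u f hf c hc x y hx hxy L1 hfin1 hun1 θ₀ θ₂ hθ₀ hθ₂ n2
    v hv
  obtain ⟨L3, hL3, hu3, hfin3, hun3⟩ := step_u f hf c hc x y hx hxy L2 hfin2 hun2 θ₀ θ₃ hθ₀ hθ₃ n3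
    w hw
  obtain ⟨p, hp⟩ : ∃ p : algebraicClosure k Ω, p = (θ₂ - θ₀)⁻¹ - (θ₁ - θ₀)⁻¹ := ⟨_, rfl⟩
  obtain ⟨q, hq⟩ : ∃ q : algebraicClosure k Ω, q = (θ₃ - θ₀)⁻¹ - (θ₁ - θ₀)⁻¹ := ⟨_, rfl⟩
  have hp0 : p ≠ 0 := by
    rw [hp, sub_ne_zero]
    intro h
    exact n12 (sub_left_injective (inv_injective h)).symm
  have hq0 : q ≠ 0 := by
    rw [hq, sub_ne_zero]
    intro h
    exact n13 (sub_left_injective (inv_injective h)).symm
  have e1 : u ^ 2 - v ^ 2 = incl k K Ω p := by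
    rw [hu, hv, hp, map_sub]
    ring
  have e2 : u ^ 2 - w ^ 2 = incl k K Ω q := by
    rw [hu, hw, hq, map_sub]
    ring
  let U : L3 := ⟨(u : Ω), hL3 (hL2 hu1)⟩
  let V : L3 := ⟨(v : Ω), hL3 hu2⟩
  let W : L3 := ⟨(w : Ω), hu3⟩
  have e1Ω : (u : Ω) ^ 2 - (v : Ω) ^ 2 = (p : Ω) := congrArg Subtype.val e1
  have e2Ω : (u : Ω) ^ 2 - (w : Ω) ^ 2 = (q : Ω) := congrArg Subtype.val e2
  have hpL : (p : Ω) ∈ L3 := by
    rw [← e1Ω]
    exact L3.sub_mem (pow_mem U.2 2) (pow_mem V.2 2)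
  have hqL : (q : Ω) ∈ L3 := by
    rw [← e2Ω]
    exact L3.sub_mem (pow_mem U.2 2) (pow_mem W.2 2)
  have e1L : U ^ 2 - V ^ 2 = ⟨(p : Ω), hpL⟩ := Subtype.ext e1Ω
  have e2L : U ^ 2 - W ^ 2 = ⟨(q : Ω), hqL⟩ := Subtype.ext e2Ω
  have alg : ∀ (e : algebraicClosure k Ω) (he : (e : Ω) ∈ L3), IsAlgebraic k (⟨(e : Ω), he⟩ : L3) := by
    intro e he
    have h1 : IsAlgebraic k (algebraMap L3 Ω ⟨(e : Ω), he⟩) := mem_algebraicClosure_iff.mp e.2
    exact (isAlgebraic_algebraMap_iff (algebraMap L3 Ω).injective).mp h1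
  have hg0 : (U + V) * (U + W) ≠ 0 := by
    intro h0
    rcases mul_eq_zero.mp h0 with h | h
    · have h3 : U ^ 2 - V ^ 2 = 0 := by
        have : U ^ 2 - V ^ 2 = (U + V) * (U - V) := by ring
        rw [this, h, zero_mul]
      rw [e1L] at h3
      exact hp0 (Subtype.ext (congrArg (fun z : L3 => (z : Ω)) h3))
    · have h3 : U ^ 2 - W ^ 2 = 0 := by
        have : U ^ 2 - W ^ 2 = (U + W) * (U - W) := by ring
        rw [this, h, zero_mul]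
      rw [e2L] at h3
      exact hq0 (Subtype.ext (congrArg (fun z : L3 => (z : Ω)) h3))
  have hdiv : ∀ v' : Valuation L3 (WithZero (Multiplicative ℤ)), IsPlace k v' →
      ∃ h : L3, v' ((U + V) * (U + W)) = v' h ^ 2 := by
    intro v' hv'
    have h2 : v' 2 = 1 := by
      have h3 := hv'.1 (2 : k) two_ne_zero
      rwa [map_ofNat] at h3
    refine val_even v' h2 U V W _ _ e1L e2L ?_ ?_
    · refine val_eq_one_of_algebraic hv'.1 (alg p hpL) ?_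
      intro h0
      exact hp0 (Subtype.ext (congrArg (fun z : L3 => (z : Ω)) h0))
    · refine val_eq_one_of_algebraic hv'.1 (alg q hqL) ?_
      intro h0
      exact hq0 (Subtype.ext (congrArg (fun z : L3 => (z : Ω)) h0))
  obtain ⟨γ, hγ⟩ := IsAlgClosed.exists_pow_nat_eq (((U + V) * (U + W) : L3) : Ω) (n := 2)
    (by norm_num)
  obtain ⟨L4, hL4, hγ4, hfin4, hun4⟩ := unram_adjoin_root L3 hfin3 hun3 2 two_ne_zero
    ((U + V) * (U + W)) hg0 hdiv γ hγ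
  refine ⟨⟨γ, le_univCover L4 hfin4 hun4 hγ4⟩, ?_⟩
  apply Subtype.ext
  exact hγ

end

end Pool.Agent.WMS
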