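import Pool.Agent.WMS.PlaceUniq

/-!
The place at infinity of `E(X, r_1, ..., r_n)`, from a homomorphism into Laurent series.
-/

set_option autoImplicit false
set_option linter.unusedSectionVars false

namespace Pool.Agent.WMS

open WithZero

section Series

variable {E : Type*} [Field E]

theorem v_const_le (e : E) :
    (Valued.v (HahnSeries.C e : LaurentSeries E) : WithZero (Multiplicative ℤ)) ≤ 1 := by
  have h := (LaurentSeries.valuation_le_iff_coeff_lt_eq_zero E (D := 0)
    (f := (HahnSeries.C e : LaurentSeries E))).2 (by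
      intro n hn
      exact HahnSeries.coeff_single_of_ne (ne_of_lt hn))
  simpa using h

theorem v_const {e : E} (he : e ≠ 0) :
    (Valued.v (HahnSeries.C e : LaurentSeries E) : WithZero (Multiplicative ℤ)) = 1 := by
  have h1 := v_const_le e
  have h2 := v_const_le e⁻¹
  refine le_antisymm h1 ?_
  by_contra hlt
  rw [not_le] at hlt
  have h3 : (Valued.v (HahnSeries.C e : LaurentSeries E) : WithZero (Multiplicative ℤ)) *
      Valued.v (HahnSeries.C e⁻¹ : LaurentSeries E) = 1 := by
    rw [← map_mul, ← map_mul, mul_inv_cancel₀ he, map_one, map_one]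
  have h4 : (Valued.v (HahnSeries.C e : LaurentSeries E) : WithZero (Multiplicative ℤ)) *
      Valued.v (HahnSeries.C e⁻¹ : LaurentSeries E) < 1 := mul_lt_one_of_lt_of_le hlt h2
  rw [h3] at h4
  exact lt_irrefl _ h4

theorem v_ps {f : PowerSeries E} (hf : PowerSeries.constantCoeff f = 0) :
    (Valued.v (HahnSeries.ofPowerSeries ℤ E f : LaurentSeries E) :
      WithZero (Multiplicative ℤ)) ≤ exp (-1 : ℤ) := by
  have h := (LaurentSeries.intValuation_le_iff_coeff_lt_eq_zero E (d := 1) f).2 (by
    intro n hn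
    have hn0 : n = 0 := by omega
    rw [hn0, PowerSeries.coeff_zero_eq_constantCoeff_apply, hf])
  simpa using h

theorem exp_neg_one_lt : (exp (-1 : ℤ) : WithZero (Multiplicative ℤ)) < 1 := by
  rw [← exp_zero, exp_lt_exp]; norm_num

theorem v_unit {f : PowerSeries E} (hf : PowerSeries.constantCoeff f = 1) :
    (Valued.v (HahnSeries.ofPowerSeries ℤ E f : LaurentSeries E) :
      WithZero (Multiplicative ℤ)) = 1 := by
  have h1 : (Valued.v (HahnSeries.ofPowerSeries ℤ E (f - 1) : LaurentSeries E) :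
      WithZero (Multiplicative ℤ)) < 1 :=
    lt_of_le_of_lt (v_ps (by rw [map_sub, hf, map_one, sub_self])) exp_neg_one_lt
  have e1 : (HahnSeries.ofPowerSeries ℤ E f : LaurentSeries E) =
      HahnSeries.ofPowerSeries ℤ E (f - 1) + 1 := by
    rw [map_sub, map_one]; ring
  rw [e1, Valuation.map_add_eq_of_lt_right _ (by rw [map_one]; exact h1), map_one]

theorem v_res (z : LaurentSeries E)
    (hz : (Valued.v z : WithZero (Multiplicative ℤ)) ≤ 1) :
    (Valued.v (z - HahnSeries.C (z.coeff 0)) : WithZero (Multiplicative ℤ)) < 1 := by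
  have h0 : (Valued.v z : WithZero (Multiplicative ℤ)) ≤ exp (-(0 : ℤ)) := by simpa using hz
  have h1 := (LaurentSeries.valuation_le_iff_coeff_lt_eq_zero E (D := 0) (f := z)).1 h0
  have h := (LaurentSeries.valuation_le_iff_coeff_lt_eq_zero E (D := 1)
    (f := z - HahnSeries.C (z.coeff 0))).2 (by
      intro n hn
      rw [HahnSeries.coeff_sub]
      by_cases hn0 : n = 0
      · rw [hn0]
        show z.coeff 0 - (HahnSeries.single (0 : ℤ) (z.coeff 0)).coeff 0 = 0
        rw [HahnSeries.coeff_single_same, sub_self]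
      · rw [h1 n (by omega)]
        show 0 - (HahnSeries.single (0 : ℤ) (z.coeff 0)).coeff n = 0
        rw [HahnSeries.coeff_single_of_ne hn0, sub_zero])
  exact lt_of_le_of_lt h exp_neg_one_lt

end Series

section Rest

/-- the field `E(X, r_i)` -/
def layer {E M I : Type*} [Field E] [Field M] (ι : E →+* M) (X : M) (r : I → M) : Subfield M :=
  Subfield.closure (Set.range ι ∪ {X} ∪ Set.range r)

variable {E M I : Type*} [Field E] [Field M]

theorem layer_const (ι : E →+* M) (X : M) (r : I → M) (e : E) : ι e ∈ layer ι X r :=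
  Subfield.subset_closure (Or.inl (Or.inl ⟨e, rfl⟩))

theorem layer_X (ι : E →+* M) (X : M) (r : I → M) : X ∈ layer ι X r :=
  Subfield.subset_closure (Or.inl (Or.inr rfl))

theorem layer_r (ι : E →+* M) (X : M) (r : I → M) (i : I) : r i ∈ layer ι X r :=
  Subfield.subset_closure (Or.inr ⟨i, rfl⟩)

theorem layer_gen (ι : E →+* M) (X : M) (r : I → M) (κ : E →+* layer ι X r)
    (hκ : ∀ e, ((κ e : layer ι X r) : M) = ι e) (XL : layer ι X r) (hX : (XL : M) = X)
    (rL : I → layer ι X r) (hr : ∀ i, (rL i : M) = r i) (z : layer ι X r) :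
    z ∈ Subfield.closure (Set.range κ ∪ {XL} ∪ Set.range rL) := by
  have hle : layer ι X r ≤ (Subfield.closure (Set.range κ ∪ {XL} ∪ Set.range rL)).map
      (layer ι X r).subtype := by
    show Subfield.closure (Set.range ι ∪ {X} ∪ Set.range r) ≤ _
    rw [Subfield.closure_le]
    rintro x ((⟨e, rfl⟩ | hx) | ⟨i, rfl⟩)
    · exact ⟨κ e, Subfield.subset_closure (Or.inl (Or.inl ⟨e, rfl⟩)), hκ e⟩
    · rw [Set.mem_singleton_iff] at hx
      subst hx
      exact ⟨XL, Subfield.subset_closure (Or.inl (Or.inr rfl)), hX⟩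
    · exact ⟨rL i, Subfield.subset_closure (Or.inr ⟨i, rfl⟩), hr i⟩
  obtain ⟨z', hz', h⟩ := hle z.2
  have : z' = z := Subtype.ext h
  rw [← this]
  exact hz'

variable [CharZero E] [Fintype I] [Nonempty I]

theorem place_of_hom (ι : E →+* M) (X : M) (a : I → E) (r : I → M)
    (hr : ∀ i, r i ^ 2 = X - ι (a i)) (lam : layer ι X r →+* LaurentSeries E)
    (hE : ∀ (e : E) (he : ι e ∈ layer ι X r), lam ⟨ι e, he⟩ = HahnSeries.C e)
    (hR : ∀ (i : I) (hi : r i ∈ layer ι X r), ∃ f : PowerSeries E,
      PowerSeries.constantCoeff f = 1 ∧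
      lam ⟨r i, hi⟩ = HahnSeries.single (-1 : ℤ) (1 : E) * HahnSeries.ofPowerSeries ℤ E f) :
    ∃ w : Valuation (layer ι X r) (WithZero (Multiplicative ℤ)),
      (∀ (e : E) (he : ι e ∈ layer ι X r), e ≠ 0 → w ⟨ι e, he⟩ = 1) ∧
      (∀ hX : X ∈ layer ι X r, 1 < w ⟨X, hX⟩) ∧
      (∀ z : layer ι X r, w z ≤ 1 → ∃ (e : E) (he : ι e ∈ layer ι X r), w (z - ⟨ι e, he⟩) < 1) ∧
      (∀ (g : M ≃+* M) (σ : E ≃+* E) (π : Equiv.Perm I) (η : M), (η = 1 ∨ η = -1) →
        (∀ e, g (ι e) = ι (σ e)) → (∀ i, g (r i) = η * r (π i)) →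
        ∀ z (hz : z ∈ layer ι X r), ∃ hgz : g z ∈ layer ι X r, w ⟨g z, hgz⟩ = w ⟨z, hz⟩) := by
  set κ : E →+* layer ι X r := ι.codRestrict (layer ι X r) (layer_const ι X r) with hκ
  set rL : I → layer ι X r := fun i => ⟨r i, layer_r ι X r i⟩ with hrL
  set XL : layer ι X r := ⟨X, layer_X ι X r⟩ with hXL
  have hrL2 : ∀ i, rL i ^ 2 = XL - κ (a i) := fun i => Subtype.ext (hr i)
  have hgen := layer_gen ι X r κ (fun _ => rfl) XL rfl rL (fun _ => rfl)
  set w : Valuation (layer ι X r) (WithZero (Multiplicative ℤ)) :=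
    (Valued.v : Valuation (LaurentSeries E) (WithZero (Multiplicative ℤ))).comap lam with hwdef
  have hwap : ∀ z, w z = Valued.v (lam z) := fun _ => rfl
  have hpl : Pl κ rL w := by
    refine ⟨?_, ?_, ?_⟩
    · intro e he
      rw [hwap]
      have : lam (κ e) = HahnSeries.C e := hE e (layer_const ι X r e)
      rw [this, v_const he]
    · intro i
      obtain ⟨f, hf, hl⟩ := hR i (layer_r ι X r i)
      have : lam (rL i) = HahnSeries.single (-1 : ℤ) (1 : E) * HahnSeries.ofPowerSeries ℤ E f := hl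
      rw [hwap, this, map_mul, LaurentSeries.valuation_single_zpow, v_unit hf, mul_one, neg_neg]
    · intro i j
      obtain ⟨f, hf, hl⟩ := hR i (layer_r ι X r i)
      obtain ⟨f', hf', hl'⟩ := hR j (layer_r ι X r j)
      have e1 : lam (rL i) = HahnSeries.single (-1 : ℤ) (1 : E) *
        HahnSeries.ofPowerSeries ℤ E f := hl
      have e2 : lam (rL j) = HahnSeries.single (-1 : ℤ) (1 : E) *
        HahnSeries.ofPowerSeries ℤ E f' := hl'
      have e3 : lam (rL i - rL j) = HahnSeries.single (-1 : ℤ) (1 : E) *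
          HahnSeries.ofPowerSeries ℤ E (f - f') := by
        rw [map_sub, e1, e2, map_sub, mul_sub]
      rw [hwap, e3, map_mul, LaurentSeries.valuation_single_zpow, neg_neg]
      have h1 : (Valued.v (HahnSeries.ofPowerSeries ℤ E (f - f') : LaurentSeries E) :
          WithZero (Multiplicative ℤ)) < 1 :=
        lt_of_le_of_lt (v_ps (by rw [map_sub, hf, hf', sub_self])) exp_neg_one_lt
      calc exp (1 : ℤ) * Valued.v (HahnSeries.ofPowerSeries ℤ E (f - f') : LaurentSeries E)
          < exp (1 : ℤ) * 1 := mul_lt_mul_of_pos_left h1 exp_pos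
        _ = exp (1 : ℤ) := mul_one _
  refine ⟨w, ?_, ?_, ?_, ?_⟩
  · intro e he he0
    exact hpl.triv e he0
  · intro hX
    obtain ⟨i0⟩ := (inferInstance : Nonempty I)
    have e1 : (⟨X, hX⟩ : layer ι X r) = κ (a i0) + rL i0 ^ 2 := by
      rw [hrL2]
      show XL = _
      ring
    have h1 : w (rL i0 ^ 2) = exp (2 : ℤ) := by
      rw [map_pow, hpl.pole, pow_two, ← exp_add]; norm_num
    have h2 : (1 : WithZero (Multiplicative ℤ)) < exp (2 : ℤ) := by
      rw [← exp_zero, exp_lt_exp]; norm_num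
    have h3 : w (κ (a i0)) < w (rL i0 ^ 2) := by
      rw [h1]; exact lt_of_le_of_lt (hpl.const_le _) h2
    rw [e1, Valuation.map_add_eq_of_lt_right _ h3, h1]
    exact h2
  · intro z hz
    refine ⟨(lam z).coeff 0, layer_const ι X r _, ?_⟩
    rw [hwap, map_sub, hE]
    exact v_res (lam z) hz
  · intro g σ π η hη hgE hgr z hz
    have hηmem : η ∈ layer ι X r := by
      rcases hη with h | h
      · rw [h]; exact Subfield.one_mem _
      · rw [h]; exact Subfield.neg_mem _ (Subfield.one_mem _)
    obtain ⟨i0⟩ := (inferInstance : Nonempty I)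
    have hgX : g X ∈ layer ι X r := by
      have e1 : g X = g (r i0) ^ 2 + g (ι (a i0)) := by
        rw [← map_pow, ← map_add, hr]
        congr 1
        ring
      rw [e1, hgr, hgE]
      exact Subfield.add_mem _ (Subfield.pow_mem _ (Subfield.mul_mem _ hηmem
        (layer_r ι X r _)) 2) (layer_const ι X r _)
    have hle : layer ι X r ≤ (layer ι X r).comap (g : M →+* M) := by
      show Subfield.closure (Set.range ι ∪ {X} ∪ Set.range r) ≤ _
      rw [Subfield.closure_le]
      rintro x ((⟨e, rfl⟩ | hx) | ⟨i, rfl⟩)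
      · show g (ι e) ∈ layer ι X r
        rw [hgE]; exact layer_const ι X r _
      · rw [Set.mem_singleton_iff] at hx
        subst hx
        exact hgX
      · show g (r i) ∈ layer ι X r
        rw [hgr]; exact Subfield.mul_mem _ hηmem (layer_r ι X r _)
    set gL : layer ι X r →+* layer ι X r :=
      ((g : M →+* M).comp (layer ι X r).subtype).codRestrict (layer ι X r)
        (fun x => hle x.2) with hgL
    set ηL : layer ι X r := ⟨η, hηmem⟩ with hηL
    have hwη : w ηL = 1 := by
      rcases hη with h | h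
      · have : ηL = 1 := Subtype.ext h
        rw [this, map_one]
      · have : ηL = -1 := Subtype.ext h
        rw [this, Valuation.map_neg, map_one]
    have hgLr : ∀ i, gL (rL i) = ηL * rL (π i) := fun i => Subtype.ext (hgr i)
    have hgLE : ∀ e, gL (κ e) = κ (σ e) := fun e => Subtype.ext (hgE e)
    have hpl' : Pl κ rL (w.comap gL) := by
      refine ⟨?_, ?_, ?_⟩
      · intro e he
        rw [Valuation.comap_apply, hgLE]
        exact hpl.triv _ (by simpa using he)
      · intro i
        rw [Valuation.comap_apply, hgLr, map_mul, hwη, one_mul, hpl.pole]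
      · intro i j
        rw [Valuation.comap_apply, map_sub, hgLr, hgLr, ← mul_sub, map_mul, hwη, one_mul]
        exact hpl.near _ _
    exact ⟨hle hz, (Pl.unique hrL2 hgen hpl hpl' ⟨z, hz⟩).symm⟩

end Rest

end Pool.Agent.WMS
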