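import Mathlib
import Pool.Agent.WMS.ExistsY
import Pool.Agent.WMS.PlaceRest

/-!
The first layer: the field generated by the square roots of the `(x - a)(x - b)` is generated by
`1 / (x - θ₀)` and the `R θ`.
-/

set_option autoImplicit false

namespace Pool.Agent.WMS

open Polynomial Pool.Agent.Helper36 Pool.Agent.Helper19.Sec

lemma mem_of_sq_eq {M : Type*} [Field M] {S : Subfield M} {z t : M} (h : z ^ 2 = t ^ 2)
    (ht : t ∈ S) : z ∈ S := by
  rcases sq_eq_sq_iff_eq_or_eq_neg.mp h with rfl | rfl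
  · exact ht
  · exact S.neg_mem ht

section

variable {k K Ω : Type*} [Field k] [Field K] [Field Ω] [Algebra k K] [Algebra K Ω] [Algebra k Ω]
  [IsScalarTower k K Ω] [CharZero k] [Algebra.IsAlgebraic K Ω] [IsAlgClosed Ω]

theorem layer_eq (f : k[X]) (hf : f.Separable) (heven : Even f.natDegree) (h6 : 6 ≤ f.natDegree)
    (c : k) (hc : c ≠ 0) (x y : K) (hx : Transcendental k x)
    (hxy : algebraMap k K c * y ^ 2 = aeval x f)
    (θ₀ : algebraicClosure k Ω) (hθ₀ : aeval θ₀ f = 0)
    (R : algebraicClosure k Ω → univCover k K Ω)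
    (hR : ∀ θ : algebraicClosure k Ω, aeval θ f = 0 → θ ≠ θ₀ → IsR x θ₀ θ (R θ)) :
    Subfield.closure (Set.range (incl k K Ω) ∪
      {algebraMap K (univCover k K Ω) x, algebraMap K (univCover k K Ω) y} ∪
      {z | ∃ a b : algebraicClosure k Ω, aeval a f = 0 ∧ aeval b f = 0 ∧
        z ^ 2 = (algebraMap K (univCover k K Ω) x - incl k K Ω a) *
          (algebraMap K (univCover k K Ω) x - incl k K Ω b)}) =
    layer (incl k K Ω) ((algebraMap K (univCover k K Ω) x - incl k K Ω θ₀)⁻¹)
      (fun i : {θ : algebraicClosure k Ω // aeval θ f = 0 ∧ θ ≠ θ₀} => R i) := by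
  classical
  set xM : univCover k K Ω := algebraMap K (univCover k K Ω) x with hxM
  set yM : univCover k K Ω := algebraMap K (univCover k K Ω) y with hyM
  set S1 := Subfield.closure (Set.range (incl k K Ω) ∪ {xM, yM} ∪
      {z : univCover k K Ω | ∃ a b : algebraicClosure k Ω, aeval a f = 0 ∧ aeval b f = 0 ∧
        z ^ 2 = (xM - incl k K Ω a) * (xM - incl k K Ω b)}) with hS1
  set S2 := layer (incl k K Ω) ((xM - incl k K Ω θ₀)⁻¹)
      (fun i : {θ : algebraicClosure k Ω // aeval θ f = 0 ∧ θ ≠ θ₀} => R i) with hS2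
  have hx0 : ∀ e, xM - incl k K Ω e ≠ 0 := fun e => xsub_ne x hx e
  have hc2 : ∀ e, incl k K Ω e ∈ S2 := fun e => layer_const _ _ _ e
  have hX2 : (xM - incl k K Ω θ₀)⁻¹ ∈ S2 := layer_X _ _ _
  have hR2 : ∀ θ, aeval θ f = 0 → θ ≠ θ₀ → R θ ∈ S2 := by
    intro θ hθ hne
    exact layer_r (incl k K Ω) ((xM - incl k K Ω θ₀)⁻¹)
      (fun i : {θ : algebraicClosure k Ω // aeval θ f = 0 ∧ θ ≠ θ₀} => R i) ⟨θ, hθ, hne⟩
  have hc1 : ∀ e, incl k K Ω e ∈ S1 := fun e => Subfield.subset_closure (Or.inl (Or.inl ⟨e, rfl⟩))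
  have hx1 : xM ∈ S1 := Subfield.subset_closure (Or.inl (Or.inr (Or.inl rfl)))
  -- the key relation
  have ht : ∀ a : algebraicClosure k Ω, aeval a f = 0 → ∃ t ∈ S2,
      (xM - incl k K Ω a) * (xM - incl k K Ω θ₀)⁻¹ = t ^ 2 := by
    intro a ha
    by_cases hne : a = θ₀
    · refine ⟨1, S2.one_mem, ?_⟩
      rw [hne, mul_inv_cancel₀ (hx0 _), one_pow]
    · obtain ⟨κ, hκ⟩ := IsAlgClosed.exists_pow_nat_eq (-(a - θ₀)) (n := 2) (by norm_num)
      refine ⟨incl k K Ω κ * R a, S2.mul_mem (hc2 κ) (hR2 a ha hne), ?_⟩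
      have hd : a - θ₀ ≠ 0 := sub_ne_zero.mpr hne
      have hdι : incl k K Ω (a - θ₀) ≠ 0 := by rwa [_root_.map_ne_zero]
      have h1 := hR a ha hne
      unfold IsR at h1
      have h4 : incl k K Ω ((a - θ₀)⁻¹) = (incl k K Ω (a - θ₀))⁻¹ := map_inv₀ _ _
      have h5 : incl k K Ω a = incl k K Ω θ₀ + incl k K Ω (a - θ₀) := by
        rw [← map_add]; congr 1; ring
      have h0 := hx0 θ₀
      rw [mul_pow, h1, ← map_pow, hκ, map_neg, h4, h5, ← hxM]
      field_simp
      ring
  apply le_antisymm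
  · rw [hS1, Subfield.closure_le]
    have hxS : xM ∈ S2 := by
      have : xM = ((xM - incl k K Ω θ₀)⁻¹)⁻¹ + incl k K Ω θ₀ := by rw [inv_inv]; ring
      rw [this]
      exact S2.add_mem (S2.inv_mem hX2) (hc2 _)
    rintro z ((⟨e, rfl⟩ | hz) | ⟨a, b, ha, hb, hz⟩)
    · exact hc2 e
    · rcases hz with rfl | hz
      · exact hxS
      · rw [Set.mem_singleton_iff] at hz
        rw [hz]
        -- the element `y`
        have hf0 : f ≠ 0 := by
          rintro rfl
          rw [natDegree_zero] at h6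
          omega
        set fE : (algebraicClosure k Ω)[X] := f.map (algebraMap k (algebraicClosure k Ω)) with hfE
        have hfE0 : fE ≠ 0 := Polynomial.map_ne_zero hf0
        have hsplits : fE.Splits := IsAlgClosed.splits fE
        have hnodup : fE.roots.Nodup := nodup_roots (hf.map)
        set Θ : Finset (algebraicClosure k Ω) := fE.roots.toFinset with hΘ
        have hmemΘ : ∀ θ : (algebraicClosure k Ω), θ ∈ Θ ↔ aeval θ f = 0 := by
          intro θ
          rw [hΘ, Multiset.mem_toFinset, mem_roots hfE0, IsRoot.def, hfE, eval_map_algebraMap]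
        have hcard : Θ.card = f.natDegree := by
          rw [hΘ, Multiset.toFinset_card_of_nodup hnodup, ← hsplits.natDegree_eq_card_roots, hfE,
            natDegree_map]
        have hfx : incl k K Ω (algebraMap k (algebraicClosure k Ω) f.leadingCoeff) *
            ∏ θ ∈ Θ, (xM - incl k K Ω θ) = eval₂ (incl k K Ω) xM fE := by
          have h1 := hsplits.eq_prod_roots
          conv_rhs => rw [h1]
          rw [eval₂_mul, eval₂_C, ← coe_eval₂RingHom, map_multiset_prod, Multiset.map_map]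
          congr 1
          · rw [hfE, leadingCoeff_map]
          · rw [Finset.prod_eq_multiset_prod, hΘ, Multiset.toFinset_val, hnodup.dedup]
            congr 1
            apply Multiset.map_congr rfl
            intro w _
            simp [coe_eval₂RingHom]
        have hfx2 : eval₂ (incl k K Ω) xM fE =
            incl k K Ω (algebraMap k (algebraicClosure k Ω) c) * yM ^ 2 := by
          have hcomp : (incl k K Ω).comp (algebraMap k (algebraicClosure k Ω)) =
              (algebraMap K (univCover k K Ω)).comp (algebraMap k K) := by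
            apply RingHom.ext
            intro e
            apply Subtype.ext
            exact IsScalarTower.algebraMap_apply k K Ω e
          rw [hfE, eval₂_map, hcomp, ← hom_eval₂, hyM, ← map_pow, ← RingHom.comp_apply, hcomp,
            RingHom.comp_apply, ← map_mul, hxy]
          rfl
        obtain ⟨m, hm⟩ := heven
        have hprod : ∃ t ∈ S2, (∏ θ ∈ Θ, (xM - incl k K Ω θ)) *
            ((xM - incl k K Ω θ₀)⁻¹ ^ m) ^ 2 = t ^ 2 := by
          have h1 : ∀ T : Finset (algebraicClosure k Ω), T ⊆ Θ → ∃ t ∈ S2,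
              (∏ θ ∈ T, (xM - incl k K Ω θ)) * (xM - incl k K Ω θ₀)⁻¹ ^ T.card = t ^ 2 := by
            intro T
            induction T using Finset.induction_on with
            | empty =>
              intro _
              exact ⟨1, S2.one_mem, by simp⟩
            | insert a T haT ih =>
              intro hT
              obtain ⟨t, htS, htT⟩ := ih fun z hz => hT (Finset.mem_insert_of_mem hz)
              obtain ⟨t', htS', htT'⟩ := ht a ((hmemΘ a).mp (hT (Finset.mem_insert_self a T)))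
              refine ⟨t * t', S2.mul_mem htS htS', ?_⟩
              rw [Finset.prod_insert haT, Finset.card_insert_of_notMem haT, mul_pow, ← htT, ← htT']
              ring
          obtain ⟨t, htS, htT⟩ := h1 Θ subset_rfl
          refine ⟨t, htS, ?_⟩
          rw [← htT, hcard, hm]
          ring
        obtain ⟨t, htS, htT⟩ := hprod
        have hlead : f.leadingCoeff ≠ 0 := leadingCoeff_ne_zero.mpr hf0
        obtain ⟨γ, hγ⟩ := IsAlgClosed.exists_pow_nat_eq
          (algebraMap k (algebraicClosure k Ω) (c / f.leadingCoeff)) (n := 2) (by norm_num)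
        have hγ0 : γ ≠ 0 := by
          rintro rfl
          rw [zero_pow (by norm_num)] at hγ
          rw [eq_comm, _root_.map_eq_zero] at hγ
          exact div_ne_zero hc hlead hγ
        have hγι : incl k K Ω γ ≠ 0 := by rwa [_root_.map_ne_zero]
        have hleadM : incl k K Ω (algebraMap k (algebraicClosure k Ω) f.leadingCoeff) ≠ 0 := by
          rw [_root_.map_ne_zero, _root_.map_ne_zero]
          exact hlead
        have hprodx : ∏ θ ∈ Θ, (xM - incl k K Ω θ) = incl k K Ω γ ^ 2 * yM ^ 2 := by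
          apply mul_left_cancel₀ hleadM
          rw [hfx, hfx2, ← map_pow (incl k K Ω) γ, hγ, ← mul_assoc, ← map_mul, ← map_mul,
            mul_div_cancel₀ _ hlead]
        rw [hprodx] at htT
        have hX0 : (xM - incl k K Ω θ₀)⁻¹ ^ m ≠ 0 := pow_ne_zero _ (inv_ne_zero (hx0 _))
        have h9 : yM ^ 2 = (t / (incl k K Ω γ * (xM - incl k K Ω θ₀)⁻¹ ^ m)) ^ 2 := by
          rw [div_pow, ← htT, mul_pow]
          rw [eq_div_iff (mul_ne_zero (pow_ne_zero _ hγι) (pow_ne_zero _ hX0))]
          ring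
        exact mem_of_sq_eq h9 (S2.div_mem htS (S2.mul_mem (hc2 γ) (S2.pow_mem hX2 m)))
    · obtain ⟨t, htS, hta⟩ := ht a ha
      obtain ⟨t', htS', htb⟩ := ht b hb
      have h0 := hx0 θ₀
      have h9 : z ^ 2 = (t * t' * (xM - incl k K Ω θ₀)) ^ 2 := by
        rw [hz, mul_pow, mul_pow, ← hta, ← htb]
        field_simp
      have hx0S : xM - incl k K Ω θ₀ ∈ S2 := S2.sub_mem hxS (hc2 _)
      exact mem_of_sq_eq h9 (S2.mul_mem (S2.mul_mem htS htS') hx0S)
  · show Subfield.closure _ ≤ S1
    rw [Subfield.closure_le]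
    have hX1 : (xM - incl k K Ω θ₀)⁻¹ ∈ S1 := S1.inv_mem (S1.sub_mem hx1 (hc1 _))
    rintro z ((⟨e, rfl⟩ | hz) | ⟨i, rfl⟩)
    · exact hc1 e
    · rw [Set.mem_singleton_iff] at hz
      rw [hz]
      exact hX1
    · obtain ⟨θ, hθ, hne⟩ := i
      show R θ ∈ S1
      obtain ⟨r, -, hr, -⟩ := exists_sqrt f hf c hc x y hx hxy ⊥ (bot_unram (k := k)).1
        bot_unram.2 θ₀ θ hθ₀ hθ
      have hrS : r ∈ S1 := Subfield.subset_closure (Or.inr ⟨θ₀, θ, hθ₀, hθ, hr⟩)
      obtain ⟨κ, hκ⟩ := IsAlgClosed.exists_pow_nat_eq (-(θ - θ₀)⁻¹) (n := 2) (by norm_num)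
      have hd : θ - θ₀ ≠ 0 := sub_ne_zero.mpr hne
      have hdι : incl k K Ω (θ - θ₀) ≠ 0 := by rwa [_root_.map_ne_zero]
      have h1 := hR θ hθ hne
      unfold IsR at h1
      have h4 : incl k K Ω ((θ - θ₀)⁻¹) = (incl k K Ω (θ - θ₀))⁻¹ := map_inv₀ _ _
      have h5 : incl k K Ω θ = incl k K Ω θ₀ + incl k K Ω (θ - θ₀) := by
        rw [← map_add]; congr 1; ring
      have h0 := hx0 θ₀
      have h9 : R θ ^ 2 = (incl k K Ω κ * r * (xM - incl k K Ω θ₀)⁻¹) ^ 2 := by
        rw [h1, mul_pow, mul_pow, hr, ← map_pow, hκ, map_neg, h4, ← hxM, h5]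
        field_simp
        ring
      exact mem_of_sq_eq h9 (S1.mul_mem (S1.mul_mem (hc1 κ) hrS) hX1)

end

end Pool.Agent.WMS
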