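import Mathlib
import Pool.Agent.Helper36.SecNames

/-!
Definitions for the theorem on the first layer of the universal cover.
-/

set_option autoImplicit false

namespace Pool.Agent.WMS

open Polynomial Pool.Agent.Helper36

section

variable {k K Ω : Type*} [Field k] [Field K] [Field Ω] [Algebra k K] [Algebra K Ω] [Algebra k Ω]
  [IsScalarTower k K Ω]

/-- the element `z` of `K~` is a constant, i.e. it lies in `kbar`, the algebraic closure of `k` -/
def IsConst (z : UnivField k K Ω) : Prop := ∃ a : ConstClosure k Ω, z.val = a.val

/-- `z ^ 2 = (x - a) (x - b)` for two roots `a`, `b` of `f` -/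
def IsRootSqrt (f : k[X]) (x : K) (z : UnivField k K Ω) : Prop :=
  ∃ a b : ConstClosure k Ω, aeval a f = 0 ∧ aeval b f = 0 ∧
    z.val ^ 2 = (algebraMap K Ω x - a.val) * (algebraMap K Ω x - b.val)

variable (Ω) in
/-- The first layer: the subfield of `K~` generated by `kbar`, `x`, `y` and all square roots of
`(x - a) (x - b)`, `a` and `b` roots of `f`.  (If `K = k(x, y)` and `c * y ^ 2 = f(x)` with `f` of
even degree, this is the maximal abelian extension of exponent two of `K kbar` in `K~`.) -/
noncomputable def firstLayer (f : k[X]) (x y : K) : Subfield (UnivField k K Ω) :=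
  Subfield.closure ({z | IsConst z} ∪
    {algebraMap K (UnivField k K Ω) x, algebraMap K (UnivField k K Ω) y} ∪ {z | IsRootSqrt f x z})

/-- The discrete valuation `w` of the first layer is trivial on `kbar`, has the residue field
`kbar`, and is centred at `x = a` (the value of `x - a` is less than one, in multiplicative
notation). -/
structure IsPointAt {f : k[X]} {x y : K}
    (w : Valuation (firstLayer Ω f x y) (WithZero (Multiplicative ℤ)))
    (a : ConstClosure k Ω) : Prop where
  trivial : ∀ z : firstLayer Ω f x y, IsConst (z : UnivField k K Ω) → z ≠ 0 → w z = 1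
  residue : ∀ z : firstLayer Ω f x y, w z ≤ 1 →
    ∃ c : firstLayer Ω f x y, IsConst (c : UnivField k K Ω) ∧ w (z - c) < 1
  centre : ∀ z : firstLayer Ω f x y,
    (z : UnivField k K Ω).val = algebraMap K Ω x - a.val → w z < 1

/-- The automorphism `g` of `K~` maps the first layer to itself and respects the valuation `w`. -/
def Respects {f : k[X]} {x y : K}
    (w : Valuation (firstLayer Ω f x y) (WithZero (Multiplicative ℤ)))
    (g : PiOne k K Ω) : Prop :=
  ∀ z : firstLayer Ω f x y, ∃ z' : firstLayer Ω f x y,
    (z' : UnivField k K Ω) = g (z : UnivField k K Ω) ∧ w z' = w z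

/-- `σ` lies in the decomposition group of the valuation ring `V` -/
def InDecomp (V : ValuationSubring (ConstClosure k Ω)) (σ : AbsGal k Ω) : Prop :=
  ∀ z, z ∈ V ↔ σ z ∈ V

end

end Pool.Agent.WMS
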