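import Pool.Agent.WMS.PlaceH

/-!
The place at infinity of `E(X, r_1, ..., r_n)`, `r_i ^ 2 = X - a_i`, at which all `r_i / r_j` have
the value `1`.
-/

set_option autoImplicit false

namespace Pool.Agent.WMS

open Polynomial

variable {E M I : Type*} [Field E] [CharZero E] [IsAlgClosed E] [Field M]

/-- There is a discrete valuation of `E(X, r_i)`, trivial on `E`, with residue field `E`, with a
pole at `X`, and `r_i / r_j` congruent to `1`; it is invariant under all automorphisms of `M` (or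
semilinear ones) which permute the `r_i` up to one common sign. -/
theorem exists_place [Fintype I] [Nonempty I] (ι : E →+* M) (X : M)
    (htr : ∀ p : E[X], eval₂ ι X p = 0 → p = 0) (a : I → E)
    (ha : Function.Injective a) (r : I → M) (hr : ∀ i, r i ^ 2 = X - ι (a i)) :
    ∃ w : Valuation (layer ι X r) (WithZero (Multiplicative ℤ)),
      (∀ (e : E) (he : ι e ∈ layer ι X r), e ≠ 0 → w ⟨ι e, he⟩ = 1) ∧
      (∀ hX : X ∈ layer ι X r, 1 < w ⟨X, hX⟩) ∧
      (∀ z : layer ι X r, w z ≤ 1 → ∃ (e : E) (he : ι e ∈ layer ι X r), w (z - ⟨ι e, he⟩) < 1) ∧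
      (∀ (g : M ≃+* M) (σ : E ≃+* E) (π : Equiv.Perm I) (η : M), (η = 1 ∨ η = -1) →
        (∀ e, g (ι e) = ι (σ e)) → (∀ i, g (r i) = η * r (π i)) →
        ∀ z (hz : z ∈ layer ι X r), ∃ hgz : g z ∈ layer ι X r, w ⟨g z, hgz⟩ = w ⟨z, hz⟩) := by
  obtain ⟨lam, hE, hR⟩ := exists_hom ι X htr a ha r hr
  exact place_of_hom ι X a r hr lam hE hR

end Pool.Agent.WMS
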