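import Mathlib
import Pool.Agent.Helper19.Sec.Local

/-!
Automorphisms over a finite field act as powers of Frobenius on the elements of a finite subfield.
-/

set_option autoImplicit false

namespace Pool.Agent.WMS

open Polynomial Pool.Agent.Helper19.Sec

lemma frob_power {κ κ' : Type*} [Field κ] [Finite κ] [Field κ'] (j : κ →+* κ') (s : κ' →+* κ')
    (hs : ∀ a, s (j a) = j a) (e : ℕ) (he : 0 < e) :
    ∃ i : ℕ, ∀ x : κ', x ^ (Nat.card κ) ^ e = x → s x = x ^ (Nat.card κ) ^ i := by
  classical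
  have := Fintype.ofFinite κ
  obtain ⟨p, hp⟩ := CharP.exists κ
  have hprime : p.Prime := CharP.char_is_prime κ p
  have : Fact p.Prime := ⟨hprime⟩
  obtain ⟨f, -, hf⟩ := FiniteField.card κ p
  have hcharκ' : CharP κ' p := charP_of_injective_ringHom j.injective p
  set q := Nat.card κ with hq
  have hqf : q = p ^ (f : ℕ) := by rw [hq, Nat.card_eq_fintype_card, hf]
  have hq2 : 2 ≤ q := Finite.one_lt_card
  let F : κ' →+* κ' := iterateFrobenius κ' p f
  have hF : ∀ x, F x = x ^ q := by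
    intro x
    rw [hqf]
    exact iterateFrobenius_def p f x
  have hQ : 2 ≤ q ^ e := by
    calc 2 ≤ q := hq2
      _ = q ^ 1 := (pow_one q).symm
      _ ≤ q ^ e := Nat.pow_le_pow_right (by omega) he
  have hQ1 : NeZero (q ^ e - 1) := ⟨by omega⟩
  obtain ⟨γ, hγ⟩ := (rootsOfUnity.isCyclic κ' (q ^ e - 1)).exists_generator
  set g : κ' := ((γ : κ'ˣ) : κ') with hg
  have hg1 : g ^ (q ^ e - 1) = 1 := by
    have h1 := γ.2
    rw [mem_rootsOfUnity] at h1
    have h2 := congrArg Units.val h1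
    rw [Units.val_pow_eq_pow_val, Units.val_one] at h2
    exact h2
  have hgQ : g ^ q ^ e = g := by
    have h1 : q ^ e = q ^ e - 1 + 1 := by omega
    rw [h1, pow_succ, hg1, one_mul]
  -- the polynomial
  let T : κ'[X] := ∏ i ∈ Finset.range e, (X - C (g ^ q ^ i))
  have hTF : T.map F = T := by
    have h1 : T.map F = ∏ i ∈ Finset.range e, (X - C (g ^ q ^ (i + 1))) := by
      rw [Polynomial.map_prod]
      apply Finset.prod_congr rfl
      intro i _
      rw [Polynomial.map_sub, map_X, map_C, hF, ← pow_mul, ← pow_succ]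
    have e1 := Finset.prod_range_succ' (fun i => (X - C (g ^ q ^ i) : κ'[X])) e
    have e2 := Finset.prod_range_succ (fun i => (X - C (g ^ q ^ i) : κ'[X])) e
    have h2 : (X - C (g ^ q ^ 0) : κ'[X]) = X - C (g ^ q ^ e) := by rw [hgQ, pow_zero, pow_one]
    have h3 : (∏ i ∈ Finset.range e, (X - C (g ^ q ^ (i + 1)) : κ'[X])) * (X - C (g ^ q ^ e)) =
        T * (X - C (g ^ q ^ e)) := by
      rw [← e2, e1, h2]
    rw [h1]
    exact mul_right_cancel₀ (X_sub_C_ne_zero _) h3
  have hTs : T.map s = T := by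
    ext i
    rw [coeff_map]
    have h1 : (T.coeff i) ^ Nat.card κ = T.coeff i := by
      conv_rhs => rw [← hTF, coeff_map, hF]
    obtain ⟨a, ha⟩ := mem_range_of_pow_card j (T.coeff i) h1
    rw [← ha, hs]
  have hTg : T.eval g = 0 := by
    rw [Polynomial.eval_prod]
    apply Finset.prod_eq_zero (Finset.mem_range.mpr he)
    rw [pow_zero, pow_one, eval_sub, eval_X, eval_C, sub_self]
  have hTsg : T.eval (s g) = 0 := by
    conv_lhs => rw [← hTs]
    rw [eval_map, eval₂_at_apply, hTg, map_zero]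
  rw [Polynomial.eval_prod, Finset.prod_eq_zero_iff] at hTsg
  obtain ⟨i, -, hi⟩ := hTsg
  rw [eval_sub, eval_X, eval_C, sub_eq_zero] at hi
  refine ⟨i, ?_⟩
  intro x hx
  by_cases hx0 : x = 0
  · rw [hx0, map_zero, zero_pow (pow_ne_zero _ (by omega))]
  · have hx1 : x ^ (q ^ e - 1) = 1 := by
      have h1 : q ^ e = q ^ e - 1 + 1 := by omega
      rw [h1, pow_succ] at hx
      exact mul_right_cancel₀ hx0 (by rw [hx, one_mul])
    let ξ : rootsOfUnity (q ^ e - 1) κ' := ⟨Units.mk0 x hx0, by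
      rw [mem_rootsOfUnity]
      apply Units.ext
      rw [Units.val_pow_eq_pow_val, Units.val_mk0, Units.val_one, hx1]⟩
    obtain ⟨n, hn⟩ := Subgroup.mem_zpowers_iff.mp (hγ ξ)
    have h2 : x = g ^ n := by
      have h3 := congrArg (fun z : rootsOfUnity (q ^ e - 1) κ' => ((z : κ'ˣ) : κ')) hn
      simp only [Subgroup.coe_zpow, Units.val_zpow_eq_zpow_val] at h3
      exact h3.symm
    rw [h2, map_zpow₀, hi]
    rw [← zpow_natCast (g ^ n), ← zpow_natCast g, ← zpow_mul, ← zpow_mul, mul_comm]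

end Pool.Agent.WMS
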