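import Mathlib
import Pool.Agent.Helper19.Sec.Gal

/-!
Frobenius lift and inertia element for a given valuation ring of the algebraic closure.
-/

set_option autoImplicit false

namespace Pool.Agent.WMS

open Polynomial Pool.Agent.Helper19.Sec
open scoped Pointwise

open GalAux in
/-- `exists_local` of helper19 for a GIVEN valuation ring `V` of `E` over `A` (there `V` is
constructed as `VP P` with `P` a maximal ideal of the integral closure `B` of `A`; here take
`P = m_V ∩ B`; then `VP P = V`: it is contained in `V`, and `m_(VP P)` is contained in `m_V`). -/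
theorem exists_localV {A k E : Type*} [CommRing A] [IsDomain A] [IsDiscreteValuationRing A]
    [Field k] [CharZero k] [Algebra A k] [IsFractionRing A k] [Field E] [Algebra k E]
    [IsAlgClosure k E] [Finite (IsLocalRing.ResidueField A)] (h2 : IsUnit (2 : A)) (ϖ : A)
    (hϖ : Irreducible ϖ) (s : E) (hs : s ^ 2 = algebraMap k E (algebraMap A k ϖ))
    (V : ValuationSubring E) (hV : ∀ a : k, algebraMap k E a ∈ V ↔ ∃ b : A, algebraMap A k b = a) :
    ∃ φ τ : E ≃ₐ[k] E,
      IsLoc V.valuation (φ : E →+* E) (τ : E →+* E) (Nat.card (IsLocalRing.ResidueField A)) ∧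
      τ s = - s := by
  letI : Algebra A E := ((algebraMap k E).comp (algebraMap A k)).toAlgebra
  haveI : IsScalarTower A k E := IsScalarTower.of_algebraMap_eq fun _ => rfl
  haveI : IsGalois k E := inferInstance
  letI := actB A k E
  have hinjA : Function.Injective (algebraMap A E) := by
    rw [IsScalarTower.algebraMap_eq A k E]
    exact (algebraMap k E).injective.comp (IsFractionRing.injective A k)
  have hinjAB : Function.Injective (algebraMap A (integralClosure A E)) := fun a b h =>
    hinjA (congrArg Subtype.val h)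
  have hAV : ∀ a : A, algebraMap A E a ∈ V := fun a => (hV (algebraMap A k a)).mpr ⟨a, rfl⟩
  have hBV : ∀ b : integralClosure A E, (b : E) ∈ V := by
    intro b
    let jA : A →+* V := (algebraMap A E).codRestrict V.toSubring hAV
    have h1 : IsIntegral V (b : E) := by
      obtain ⟨p, hp, h0⟩ := b.2
      refine ⟨p.map jA, hp.map jA, ?_⟩
      rw [eval₂_map]
      exact h0
    obtain ⟨z, hz⟩ := IsIntegrallyClosed.isIntegral_iff.mp h1
    rw [← hz]
    exact z.2
  have hunitA : ∀ a : A, V.valuation (algebraMap A E a) = 1 → IsUnit a := by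
    intro a ha
    have h0 : algebraMap A k a ≠ 0 := by
      intro h
      have : algebraMap A E a = 0 := by
        rw [IsScalarTower.algebraMap_apply A k E, h, map_zero]
      rw [this, map_zero] at ha
      exact zero_ne_one ha
    have h3 : algebraMap k E (algebraMap A k a)⁻¹ ∈ V := by
      rw [← V.valuation_le_one_iff, map_inv₀, map_inv₀]
      have : V.valuation (algebraMap k E (algebraMap A k a)) = 1 := ha
      rw [this, inv_one]
    obtain ⟨b, hb⟩ := (hV _).mp h3
    have h4 : a * b = 1 := by
      apply IsFractionRing.injective A k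
      rw [map_mul, hb, map_one, mul_inv_cancel₀ h0]
    exact IsUnit.of_mul_eq_one b h4
  obtain ⟨P, hPV⟩ : ∃ P : Ideal (integralClosure A E),
      ∀ b : integralClosure A E, b ∈ P ↔ V.valuation (b : E) < 1 := by
    refine ⟨{ carrier := {b | V.valuation (b : E) < 1}, add_mem' := ?_, zero_mem' := ?_,
              smul_mem' := ?_ }, fun b => Iff.rfl⟩
    · intro a b ha hb
      show V.valuation ((a : E) + (b : E)) < 1
      exact Valuation.map_add_lt _ (show V.valuation (a : E) < 1 from ha)
        (show V.valuation (b : E) < 1 from hb)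
    · show V.valuation ((0 : integralClosure A E) : E) < 1
      rw [ZeroMemClass.coe_zero, map_zero]
      exact zero_lt_one
    · intro c b hb
      show V.valuation (((c * b : integralClosure A E)) : E) < 1
      rw [MulMemClass.coe_mul, map_mul]
      exact lt_of_le_of_lt (mul_le_of_le_one_left' ((V.valuation_le_one_iff _).mpr (hBV c)))
        (show V.valuation (b : E) < 1 from hb)
  have hP : P.IsPrime := by
    refine ⟨?_, ?_⟩
    · intro h
      have h1 : (1 : integralClosure A E) ∈ P := by rw [h]; trivial
      rw [hPV, OneMemClass.coe_one, map_one] at h1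
      exact lt_irrefl _ h1
    · intro a b hab
      by_contra hcon
      push Not at hcon
      obtain ⟨ha, hb⟩ := hcon
      rw [hPV] at hab ha hb
      have h1 : V.valuation (a : E) = 1 :=
        le_antisymm ((V.valuation_le_one_iff _).mpr (hBV a)) (not_lt.mp ha)
      have h3 : V.valuation (b : E) = 1 :=
        le_antisymm ((V.valuation_le_one_iff _).mpr (hBV b)) (not_lt.mp hb)
      rw [MulMemClass.coe_mul, map_mul, h1, h3, one_mul] at hab
      exact lt_irrefl _ hab
  have hPl : P.LiesOver (IsLocalRing.maximalIdeal A) := by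
    refine ⟨?_⟩
    ext a
    rw [Ideal.mem_comap, hPV, IsLocalRing.mem_maximalIdeal, mem_nonunits_iff]
    have h1 : ((algebraMap A (integralClosure A E) a : integralClosure A E) : E) =
      algebraMap A E a := rfl
    rw [h1]
    constructor
    · intro h
      refine lt_of_le_of_ne ((V.valuation_le_one_iff _).mpr (hAV a)) fun h3 => h (hunitA a h3)
    · rintro h ⟨u, rfl⟩
      have h3 : V.valuation (algebraMap A E (u : A)) *
          V.valuation (algebraMap A E ((u⁻¹ : Aˣ) : A)) = 1 := by
        rw [← map_mul, ← map_mul, Units.mul_inv, map_one, map_one]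
      have h4 : V.valuation (algebraMap A E (u : A)) *
          V.valuation (algebraMap A E ((u⁻¹ : Aˣ) : A)) < 1 :=
        mul_lt_one_of_lt_of_le h ((V.valuation_le_one_iff _).mpr (hAV _))
      rw [h3] at h4
      exact lt_irrefl _ h4
  have hPm : P.IsMaximal := by
    have h1 : (P.under A).IsMaximal := by
      rw [← hPl.over]
      exact IsLocalRing.maximalIdeal.isMaximal A
    exact Ideal.isMaximal_of_isIntegral_of_isMaximal_comap P h1
  have hinj : Function.Injective (algebraMap (integralClosure A E) E) := Subtype.val_injective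
  have hpr := pruefer (A := A) (k := k) P
  have hVV : VP P hinj hpr = V := by
    have hval1 : ∀ t : integralClosure A E, t ∉ P → V.valuation (t : E) = 1 := by
      intro t ht
      rw [hPV] at ht
      exact le_antisymm ((V.valuation_le_one_iff _).mpr (hBV t)) (not_lt.mp ht)
    ext z
    constructor
    · rintro ⟨b, t, ht, h⟩
      rw [← V.valuation_le_one_iff]
      have h1 : V.valuation (t : E) * V.valuation z = V.valuation (b : E) := by
        rw [← map_mul]
        exact congrArg _ h
      rw [hval1 t ht, one_mul] at h1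
      rw [h1]
      exact (V.valuation_le_one_iff _).mpr (hBV b)
    · intro hz
      obtain ⟨b, c, h, h1⟩ := hpr z
      by_cases hb : b ∈ P
      · have hc : c ∉ P := by
          rcases h1 with h1 | h1
          · exact absurd hb h1
          · exact h1
        exfalso
        have h3 : V.valuation (b : E) * V.valuation z = V.valuation (c : E) := by
          rw [← map_mul]
          exact congrArg _ h
        rw [hval1 c hc] at h3
        have h4 : V.valuation (b : E) * V.valuation z < 1 :=
          mul_lt_one_of_lt_of_le ((hPV b).mp hb) ((V.valuation_le_one_iff _).mpr hz)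
        rw [h3] at h4
        exact lt_irrefl _ h4
      · exact ⟨c, b, hb, h⟩
  rw [← hVV]
  clear hPV hVV
  obtain ⟨φ, hφP, hφ⟩ := exists_frob (A := A) (k := k) P
  obtain ⟨τ, hτP, hτ, hτs⟩ := exists_inertia (A := A) (k := k) P h2 ϖ hϖ s hs
  have hmem : ∀ g : E ≃ₐ[k] E, g • P = P → ∀ t : integralClosure A E, t ∉ P → g • t ∉ P := by
    intro g hg t ht hcon
    apply ht
    rw [← hg] at hcon
    exact Ideal.smul_mem_pointwise_smul_iff.1 hcon
  have hV : ∀ g : E ≃ₐ[k] E, g • P = P → ∀ z, z ∈ VP P hinj hpr → g z ∈ VP P hinj hpr := by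
    rintro g hg z ⟨b, t, ht, h⟩
    refine ⟨g • b, g • t, hmem g hg t ht, ?_⟩
    show g (t : E) * g z = g (b : E)
    rw [← map_mul]
    exact congrArg g h
  have hV' : ∀ g : E ≃ₐ[k] E, g • P = P → ∀ z, z ∈ VP P hinj hpr ↔ g z ∈ VP P hinj hpr := by
    intro g hg z
    refine ⟨hV g hg z, fun h => ?_⟩
    have h1 := hV g⁻¹ (by rw [inv_smul_eq_iff, hg]) (g z) h
    have h3 : g⁻¹ (g z) = z := AlgEquiv.symm_apply_apply g z
    rwa [h3] at h1
  have hval : ∀ g : E ≃ₐ[k] E, g • P = P → ∀ z, (VP P hinj hpr).valuation (g z) =
      (VP P hinj hpr).valuation z := fun g hg z =>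
    val_eq_of_orbit (VP P hinj hpr) (g : E ≃+* E) (hV' g hg) z (finite_orbit g z)
  have hcongr : ∀ (g : E ≃ₐ[k] E) (N : ℕ), g • P = P →
      (∀ b : integralClosure A E, g • b - b ^ N ∈ P) → ∀ z, (VP P hinj hpr).valuation z ≤ 1 →
      (VP P hinj hpr).valuation (g z - z ^ N) < 1 := by
    intro g N hg hN z hz
    exact congr_val P hinj hpr (g : E →+* E) (fun b => g • b) (fun b => rfl) (hmem g hg) N hN hz
  refine ⟨φ, τ, ⟨?_, ?_, hval φ hφP, hval τ hτP, hcongr φ _ hφP hφ, ?_⟩, hτs⟩
  · exact Finite.one_lt_card
  · have h1 : algebraMap A (integralClosure A E) 2 ∉ P := by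
      intro h
      have h3 := (Ideal.mem_of_liesOver P (IsLocalRing.maximalIdeal A) 2).2 h
      rw [IsLocalRing.mem_maximalIdeal, mem_nonunits_iff] at h3
      exact h3 h2
    have h3 := val_eq_one P hinj hpr h1
    have h4 : algebraMap (integralClosure A E) E (algebraMap A (integralClosure A E) 2) = 2 := by
      rw [map_ofNat, map_ofNat]
    rwa [h4] at h3
  · intro z hz
    have h1 := hcongr τ 1 hτP (fun b => by rw [pow_one]; exact hτ b) z hz
    rwa [pow_one] at h1

end Pool.Agent.WMS
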