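import Mathlib
import Pool.Agent.Helper19.Sec.Fixed
import Pool.Agent.WMS.LocalV

/-!
Roots of a polynomial with separable reduction, and the square roots of the twisting constant, at a
given valuation ring `V` of `E` over `A` (from the proof of helper19).
-/

set_option autoImplicit false

namespace Pool.Agent.WMS

open Polynomial Pool.Agent.Helper36 Pool.Agent.Helper19.Sec IsLocalRing

section

variable {A k E : Type*} [CommRing A] [IsDomain A] [IsDiscreteValuationRing A]
    [Field k] [CharZero k] [Algebra A k] [IsFractionRing A k] [Field E] [Algebra k E]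
    [IsAlgClosure k E]

/-- a uniformizer has value less than one -/
lemma val_unif (ϖ : A) (hϖ : Irreducible ϖ) (V : ValuationSubring E)
    (hV : ∀ a : k, algebraMap k E a ∈ V ↔ ∃ b : A, algebraMap A k b = a) :
    V.valuation (algebraMap k E (algebraMap A k ϖ)) < 1 := by
  refine lt_of_le_of_ne ?_ ?_
  · rw [ValuationSubring.valuation_le_one_iff]
    exact (hV _).mpr ⟨ϖ, rfl⟩
  · intro h1
    have h2 : V.valuation (algebraMap k E (algebraMap A k ϖ)⁻¹) ≤ 1 := by
      rw [map_inv₀, map_inv₀, h1, inv_one]
    obtain ⟨b, hb⟩ := (hV _).mp ((V.valuation_le_one_iff _).mp h2)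
    have h3 : algebraMap A k ϖ ≠ 0 := by
      rw [Ne, map_eq_zero_iff _ (IsFractionRing.injective A k)]
      exact hϖ.ne_zero
    have h4 : ϖ * b = 1 := by
      apply IsFractionRing.injective A k
      rw [map_mul, hb, map_one, mul_inv_cancel₀ h3]
    exact hϖ.not_isUnit (IsUnit.of_mul_eq_one b h4)

/-- units have value one -/
lemma val_unit (V : ValuationSubring E)
    (hV : ∀ a : k, algebraMap k E a ∈ V ↔ ∃ b : A, algebraMap A k b = a) (a : A) (ha : IsUnit a) :
    V.valuation (algebraMap k E (algebraMap A k a)) = 1 := by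
  obtain ⟨u, rfl⟩ := ha
  have h1 : ∀ b : A, V.valuation (algebraMap k E (algebraMap A k b)) ≤ 1 := by
    intro b
    rw [ValuationSubring.valuation_le_one_iff]
    exact (hV _).mpr ⟨b, rfl⟩
  have h2 : V.valuation (algebraMap k E (algebraMap A k (u : A))) *
      V.valuation (algebraMap k E (algebraMap A k ((u⁻¹ : Aˣ) : A))) = 1 := by
    rw [← map_mul, ← map_mul, ← map_mul, Units.mul_inv, map_one, map_one, map_one]
  refine le_antisymm (h1 _) ?_
  rw [← h2]
  calc _ ≤ V.valuation (algebraMap k E (algebraMap A k (u : A))) * 1 := by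
        gcongr
        exact h1 _
    _ = _ := mul_one _

theorem roots_facts (V : ValuationSubring E)
    (hV : ∀ a : k, algebraMap k E a ∈ V ↔ ∃ b : A, algebraMap A k b = a)
    (f : A[X]) (hlead : IsUnit f.leadingCoeff) (hsep : (f.map (residue A)).Separable) :
    (f.map (algebraMap A k)).Separable ∧
    (∀ θ : E, aeval θ (f.map (algebraMap A k)) = 0 → V.valuation θ ≤ 1) ∧
    (∀ θ θ' : E, aeval θ (f.map (algebraMap A k)) = 0 → aeval θ' (f.map (algebraMap A k)) = 0 →
      θ ≠ θ' → V.valuation (θ - θ') = 1) := by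
  have hcl : IsAlgClosed E := IsAlgClosure.isAlgClosed k
  obtain ⟨ϖ, hϖ⟩ := IsDiscreteValuationRing.exists_irreducible A
  have hϖ1 := val_unif ϖ hϖ V hV
  -- the ring homomorphism `A → V`
  let jE : A →+* E := (algebraMap k E).comp (algebraMap A k)
  have hjE : ∀ z, jE z ∈ V := fun z => (hV _).mpr ⟨z, rfl⟩
  let jA : A →+* V := jE.codRestrict V.toSubring hjE
  have hjA : ∀ z, ((jA z : V) : E) = jE z := fun z => rfl
  have hjinj : Function.Injective jE :=
    (algebraMap k E).injective.comp (IsFractionRing.injective A k)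
  have hloc : IsLocalHom jA := by
    refine ⟨fun a ha => ?_⟩
    by_contra hna
    have h3 : a ∈ maximalIdeal A := (mem_maximalIdeal a).mpr hna
    rw [hϖ.maximalIdeal_eq, Ideal.mem_span_singleton] at h3
    obtain ⟨b, rfl⟩ := h3
    have h4 : V.valuation (jE (ϖ * b)) = 1 := by
      have := (V.valuation_eq_one_iff _).mp ha
      exact this
    rw [map_mul, map_mul] at h4
    have h5 : V.valuation (jE ϖ) * V.valuation (jE b) < 1 := by
      calc V.valuation (jE ϖ) * V.valuation (jE b) ≤ V.valuation (jE ϖ) * 1 := by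
            gcongr
            exact (V.valuation_le_one_iff _).mpr (hjE b)
        _ < 1 := by rw [mul_one]; exact hϖ1
    rw [h4] at h5
    exact lt_irrefl _ h5
  let j : ResidueField A →+* ResidueField V := ResidueField.map jA
  -- the polynomials
  set fk : k[X] := f.map (algebraMap A k) with hfk
  have hinjk : Function.Injective (algebraMap A k) := IsFractionRing.injective A k
  set fV : V[X] := f.map jA with hfV
  have hfVres : fV.map (residue V) = (f.map (residue A)).map j := by
    rw [hfV, Polynomial.map_map, Polynomial.map_map]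
    rfl
  have hsepV : (fV.map (residue V)).Separable := by
    rw [hfVres]
    exact hsep.map
  -- roots are integral
  have hroots : ∀ θ : E, aeval θ fk = 0 → ∃ z : V, (z : E) = θ ∧ fV.eval z = 0 := by
    intro θ hθ
    have h3 : eval₂ jE θ f = 0 := by
      rw [hfk, aeval_def, eval₂_map] at hθ
      exact hθ
    have h4 : IsIntegral V θ := by
      obtain ⟨ℓ, hℓ⟩ := hlead
      refine ⟨C (jA (ℓ⁻¹ : Aˣ)) * fV, ?_, ?_⟩
      · rw [Monic, leadingCoeff_mul, leadingCoeff_C, hfV,
          leadingCoeff_map_of_injective (show Function.Injective jA from fun a b h =>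
            hjinj (congrArg Subtype.val h)), ← hℓ, ← map_mul]
        simp
      · rw [eval₂_mul, hfV, eval₂_map]
        have : (algebraMap V E).comp jA = jE := RingHom.ext fun a => rfl
        rw [this, h3, mul_zero]
    obtain ⟨z, hz⟩ := IsIntegrallyClosed.isIntegral_iff.mp h4
    refine ⟨z, hz, ?_⟩
    apply Subtype.val_injective
    have h5 : algebraMap V E (fV.eval z) = eval₂ jE θ f := by
      rw [hfV, eval_map, hom_eval₂, hz]
      rfl
    exact h5.trans (h3.trans (map_zero (algebraMap V E)).symm)
  have hder : ∀ z : V, fV.eval z = 0 → (fV.map (residue V)).derivative.eval (residue V z) ≠ 0 := by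
    intro z hz h0
    have h3 : (fV.map (residue V)).eval (residue V z) = 0 := by
      rw [eval_map, eval₂_at_apply, hz, map_zero]
    have h4 := hsepV.eval₂_derivative_ne_zero (RingHom.id _) (x := residue V z)
      (by rw [eval₂_id]; exact h3)
    rw [eval₂_id] at h4
    exact h4 h0
  refine ⟨?_, ?_, ?_⟩
  · -- separability over `k`
    rw [← separable_map (algebraMap k E), Polynomial.Separable,
      Polynomial.isCoprime_iff_aeval_ne_zero_of_isAlgClosed E E]
    intro θ
    by_contra hc
    push Not at hc
    obtain ⟨h3, h4⟩ := hc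
    rw [coe_aeval_eq_eval, eval_map_algebraMap] at h3
    rw [coe_aeval_eq_eval, derivative_map, eval_map_algebraMap] at h4
    obtain ⟨z, hzθ, hz⟩ := hroots θ h3
    apply hder z hz
    have h5 : (derivative fV).eval z = 0 := by
      apply Subtype.val_injective
      have h6 : algebraMap V E ((derivative fV).eval z) = aeval θ (derivative fk) := by
        rw [hfV, derivative_map, eval_map, hom_eval₂, aeval_def, hfk, derivative_map, eval₂_map]
        rw [show algebraMap V E z = θ from hzθ]
        rfl
      exact h6.trans (h4.trans (map_zero (algebraMap V E)).symm)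
    rw [derivative_map, eval_map, eval₂_at_apply, h5, map_zero]
  · intro θ hθ
    obtain ⟨z, hzθ, -⟩ := hroots θ hθ
    rw [← hzθ]
    exact V.valuation_le_one z
  · intro θ θ' hθ hθ' hne
    obtain ⟨z, hzθ, hz⟩ := hroots θ hθ
    obtain ⟨z', hzθ', hz'⟩ := hroots θ' hθ'
    have h3 : V.valuation (θ - θ') ≤ 1 := by
      rw [← hzθ, ← hzθ']
      exact V.valuation_le_one (z - z')
    refine le_antisymm h3 ?_
    by_contra hlt
    push Not at hlt
    have h4 : residue V z = residue V z' := by
      rw [← sub_eq_zero, ← map_sub, residue_eq_zero_iff, ValuationSubring.valuation_lt_one_iff]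
      have : ((z - z' : V) : E) = θ - θ' := by
        rw [← hzθ, ← hzθ']
        rfl
      rw [this]
      exact hlt
    -- `fV = (X - z) * g`
    obtain ⟨g, hg⟩ : X - C z ∣ fV := dvd_iff_isRoot.mpr hz
    have h5 : g.eval z' = 0 := by
      have h6 := hz'
      rw [hg, eval_mul, eval_sub, eval_X, eval_C] at h6
      rcases mul_eq_zero.mp h6 with h7 | h7
      · exfalso
        apply hne
        rw [← hzθ, ← hzθ', sub_eq_zero.mp h7]
      · exact h7
    apply hder z hz
    rw [hg, Polynomial.map_mul, derivative_mul, eval_add, eval_mul, eval_mul]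
    have h8 : (g.map (residue V)).eval (residue V z) = 0 := by
      rw [h4, eval_map, eval₂_at_apply, h5, map_zero]
    rw [h8]
    simp

theorem tau_c (V : ValuationSubring E)
    (hV : ∀ a : k, algebraMap k E a ∈ V ↔ ∃ b : A, algebraMap A k b = a)
    {φ τ : E ≃ₐ[k] E} {q : ℕ} (hl : IsLoc V.valuation (φ : E →+* E) (τ : E →+* E) q)
    (f : A[X]) (hlead : IsUnit f.leadingCoeff) (ϖ : A) (hϖ : Irreducible ϖ) (u : A)
    (hu : IsUnit u) (n : ℕ) (hn : Odd n) (t : E) (ht : t ^ 2 = algebraMap k E (algebraMap A k ϖ))
    (hτt : τ t = - t) (w : E)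
    (hw : w ^ 2 = algebraMap k E
      (algebraMap A k (u * ϖ ^ n) / (f.map (algebraMap A k)).leadingCoeff)) : τ w = -w := by
  have hinjk : Function.Injective (algebraMap A k) := IsFractionRing.injective A k
  have hleadk : (f.map (algebraMap A k)).leadingCoeff = algebraMap A k f.leadingCoeff :=
    leadingCoeff_map_of_injective hinjk f
  let jE : A →+* E := (algebraMap k E).comp (algebraMap A k)
  have hjinj : Function.Injective jE :=
    (algebraMap k E).injective.comp (IsFractionRing.injective A k)
  have ht0 : t ≠ 0 := by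
    rintro rfl
    rw [zero_pow (by norm_num)] at ht
    exact hϖ.ne_zero (hjinj (ht.symm.trans (map_zero jE).symm))
  have hunit1 : ∀ a : A, IsUnit a → V.valuation (jE a) = 1 := val_unit V hV
  have h3 : w ^ 2 = jE u / jE f.leadingCoeff * (t ^ n) ^ 2 := by
    rw [hw, hleadk, map_div₀, ← pow_mul, mul_comm n 2, pow_mul, ht, map_mul, map_mul, map_pow,
      map_pow]
    show _ = algebraMap k _ (algebraMap A k u) / algebraMap k _ (algebraMap A k f.leadingCoeff) *
      algebraMap k _ (algebraMap A k ϖ) ^ n
    ring
  have htn : t ^ n ≠ 0 := pow_ne_zero _ ht0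
  have h4 : (w / t ^ n) ^ 2 = jE u / jE f.leadingCoeff := by
    rw [div_pow, h3, mul_div_assoc, div_self (pow_ne_zero 2 htn), mul_one]
  have h5 : V.valuation (w / t ^ n) = 1 := by
    have h6 : V.valuation (w / t ^ n) ^ 2 = 1 := by
      rw [← map_pow, h4, map_div₀, hunit1 u hu, hunit1 _ hlead, div_one]
    exact (pow_eq_one_iff_of_nonneg zero_le (by norm_num)).mp h6
  have h7 : τ (w / t ^ n) = w / t ^ n := by
    refine hl.fix_root 1 h5 ?_
    show τ ((w / t ^ n) ^ 2 ^ 1) = (w / t ^ n) ^ 2 ^ 1
    rw [pow_one, h4, map_div₀]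
    congr 1
    · exact τ.commutes _
    · exact τ.commutes _
  have h8 : w = w / t ^ n * t ^ n := by rw [div_mul_cancel₀ _ htn]
  rw [h8, map_mul, h7, map_pow, hτt, hn.neg_pow]
  ring

end

end Pool.Agent.WMS
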