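import Mathlib
import Pool.Agent.Helper19.Sec.Four

/-!
Signs of the inertia element on the square roots of `(u + v)(u + w)`: good sign patterns.
-/

set_option autoImplicit false

namespace Pool.Agent.WMS

open Polynomial Pool.Agent.Helper36 Pool.Agent.Helper19.Sec

section

variable {k E M : Type*} [Field k] [Field E] [Field M] [Algebra k E] [IsGalois k E]
  [CharZero E] {Γ₀ : Type*} [LinearOrderedCommGroupWithZero Γ₀]

omit [IsGalois k E] [CharZero E] in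
/-- the conjugation lemma -/
lemma conj_neg [IsGalois k E] (fr : Frame k E M) {v : Valuation E Γ₀} {φ τ : E ≃ₐ[k] E} {q : ℕ}
    (hl : IsLoc v (φ : E →+* E) (τ : E →+* E) q) (y : M) (hy0 : y ≠ 0)
    (F1 : IntermediateField k E) (hfin : FiniteDimensional k F1)
    (hF : ∀ σ ∈ F1.fixingSubgroup, fr.ρ σ (y ^ 2) = y ^ 2)
    (hτ : τ ∈ F1.fixingSubgroup) (hτ' : φ⁻¹ * τ * φ ∈ F1.fixingSubgroup)
    (hneg : fr.ρ τ y = - y) : fr.ρ τ (fr.ρ φ y) = - fr.ρ φ y := by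
  obtain ⟨F, hF1, hFfix⟩ := fr.cont y
  have hfin2 : FiniteDimensional k (F1 ⊔ F : IntermediateField k E) :=
    IntermediateField.finiteDimensional_sup _ _
  obtain ⟨b, hb0, hb⟩ := Pool.Agent.Helper36.descent (ρ := fr.ρ) fr.semilin F1
    (F1 ⊔ F) le_sup_left hy0 (by
      intro σ hσ
      apply hFfix
      rw [IntermediateField.mem_fixingSubgroup_iff] at hσ ⊢
      exact fun z hz => hσ z ((le_sup_right : F ≤ _ ⊔ F) hz)) (by
      intro σ hσ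
      have h1 : (fr.ρ σ y) ^ 2 = y ^ 2 := by
        rw [← map_pow, hF σ hσ]
      rcases sq_eq_sq_iff_eq_or_eq_neg.mp h1 with h2 | h2
      · exact ⟨1, by rw [map_one, one_mul, h2]⟩
      · exact ⟨-1, by rw [map_neg, map_one, h2]; ring⟩)
  have hb2 : ∀ σ ∈ F1.fixingSubgroup, σ (b ^ 2) = b ^ 2 := by
    intro σ hσ
    have h5 := hb σ hσ
    have h7 : fr.ρ σ ((fr.ι b * y) ^ 2) = (fr.ι b * y) ^ 2 := by rw [map_pow, h5]
    rw [mul_pow, map_mul, hF σ hσ, ← map_pow, fr.semilin] at h7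
    exact fr.ι.injective (mul_right_cancel₀ (pow_ne_zero 2 hy0) h7)
  have hτb : τ b = - b := by
    have h5 := hb τ hτ
    rw [map_mul, hneg, fr.semilin] at h5
    have h6 : fr.ι (τ b) * y = fr.ι (- b) * y := by
      rw [map_neg]
      linear_combination -h5
    exact fr.ι.injective (mul_right_cancel₀ hy0 h6)
  have hτφb2 : τ (φ (b ^ 2)) = φ (b ^ 2) := by
    have h5 := hb2 _ hτ'
    have h6 : φ ((φ⁻¹ * τ * φ) (b ^ 2)) = τ (φ (b ^ 2)) := by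
      show φ (φ⁻¹ (τ (φ (b ^ 2)))) = _
      exact φ.apply_symm_apply _
    rw [← h6, h5]
  have hU2 : τ (φ b / b) = φ b / b := by
    refine hl.fix_quot 1 hb0 ?_ ?_
    · show τ (b ^ 2 ^ 1) = b ^ 2 ^ 1
      rw [pow_one]
      exact hb2 τ hτ
    · show τ (φ (b ^ 2 ^ 1)) = φ (b ^ 2 ^ 1)
      rw [pow_one]
      exact hτφb2
  have hτφb : τ (φ b) = - φ b := by
    rw [map_div₀, hτb, div_neg, neg_eq_iff_eq_neg, ← neg_div] at hU2
    exact (div_left_inj' hb0).mp hU2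
  have h5 := hb _ hτ'
  have h6 : fr.ρ φ (fr.ρ (φ⁻¹ * τ * φ) (fr.ι b * y)) = fr.ρ τ (fr.ρ φ (fr.ι b * y)) := by
    have h7 : fr.ρ (φ⁻¹ * τ * φ) = (fr.ρ φ)⁻¹ * fr.ρ τ * fr.ρ φ := by
      rw [map_mul, map_mul, map_inv]
    rw [h7]
    exact (fr.ρ φ).apply_symm_apply _
  rw [h5, map_mul, map_mul, fr.semilin, fr.semilin, hτφb] at h6
  have hφb0 : fr.ι (φ b) ≠ 0 := by
    rw [_root_.map_ne_zero, _root_.map_ne_zero]
    exact hb0
  have h8 : fr.ι (φ b) * (fr.ρ τ (fr.ρ φ y)) = fr.ι (φ b) * (- fr.ρ φ y) := by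
    rw [map_neg] at h6
    linear_combination h6
  exact mul_left_cancel₀ hφb0 h8

/-- `(u, v, w)` is a good sign pattern: the inertia element changes the sign of the square roots
of `(u + v)(u + w)` and of `(v + u)(v + w)`. -/
def Good (fr : Frame k E M) (τ : E ≃ₐ[k] E) (u v w : M) : Prop :=
  (∀ y, y ^ 2 = (u + v) * (u + w) → fr.ρ τ y = - y) ∧
    (∀ y, y ^ 2 = (v + u) * (v + w) → fr.ρ τ y = - y)

omit [IsGalois k E] [CharZero E] in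
lemma Good.neg {fr : Frame k E M} {τ : E ≃ₐ[k] E} {u v w : M} (h : Good fr τ u v w) :
    Good fr τ (-u) (-v) (-w) := by
  refine ⟨fun y hy => h.1 y ?_, fun y hy => h.2 y ?_⟩
  · rw [hy]; ring
  · rw [hy]; ring

omit [IsGalois k E] [CharZero E] in
/-- comparing the signs of `τ` on two square roots -/
lemma sgn_change [IsAlgClosed E] (fr : Frame k E M) {v : Valuation E Γ₀} {φ τ : E ≃ₐ[k] E} {q : ℕ}
    (hl : IsLoc v (φ : E →+* E) (τ : E →+* E) q) (y y' t : M) (e : E) (ht : t ≠ 0)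
    (hve : v e = 1) (hτe : τ e = e) (h : y' ^ 2 * t ^ 2 = y ^ 2 * fr.ι e) (δ δ' : M)
    (hδ : fr.ρ τ y = δ * y) (hδ' : fr.ρ τ t = δ' * t) (hδδ : δ' * δ' = 1) :
    fr.ρ τ y' = δ * δ' * y' := by
  obtain ⟨ε, hε⟩ := IsAlgClosed.exists_pow_nat_eq e (n := 2) (by norm_num)
  have hvε : v ε = 1 := by
    have h5 : v ε ^ 2 = 1 := by rw [← map_pow, hε, hve]
    exact (pow_eq_one_iff_of_nonneg zero_le (by norm_num)).mp h5
  have hτε : τ ε = ε := by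
    refine hl.fix_root 1 hvε ?_
    show τ (ε ^ 2 ^ 1) = ε ^ 2 ^ 1
    rw [pow_one, hε, hτe]
  have h1 : (y' * t) ^ 2 = (y * fr.ι ε) ^ 2 := by
    rw [mul_pow, mul_pow, h, ← map_pow, hε]
  have hδ0 : δ' ≠ 0 := by
    rintro rfl
    rw [zero_mul] at hδδ
    exact zero_ne_one hδδ
  have h2 : ∀ z : M, z * t = y * fr.ι ε → fr.ρ τ z = δ * δ' * z := by
    intro z hz
    have h3 := congrArg (fr.ρ τ) hz
    rw [map_mul, map_mul, hδ, hδ', fr.semilin, hτε] at h3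
    have h4 : (δ' * t) * fr.ρ τ z = (δ' * t) * (δ * δ' * z) := by
      calc (δ' * t) * fr.ρ τ z = fr.ρ τ z * (δ' * t) := by ring
        _ = δ * y * fr.ι ε := h3
        _ = δ * (y * fr.ι ε) := by ring
        _ = δ * (z * t) := by rw [hz]
        _ = (δ' * δ') * (δ * (z * t)) := by rw [hδδ, one_mul]
        _ = (δ' * t) * (δ * δ' * z) := by ring
    exact mul_left_cancel₀ (mul_ne_zero hδ0 ht) h4
  rcases sq_eq_sq_iff_eq_or_eq_neg.mp h1 with h3 | h3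
  · exact h2 y' h3
  · have h4 := h2 (-y') (by rw [neg_mul, h3, neg_neg])
    rw [map_neg] at h4
    linear_combination -h4

/-- the data of a triple -/
structure Trip (fr : Frame k E M) (v : Valuation E Γ₀) (τ : E ≃ₐ[k] E) (u₁ u₂ u₃ : M) (p q : E) :
    Prop where
  hp : u₁ ^ 2 - u₂ ^ 2 = fr.ι p
  hq : u₁ ^ 2 - u₃ ^ 2 = fr.ι q
  vp : v p = 1
  vq : v q = 1
  vqp : v (q - p) = 1
  τp : τ p = p
  τq : τ q = q
  n1 : fr.ρ τ u₁ = - u₁
  n2 : fr.ρ τ u₂ = - u₂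
  n3 : fr.ρ τ u₃ = - u₃

namespace Trip

variable {fr : Frame k E M} {v : Valuation E Γ₀} {τ : E ≃ₐ[k] E} {u₁ u₂ u₃ : M} {p q : E}

omit [IsGalois k E] [CharZero E] in
lemma neg2 (T : Trip fr v τ u₁ u₂ u₃ p q) : Trip fr v τ u₁ (-u₂) u₃ p q :=
  ⟨by rw [neg_sq]; exact T.hp, T.hq, T.vp, T.vq, T.vqp, T.τp, T.τq, T.n1, by rw [map_neg, T.n2], T.n3⟩

omit [IsGalois k E] [CharZero E] in
lemma neg3 (T : Trip fr v τ u₁ u₂ u₃ p q) : Trip fr v τ u₁ u₂ (-u₃) p q :=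
  ⟨T.hp, by rw [neg_sq]; exact T.hq, T.vp, T.vq, T.vqp, T.τp, T.τq, T.n1, T.n2, by rw [map_neg, T.n3]⟩

omit [IsGalois k E] [CharZero E] in
lemma ι_ne (fr : Frame k E M) {e : E} (h : v e = 1) : fr.ι e ≠ 0 := by
  rw [_root_.map_ne_zero]
  rintro rfl
  rw [map_zero] at h
  exact zero_ne_one h

omit [IsGalois k E] [CharZero E] in
lemma a12 (T : Trip fr v τ u₁ u₂ u₃ p q) : u₁ + u₂ ≠ 0 := by
  intro h
  apply ι_ne fr T.vp
  rw [← T.hp]
  linear_combination (u₁ - u₂) * h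

omit [IsGalois k E] [CharZero E] in
lemma a13 (T : Trip fr v τ u₁ u₂ u₃ p q) : u₁ + u₃ ≠ 0 := by
  intro h
  apply ι_ne fr T.vq
  rw [← T.hq]
  linear_combination (u₁ - u₃) * h

omit [IsGalois k E] [CharZero E] in
lemma a23 (T : Trip fr v τ u₁ u₂ u₃ p q) : u₂ + u₃ ≠ 0 := by
  intro h
  apply ι_ne fr T.vqp
  rw [map_sub, ← T.hp, ← T.hq]
  linear_combination (u₂ - u₃) * h

omit [IsGalois k E] [CharZero E] in
lemma m23 (T : Trip fr v τ u₁ u₂ u₃ p q) : u₂ - u₃ ≠ 0 := by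
  have := T.neg3.a23
  rwa [← sub_eq_add_neg] at this

omit [IsGalois k E] [CharZero E] in
lemma τa12 (T : Trip fr v τ u₁ u₂ u₃ p q) : fr.ρ τ (u₁ + u₂) = (-1) * (u₁ + u₂) := by
  rw [map_add, T.n1, T.n2]; ring

omit [IsGalois k E] [CharZero E] in
lemma τa13 (T : Trip fr v τ u₁ u₂ u₃ p q) : fr.ρ τ (u₁ + u₃) = (-1) * (u₁ + u₃) := by
  rw [map_add, T.n1, T.n3]; ring

omit [IsGalois k E] [CharZero E] in
lemma τa23 (T : Trip fr v τ u₁ u₂ u₃ p q) : fr.ρ τ (u₂ + u₃) = (-1) * (u₂ + u₃) := by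
  rw [map_add, T.n2, T.n3]; ring

omit [IsGalois k E] [CharZero E] in
/-- the square roots are changed by a sign -/
lemma pm1 (T : Trip fr v τ u₁ u₂ u₃ p q) (y : M) (hy : y ^ 2 = (u₁ + u₂) * (u₁ + u₃)) :
    fr.ρ τ y = 1 * y ∨ fr.ρ τ y = (-1) * y := by
  rw [one_mul, neg_one_mul]
  apply sq_eq_sq_iff_eq_or_eq_neg.mp
  rw [← map_pow, hy, map_mul, T.τa12, T.τa13]
  ring

omit [IsGalois k E] [CharZero E] in
lemma pm2 (T : Trip fr v τ u₁ u₂ u₃ p q) (y : M) (hy : y ^ 2 = (u₂ + u₁) * (u₂ + u₃)) :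
    fr.ρ τ y = 1 * y ∨ fr.ρ τ y = (-1) * y := by
  rw [one_mul, neg_one_mul]
  apply sq_eq_sq_iff_eq_or_eq_neg.mp
  rw [← map_pow, hy, map_mul, add_comm u₂ u₁, T.τa12, T.τa23]
  ring

section changes

variable [IsAlgClosed E] {φ : E ≃ₐ[k] E} {n : ℕ}

omit [IsGalois k E] [CharZero E] in
/-- change of the sign of `u₃`, first square root -/
lemma c3_1 (T : Trip fr v τ u₁ u₂ u₃ p q) (hl : IsLoc v (φ : E →+* E) (τ : E →+* E) n) (y y' : M)
    (hy : y ^ 2 = (u₁ + u₂) * (u₁ + u₃)) (hy' : y' ^ 2 = (u₁ + u₂) * (u₁ + -u₃)) (δ : M)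
    (hδ : fr.ρ τ y = δ * y) : fr.ρ τ y' = δ * (-1) * y' := by
  refine sgn_change fr hl y y' (u₁ + u₃) q T.a13 T.vq T.τq ?_ δ (-1) hδ T.τa13 (by ring)
  rw [hy, hy', ← T.hq]
  ring

omit [IsGalois k E] [CharZero E] in
/-- change of the sign of `u₃`, second square root -/
lemma c3_2 (T : Trip fr v τ u₁ u₂ u₃ p q) (hl : IsLoc v (φ : E →+* E) (τ : E →+* E) n) (y y' : M)
    (hy : y ^ 2 = (u₂ + u₁) * (u₂ + u₃)) (hy' : y' ^ 2 = (u₂ + u₁) * (u₂ + -u₃)) (δ : M)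
    (hδ : fr.ρ τ y = δ * y) : fr.ρ τ y' = δ * (-1) * y' := by
  refine sgn_change fr hl y y' (u₂ + u₃) (q - p) T.a23 T.vqp (by rw [map_sub, T.τp, T.τq]) ?_ δ
    (-1) hδ T.τa23 (by ring)
  rw [hy, hy', map_sub, ← T.hq, ← T.hp]
  ring

omit [IsGalois k E] [CharZero E] in
/-- change of the sign of `u₂`, first square root -/
lemma c2_1 (T : Trip fr v τ u₁ u₂ u₃ p q) (hl : IsLoc v (φ : E →+* E) (τ : E →+* E) n) (y y' : M)
    (hy : y ^ 2 = (u₁ + u₂) * (u₁ + u₃)) (hy' : y' ^ 2 = (u₁ + -u₂) * (u₁ + u₃)) (δ : M)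
    (hδ : fr.ρ τ y = δ * y) : fr.ρ τ y' = δ * (-1) * y' := by
  refine sgn_change fr hl y y' (u₁ + u₂) p T.a12 T.vp T.τp ?_ δ (-1) hδ T.τa12 (by ring)
  rw [hy, hy', ← T.hp]
  ring

omit [IsGalois k E] [CharZero E] in
/-- change of the sign of `u₂`, second square root -/
lemma c2_2 (T : Trip fr v τ u₁ u₂ u₃ p q) (hl : IsLoc v (φ : E →+* E) (τ : E →+* E) n) (y y' : M)
    (hy : y ^ 2 = (u₂ + u₁) * (u₂ + u₃)) (hy' : y' ^ 2 = (-u₂ + u₁) * (-u₂ + u₃)) (δ : M)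
    (hδ : fr.ρ τ y = δ * y) : fr.ρ τ y' = δ * 1 * y' := by
  have ht : (u₁ + u₂) * (u₂ + u₃) ≠ 0 := mul_ne_zero T.a12 T.a23
  have hτt : fr.ρ τ ((u₁ + u₂) * (u₂ + u₃)) = 1 * ((u₁ + u₂) * (u₂ + u₃)) := by
    rw [map_mul, T.τa12, T.τa23]; ring
  refine sgn_change fr hl y y' ((u₁ + u₂) * (u₂ + u₃)) (-(p * (q - p))) ht ?_ ?_ ?_ δ 1 hδ hτt
    (by ring)
  · rw [Valuation.map_neg, map_mul, T.vp, T.vqp, one_mul]
  · rw [map_neg, map_mul, map_sub, T.τp, T.τq]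
  · rw [hy, hy', map_neg, map_mul, map_sub, ← T.hq, ← T.hp]
    ring

end changes

end Trip

end

end Pool.Agent.WMS
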