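import Mathlib
import Pool.Agent.WMS.Signs

/-!
Existence, uniqueness and transport of good sign patterns.
-/

set_option autoImplicit false

namespace Pool.Agent.WMS

open Polynomial Pool.Agent.Helper36 Pool.Agent.Helper19.Sec

section

variable {k E M : Type*} [Field k] [Field E] [Field M] [Algebra k E]
  [IsAlgClosed E] {Γ₀ : Type*} [LinearOrderedCommGroupWithZero Γ₀]
  {fr : Frame k E M} {v : Valuation E Γ₀} {τ φ : E ≃ₐ[k] E} {u₁ u₂ u₃ : M} {p q : E} {n : ℕ}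

namespace Trip

/-- existence of a good pattern -/
lemma exists_good (h2 : (2 : M) ≠ 0) (T : Trip fr v τ u₁ u₂ u₃ p q)
    (hl : IsLoc v (φ : E →+* E) (τ : E →+* E) n)
    (y₁ y₂ : M) (hy₁ : y₁ ^ 2 = (u₁ + u₂) * (u₁ + u₃)) (hy₂ : y₂ ^ 2 = (u₂ + u₁) * (u₂ + u₃)) :
    ∃ w₂ w₃ : M, (w₂ = u₂ ∨ w₂ = -u₂) ∧ (w₃ = u₃ ∨ w₃ = -u₃) ∧ Good fr τ u₁ w₂ w₃ := by
  -- if one square root has sign δ then all have
  have same : ∀ {h y : M} {δ : M}, y ^ 2 = h → fr.ρ τ y = δ * y → ∀ z, z ^ 2 = h →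
      fr.ρ τ z = δ * z := by
    intro h y δ hy hδ z hz
    rcases sq_eq_sq_iff_eq_or_eq_neg.mp (hz.trans hy.symm) with h3 | h3
    · rw [h3, hδ]
    · rw [h3, map_neg, hδ]; ring
  rcases T.pm1 y₁ hy₁ with s1 | s1 <;> rcases T.pm2 y₂ hy₂ with s2 | s2
  · -- (+, +): change u₃
    refine ⟨u₂, -u₃, Or.inl rfl, Or.inr rfl, ?_, ?_⟩
    · intro y hy
      have := T.c3_1 hl y₁ y hy₁ hy 1 s1
      rw [this]; ring
    · intro y hy
      have := T.c3_2 hl y₂ y hy₂ hy 1 s2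
      rw [this]; ring
  · -- (+, -): change u₂
    refine ⟨-u₂, u₃, Or.inr rfl, Or.inl rfl, ?_, ?_⟩
    · intro y hy
      have := T.c2_1 hl y₁ y hy₁ hy 1 s1
      rw [this]; ring
    · intro y hy
      have := T.c2_2 hl y₂ y hy₂ hy (-1) s2
      rw [this]; ring
  · -- (-, +): change both
    -- square roots for the pattern with `u₃` changed
    obtain ⟨ε, hε⟩ := IsAlgClosed.exists_pow_nat_eq q (n := 2) (by norm_num)
    obtain ⟨ε', hε'⟩ := IsAlgClosed.exists_pow_nat_eq (q - p) (n := 2) (by norm_num)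
    have h13 := T.a13
    have h23 := T.a23
    have hy3 : (y₁ * fr.ι ε / (u₁ + u₃)) ^ 2 = (u₁ + u₂) * (u₁ + -u₃) := by
      rw [div_pow, mul_pow, hy₁, ← map_pow, hε, ← T.hq]
      field_simp
      ring
    have hy4 : (y₂ * fr.ι ε' / (u₂ + u₃)) ^ 2 = (u₂ + u₁) * (u₂ + -u₃) := by
      rw [div_pow, mul_pow, hy₂, ← map_pow, hε', map_sub, ← T.hq, ← T.hp]
      field_simp
      ring
    have s3 := T.c3_1 hl y₁ _ hy₁ hy3 (-1) s1
    have s4 := T.c3_2 hl y₂ _ hy₂ hy4 1 s2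
    refine ⟨-u₂, -u₃, Or.inr rfl, Or.inr rfl, ?_, ?_⟩
    · intro y hy
      have := T.neg3.c2_1 hl _ y hy3 hy _ s3
      rw [this]; ring
    · intro y hy
      have := T.neg3.c2_2 hl _ y hy4 hy _ s4
      rw [this]; ring
  · refine ⟨u₂, u₃, Or.inl rfl, Or.inl rfl, ?_, ?_⟩
    · intro y hy
      rw [same hy₁ s1 y hy]; ring
    · intro y hy
      rw [same hy₂ s2 y hy]; ring

/-- uniqueness of the good pattern -/
lemma good_unique (h2 : (2 : M) ≠ 0) (T : Trip fr v τ u₁ u₂ u₃ p q)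
    (hl : IsLoc v (φ : E →+* E) (τ : E →+* E) n)
    (y₁ y₂ : M) (hy₁ : y₁ ^ 2 = (u₁ + u₂) * (u₁ + u₃)) (hy₂ : y₂ ^ 2 = (u₂ + u₁) * (u₂ + u₃))
    (G : Good fr τ u₁ u₂ u₃) (w₂ w₃ : M) (hw₂ : w₂ = u₂ ∨ w₂ = -u₂) (hw₃ : w₃ = u₃ ∨ w₃ = -u₃)
    (G' : Good fr τ u₁ w₂ w₃) : w₂ = u₂ ∧ w₃ = u₃ := by
  have s1 : fr.ρ τ y₁ = (-1) * y₁ := by rw [G.1 y₁ hy₁]; ring
  have s2 : fr.ρ τ y₂ = (-1) * y₂ := by rw [G.2 y₂ hy₂]; ring
  have contr : ∀ {z : M}, z ≠ 0 → fr.ρ τ z = z → fr.ρ τ z = -z → False := by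
    intro z hz h3 h4
    rw [h3] at h4
    have h5 : (2 : M) * z = 0 := by linear_combination h4
    rcases mul_eq_zero.mp h5 with h6 | h6
    · exact h2 h6
    · exact hz h6
  have nz : ∀ {z a b : M}, z ^ 2 = a * b → a ≠ 0 → b ≠ 0 → z ≠ 0 := by
    rintro z a b h ha hb rfl
    rw [zero_pow (by norm_num)] at h
    exact mul_ne_zero ha hb h.symm
  obtain ⟨ε, hε⟩ := IsAlgClosed.exists_pow_nat_eq q (n := 2) (by norm_num)
  obtain ⟨ε', hε'⟩ := IsAlgClosed.exists_pow_nat_eq (q - p) (n := 2) (by norm_num)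
  obtain ⟨ε'', hε''⟩ := IsAlgClosed.exists_pow_nat_eq p (n := 2) (by norm_num)
  have h13 := T.a13
  have h23 := T.a23
  have h12 := T.a12
  have hy3 : (y₁ * fr.ι ε / (u₁ + u₃)) ^ 2 = (u₁ + u₂) * (u₁ + -u₃) := by
    rw [div_pow, mul_pow, hy₁, ← map_pow, hε, ← T.hq]
    field_simp
    ring
  have hy4 : (y₂ * fr.ι ε' / (u₂ + u₃)) ^ 2 = (u₂ + u₁) * (u₂ + -u₃) := by
    rw [div_pow, mul_pow, hy₂, ← map_pow, hε', map_sub, ← T.hq, ← T.hp]
    field_simp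
    ring
  have hy5 : (y₁ * fr.ι ε'' / (u₁ + u₂)) ^ 2 = (u₁ + -u₂) * (u₁ + u₃) := by
    rw [div_pow, mul_pow, hy₁, ← map_pow, hε'', ← T.hp]
    field_simp
    ring
  rcases hw₂ with rfl | rfl <;> rcases hw₃ with rfl | rfl
  · exact ⟨rfl, rfl⟩
  · exfalso
    have s3 := T.c3_1 hl y₁ _ hy₁ hy3 (-1) s1
    rw [neg_one_mul, neg_neg, one_mul] at s3
    exact contr (nz hy3 T.a12 T.neg3.a13) s3 (G'.1 _ hy3)
  · exfalso
    have s3 := T.c2_1 hl y₁ _ hy₁ hy5 (-1) s1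
    rw [neg_one_mul, neg_neg, one_mul] at s3
    exact contr (nz hy5 T.neg2.a12 T.a13) s3 (G'.1 _ hy5)
  · exfalso
    have s4 := T.c3_2 hl y₂ _ hy₂ hy4 (-1) s2
    obtain ⟨ε3, hε3⟩ := IsAlgClosed.exists_pow_nat_eq (-(p * (q - p))) (n := 2) (by norm_num)
    have hy6 : (fr.ι ε3 * (y₂ * fr.ι ε' / (u₂ + u₃)) / ((u₁ + u₂) * (u₂ + -u₃))) ^ 2 =
        (-u₂ + u₁) * (-u₂ + -u₃) := by
      have h23' := T.neg3.a23
      rw [div_pow, mul_pow, hy4, ← map_pow, hε3, map_neg, map_mul, map_sub, ← T.hq, ← T.hp]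
      field_simp
      ring
    have s5 := T.neg3.c2_2 hl _ _ hy4 hy6 _ s4
    have h7 : (-1 : M) * (-1) * 1 = 1 := by ring
    rw [h7, one_mul] at s5
    refine contr (nz hy6 ?_ ?_) s5 (G'.2 _ hy6)
    · have := T.neg2.a12
      rwa [add_comm] at this
    · have := T.a23
      intro h0
      apply this
      linear_combination -h0

end Trip

end

section transport

variable {k E M : Type*} [Field k] [Field E] [Field M] [Algebra k E] [IsGalois k E]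
  {Γ₀ : Type*} [LinearOrderedCommGroupWithZero Γ₀]

/-- the field of definition of the sign pattern -/
lemma exists_field (fr : Frame k E M) (S : Finset E) (u : Fin 3 → M) (hu0 : ∀ i, u i ≠ 0)
    (hS : ∀ σ : E ≃ₐ[k] E, (∀ z ∈ S, σ z = z) → ∀ i, fr.ρ σ (u i ^ 2) = u i ^ 2) :
    ∃ F1 : IntermediateField k E, FiniteDimensional k F1 ∧
      (∀ σ ∈ F1.fixingSubgroup, ∀ i j, fr.ρ σ (u i * u j) = u i * u j) ∧
      (∀ σ : E ≃ₐ[k] E, (∀ z ∈ S, σ z = z) → (∀ i j, fr.ρ σ (u i * u j) = u i * u j) →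
        σ ∈ F1.fixingSubgroup) := by
  classical
  let F0 : IntermediateField k E := IntermediateField.adjoin k (S : Set E)
  have hF0 : FiniteDimensional k F0 :=
    IntermediateField.finiteDimensional_adjoin fun z _ =>
      (Algebra.IsAlgebraic.isAlgebraic z).isIntegral
  have hF0S : ∀ σ ∈ F0.fixingSubgroup, ∀ z ∈ S, σ z = z := by
    intro σ hσ z hz
    exact (mem_fixing_adjoin σ _).mp hσ z (Finset.mem_coe.mpr hz)
  have hb : ∀ i, ∃ b : E, b ≠ 0 ∧ ∀ σ ∈ F0.fixingSubgroup, fr.ρ σ (fr.ι b * u i) =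
      fr.ι b * u i := by
    intro i
    obtain ⟨F, hF, hFfix⟩ := fr.cont (u i)
    have hfin2 : FiniteDimensional k (F0 ⊔ F : IntermediateField k E) :=
      IntermediateField.finiteDimensional_sup _ _
    exact Pool.Agent.Helper36.descent (ρ := fr.ρ) fr.semilin F0
      (F0 ⊔ F) le_sup_left (hu0 i) (by
        intro σ hσ
        apply hFfix
        rw [IntermediateField.mem_fixingSubgroup_iff] at hσ ⊢
        exact fun z hz => hσ z ((le_sup_right : F ≤ _ ⊔ F) hz)) (by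
        intro σ hσ
        have h1 : (fr.ρ σ (u i)) ^ 2 = (u i) ^ 2 := by
          rw [← map_pow, hS σ (hF0S σ hσ) i]
        rcases sq_eq_sq_iff_eq_or_eq_neg.mp h1 with h2 | h2
        · exact ⟨1, by rw [map_one, one_mul, h2]⟩
        · exact ⟨-1, by rw [map_neg, map_one, h2]; ring⟩)
  choose b hb0 hbfix using hb
  let S1 : Finset E := Finset.univ.image (fun ij : Fin 3 × Fin 3 => b ij.1 * b ij.2)
  let F2 : IntermediateField k E := IntermediateField.adjoin k (S1 : Set E)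
  have hF2 : FiniteDimensional k F2 :=
    IntermediateField.finiteDimensional_adjoin fun z _ =>
      (Algebra.IsAlgebraic.isAlgebraic z).isIntegral
  refine ⟨F0 ⊔ F2, IntermediateField.finiteDimensional_sup _ _, ?_, ?_⟩
  · intro σ hσ i j
    rw [IntermediateField.fixingSubgroup_sup] at hσ
    have h0 := hσ.1
    have h1 : σ (b i * b j) = b i * b j := by
      refine (mem_fixing_adjoin σ _).mp hσ.2 _ ?_
      rw [Finset.mem_coe, Finset.mem_image]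
      exact ⟨(i, j), Finset.mem_univ _, rfl⟩
    have h2 := hbfix i σ h0
    have h3 := hbfix j σ h0
    have h4 : fr.ρ σ (fr.ι (b i * b j) * (u i * u j)) = fr.ι (b i * b j) * (u i * u j) := by
      have h5 : fr.ι (b i * b j) * (u i * u j) = (fr.ι (b i) * u i) * (fr.ι (b j) * u j) := by
        rw [map_mul]; ring
      rw [h5, map_mul, h2, h3]
    rw [map_mul, fr.semilin, h1] at h4
    refine mul_left_cancel₀ ?_ h4
    rw [_root_.map_ne_zero]
    exact mul_ne_zero (hb0 i) (hb0 j)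
  · intro σ hσS hσ
    rw [IntermediateField.fixingSubgroup_sup]
    have h0 : σ ∈ F0.fixingSubgroup := by
      rw [mem_fixing_adjoin]
      intro z hz
      exact hσS z (Finset.mem_coe.mp hz)
    refine ⟨h0, ?_⟩
    show σ ∈ F2.fixingSubgroup
    rw [mem_fixing_adjoin]
    intro z hz
    rw [Finset.mem_coe, Finset.mem_image] at hz
    obtain ⟨⟨i, j⟩, -, rfl⟩ := hz
    have h2 := hbfix i σ h0
    have h3 := hbfix j σ h0
    have h4 : fr.ρ σ (fr.ι (b i * b j) * (u i * u j)) = fr.ι (b i * b j) * (u i * u j) := by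
      have h5 : fr.ι (b i * b j) * (u i * u j) = (fr.ι (b i) * u i) * (fr.ι (b j) * u j) := by
        rw [map_mul]; ring
      rw [h5, map_mul, h2, h3]
    rw [map_mul, fr.semilin, hσ i j] at h4
    exact fr.ι.injective (mul_right_cancel₀ (mul_ne_zero (hu0 i) (hu0 j)) h4)

/-- transport of good patterns by the Frobenius lift -/
lemma good_transport (fr : Frame k E M) {v : Valuation E Γ₀} {φ τ : E ≃ₐ[k] E} {q : ℕ}
    (hl : IsLoc v (φ : E →+* E) (τ : E →+* E) q) (S : Finset E)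
    (hτS : ∀ z ∈ S, τ z = z) (hτφS : ∀ z ∈ S, τ (φ z) = φ z) (u : Fin 3 → M)
    (hu0 : ∀ i, u i ≠ 0)
    (hS : ∀ σ : E ≃ₐ[k] E, (∀ z ∈ S, σ z = z) → ∀ i, fr.ρ σ (u i ^ 2) = u i ^ 2)
    (hn : ∀ i, fr.ρ τ (u i) = - u i) (hn' : ∀ i, fr.ρ τ (fr.ρ φ (u i)) = - fr.ρ φ (u i))
    (h01 : u 0 + u 1 ≠ 0) (h02 : u 0 + u 2 ≠ 0) (h12 : u 1 + u 2 ≠ 0)
    (y₁ y₂ : M) (hy₁ : y₁ ^ 2 = (u 0 + u 1) * (u 0 + u 2))
    (hy₂ : y₂ ^ 2 = (u 1 + u 0) * (u 1 + u 2)) (G : Good fr τ (u 0) (u 1) (u 2)) :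
    Good fr τ (fr.ρ φ (u 0)) (fr.ρ φ (u 1)) (fr.ρ φ (u 2)) := by
  obtain ⟨F1, hfin, hF1, hF2⟩ := exists_field fr S u hu0 hS
  have hτF : τ ∈ F1.fixingSubgroup := by
    refine hF2 τ hτS ?_
    intro i j
    rw [map_mul, hn i, hn j]; ring
  have hτ'F : φ⁻¹ * τ * φ ∈ F1.fixingSubgroup := by
    refine hF2 _ ?_ ?_
    · intro z hz
      show φ⁻¹ (τ (φ z)) = z
      rw [hτφS z hz]
      exact φ.symm_apply_apply z
    · intro i j
      have h7 : fr.ρ (φ⁻¹ * τ * φ) = (fr.ρ φ)⁻¹ * fr.ρ τ * fr.ρ φ := by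
        rw [map_mul, map_mul, map_inv]
      have h8 : ∀ i, fr.ρ (φ⁻¹ * τ * φ) (u i) = - u i := by
        intro i
        rw [h7]
        show (fr.ρ φ).symm (fr.ρ τ (fr.ρ φ (u i))) = - u i
        rw [hn' i, map_neg]
        congr 1
        exact (fr.ρ φ).symm_apply_apply _
      rw [map_mul, h8 i, h8 j]; ring
  have hprod : ∀ i j l, ∀ σ ∈ F1.fixingSubgroup,
      fr.ρ σ ((u i + u j) * (u i + u l)) = (u i + u j) * (u i + u l) := by
    intro i j l σ hσ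
    have h9 : (u i + u j) * (u i + u l) = u i * u i + u i * u l + u j * u i + u j * u l := by ring
    rw [h9, map_add, map_add, map_add, hF1 σ hσ, hF1 σ hσ, hF1 σ hσ, hF1 σ hσ]
  have h10 : u 1 + u 0 ≠ 0 := by rwa [add_comm]
  have ny1 : y₁ ≠ 0 := by
    rintro rfl
    rw [zero_pow (by norm_num)] at hy₁
    exact mul_ne_zero h01 h02 hy₁.symm
  have ny2 : y₂ ≠ 0 := by
    rintro rfl
    rw [zero_pow (by norm_num)] at hy₂
    exact mul_ne_zero h10 h12 hy₂.symm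
  have k1 := conj_neg fr hl y₁ ny1 F1 hfin (by
    intro σ hσ
    rw [hy₁]; exact hprod 0 1 2 σ hσ) hτF hτ'F (G.1 y₁ hy₁)
  have k2 := conj_neg fr hl y₂ ny2 F1 hfin (by
    intro σ hσ
    rw [hy₂]; exact hprod 1 0 2 σ hσ) hτF hτ'F (G.2 y₂ hy₂)
  constructor
  · intro y hy
    have h1 : y ^ 2 = (fr.ρ φ y₁) ^ 2 := by
      rw [hy, ← map_pow, hy₁, map_mul, map_add, map_add]
    rcases sq_eq_sq_iff_eq_or_eq_neg.mp h1 with h | h
    · rw [h, k1]
    · rw [h, map_neg, k1]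
  · intro y hy
    have h1 : y ^ 2 = (fr.ρ φ y₂) ^ 2 := by
      rw [hy, ← map_pow, hy₂, map_mul, map_add, map_add]
    rcases sq_eq_sq_iff_eq_or_eq_neg.mp h1 with h | h
    · rw [h, k2]
    · rw [h, map_neg, k2]

end transport

end Pool.Agent.WMS
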