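import Mathlib

/-!
The extension generated by the roots of a polynomial with separable reduction has the same
value group (finite residue field).
-/

set_option autoImplicit false

namespace Pool.Agent.WMS

open Polynomial

section

variable {A : Type*} [CommRing A] [IsDomain A] [IsDiscreteValuationRing A]
    [Finite (IsLocalRing.ResidueField A)]

/-- a separable polynomial over a finite field divides some `X ^ N - X` -/
lemma exists_dvd_pow_sub {κ : Type*} [Field κ] [Finite κ] (g : κ[X]) (hg : g.Separable) (p : ℕ)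
    [CharP κ p] [Fact p.Prime] : ∃ e : ℕ, 0 < e ∧ g ∣ X ^ (p ^ e) - X ∧
      ∀ a : κ, a ^ (p ^ e) = a := by
  classical
  have := Fintype.ofFinite κ
  let L := g.SplittingField
  have hfinL : Finite L := Module.finite_of_finite κ
  have := Fintype.ofFinite L
  have hcharL : CharP L p := charP_of_injective_algebraMap (algebraMap κ L).injective p
  obtain ⟨e, -, he⟩ := FiniteField.card L p
  refine ⟨e, e.pos, ?_, ?_⟩
  swap
  · intro a
    apply (algebraMap κ L).injective
    rw [map_pow, ← he, FiniteField.pow_card]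
  have h1 : (X ^ (p ^ (e : ℕ)) - X : κ[X]).map (algebraMap κ L) = X ^ (p ^ (e : ℕ)) - X := by
    simp
  rw [← Polynomial.map_dvd_map' (algebraMap κ L), h1]
  have hsplits : (g.map (algebraMap κ L)).Splits := SplittingField.splits g
  have hnodup : (g.map (algebraMap κ L)).roots.Nodup := nodup_roots hg.map
  have h2 := hsplits.eq_prod_roots
  have hg0 : g ≠ 0 := hg.ne_zero
  have hlead : IsUnit (C (g.map (algebraMap κ L)).leadingCoeff) := by
    rw [isUnit_C, isUnit_iff_ne_zero, Ne, leadingCoeff_eq_zero]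
    exact Polynomial.map_ne_zero hg0
  rw [h2, hlead.mul_left_dvd]
  have hne : (X ^ (p ^ (e : ℕ)) - X : L[X]) ≠ 0 :=
    FiniteField.X_pow_card_sub_X_ne_zero L (by
      rw [← he]
      exact Fintype.one_lt_card)
  rw [Multiset.prod_X_sub_C_dvd_iff_le_roots hne, Multiset.le_iff_subset hnodup]
  intro a _
  rw [mem_roots hne, IsRoot.def, eval_sub, eval_pow, eval_X, ← he, FiniteField.pow_card, sub_self]

/-- there is `N = p ^ e` with `X ^ N - X` in the ideal generated by `f` and `ϖ` -/
lemma exists_pow_rel (ϖ : A) (hϖ : Irreducible ϖ) (f : A[X])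
    (hsep : (f.map (IsLocalRing.residue A)).Separable) :
    ∃ (p e : ℕ) (g h : A[X]), p.Prime ∧ 0 < e ∧ (∃ c : A, (p : A) = ϖ * c) ∧
      (∀ a : A, ∃ m, a ^ (p ^ e) - a = ϖ * m) ∧ X ^ (p ^ e) - X = f * g + C ϖ * h := by
  classical
  have hfin : Finite (IsLocalRing.ResidueField A) := inferInstance
  obtain ⟨p, hp⟩ := CharP.exists (IsLocalRing.ResidueField A)
  have hprime : p.Prime := CharP.char_is_prime (IsLocalRing.ResidueField A) p
  have : Fact p.Prime := ⟨hprime⟩
  have hker : ∀ a : A, IsLocalRing.residue A a = 0 → ∃ c, a = ϖ * c := by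
    intro a ha
    rw [IsLocalRing.residue_eq_zero_iff, hϖ.maximalIdeal_eq, Ideal.mem_span_singleton] at ha
    exact ha
  obtain ⟨e, he, ⟨g', hg'⟩, hpow⟩ := exists_dvd_pow_sub (f.map (IsLocalRing.residue A)) hsep p
  obtain ⟨g, hg⟩ := Polynomial.map_surjective (IsLocalRing.residue A) IsLocalRing.residue_surjective
    g'
  have h1 : (X ^ (p ^ e) - X - f * g : A[X]).map (IsLocalRing.residue A) = 0 := by
    rw [Polynomial.map_sub, Polynomial.map_mul, hg, ← hg']
    simp
  have h2 : C ϖ ∣ (X ^ (p ^ e) - X - f * g : A[X]) := by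
    rw [C_dvd_iff_dvd_coeff]
    intro i
    have h3 : IsLocalRing.residue A ((X ^ (p ^ e) - X - f * g : A[X]).coeff i) = 0 := by
      rw [← coeff_map, h1, coeff_zero]
    obtain ⟨c, hc⟩ := hker _ h3
    exact ⟨c, hc⟩
  obtain ⟨h, hh⟩ := h2
  refine ⟨p, e, g, h, hprime, he, ?_, ?_, ?_⟩
  · exact hker _ (by rw [map_natCast, CharP.cast_eq_zero])
  · intro a
    exact hker _ (by rw [map_sub, map_pow, hpow, sub_self])
  · rw [← hh]; ring

end

section

variable {A k E : Type*} [CommRing A] [IsDomain A] [IsDiscreteValuationRing A]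
    [Finite (IsLocalRing.ResidueField A)]
    [Field k] [CharZero k] [Algebra A k] [IsFractionRing A k] [Field E] [Algebra k E]
    [Algebra.IsAlgebraic k E]

/-- the subring generated by `A` and the roots; its elements satisfy `r ^ N - r ∈ ϖ O` -/
theorem val_unram (V : ValuationSubring E)
    (hV : ∀ a : k, algebraMap k E a ∈ V ↔ ∃ b : A, algebraMap A k b = a)
    (ϖ : A) (hϖ : Irreducible ϖ) (f : A[X]) (hlead : IsUnit f.leadingCoeff)
    (hsep : (f.map (IsLocalRing.residue A)).Separable) (z : E)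
    (hz : z ∈ IntermediateField.adjoin k {θ : E | aeval θ (f.map (algebraMap A k)) = 0})
    (hz0 : z ≠ 0) :
    ∃ j : ℤ, V.valuation z = V.valuation (algebraMap k E (algebraMap A k ϖ)) ^ j := by
  classical
  let jE : A →+* E := (algebraMap k E).comp (algebraMap A k)
  have hjinj : Function.Injective jE :=
    (algebraMap k E).injective.comp (IsFractionRing.injective A k)
  have hjV : ∀ a, jE a ∈ V := fun a => (hV _).mpr ⟨a, rfl⟩
  let S : Set E := {θ : E | aeval θ (f.map (algebraMap A k)) = 0}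
  have hS : ∀ θ ∈ S, eval₂ jE θ f = 0 := by
    intro θ hθ
    have h1 : aeval θ (f.map (algebraMap A k)) = 0 := hθ
    rw [aeval_def, eval₂_map] at h1
    exact h1
  let O : Subring E := Subring.closure (Set.range jE ∪ S)
  have hAO : ∀ a, jE a ∈ O := fun a => Subring.subset_closure (Or.inl ⟨a, rfl⟩)
  have hSO : ∀ θ ∈ S, θ ∈ O := fun θ hθ => Subring.subset_closure (Or.inr hθ)
  -- `O ⊆ V`
  have hSV : ∀ θ ∈ S, θ ∈ V := by
    intro θ hθ
    let jA : A →+* V := jE.codRestrict V.toSubring hjV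
    have h4 : IsIntegral V θ := by
      obtain ⟨ℓ, hℓ⟩ := hlead
      refine ⟨C (jA (ℓ⁻¹ : Aˣ)) * f.map jA, ?_, ?_⟩
      · rw [Monic, leadingCoeff_mul, leadingCoeff_C,
          leadingCoeff_map_of_injective (show Function.Injective jA from fun a b h =>
            hjinj (congrArg Subtype.val h)), ← hℓ, ← map_mul]
        simp
      · rw [eval₂_mul, eval₂_map]
        have : (algebraMap V E).comp jA = jE := RingHom.ext fun a => rfl
        rw [this, hS θ hθ, mul_zero]
    obtain ⟨w, hw⟩ := IsIntegrallyClosed.isIntegral_iff.mp h4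
    rw [← hw]
    exact w.2
  have hOV : ∀ a ∈ O, V.valuation a ≤ 1 := by
    have hle : O ≤ V.toSubring := by
      rw [Subring.closure_le]
      rintro a (⟨b, rfl⟩ | ha)
      · exact hjV b
      · exact hSV a ha
    intro a ha
    exact (V.valuation_le_one_iff a).mpr (hle ha)
  -- the relation
  obtain ⟨p, e, g, h, hp, he, ⟨c, hc⟩, hAm, hrel⟩ := exists_pow_rel ϖ hϖ f hsep
  have : Fact p.Prime := ⟨hp⟩
  have hfrob : ∀ a ∈ O, ∃ a' ∈ O, a ^ (p ^ e) - a = jE ϖ * a' := by
    intro a ha
    induction ha using Subring.closure_induction with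
    | mem x hx =>
      rcases hx with ⟨b, rfl⟩ | hx
      · -- elements of `A`
        obtain ⟨m, hm⟩ := hAm b
        exact ⟨jE m, hAO m, by rw [← map_pow, ← map_sub, hm, map_mul]⟩
      · have h1 : x ^ (p ^ e) - x = jE ϖ * eval₂ jE x h := by
          have h2 := congrArg (eval₂ jE x) hrel
          rw [eval₂_sub, eval₂_pow, eval₂_X, eval₂_add, eval₂_mul, eval₂_mul, hS x hx, zero_mul,
            zero_add, eval₂_C] at h2
          exact h2
        refine ⟨eval₂ jE x h, ?_, h1⟩
        rw [eval₂_eq_sum_range]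
        exact O.sum_mem fun i _ => O.mul_mem (hAO _) (O.pow_mem (hSO x hx) i)
    | zero => exact ⟨0, O.zero_mem, by rw [zero_pow (pow_ne_zero _ hp.ne_zero)]; ring⟩
    | one => exact ⟨0, O.zero_mem, by rw [one_pow]; ring⟩
    | add x y hx hy ihx ihy =>
      obtain ⟨x', hx', hxe⟩ := ihx
      obtain ⟨y', hy', hye⟩ := ihy
      obtain ⟨r, hr⟩ := exists_add_pow_prime_pow_eq hp (⟨x, hx⟩ : O) (⟨y, hy⟩ : O) e
      have hr' : (x + y) ^ p ^ e = x ^ p ^ e + y ^ p ^ e + p * x * y * (r : E) :=
        congrArg Subtype.val hr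
      refine ⟨x' + y' + jE c * x * y * (r : E), O.add_mem (O.add_mem hx' hy')
        (O.mul_mem (O.mul_mem (O.mul_mem (hAO c) hx) hy) r.2), ?_⟩
      have hpc : (p : E) = jE ϖ * jE c := by rw [← map_mul, ← hc, map_natCast]
      rw [hr', hpc]
      linear_combination hxe + hye
    | neg x hx ihx =>
      obtain ⟨x', hx', hxe⟩ := ihx
      obtain ⟨m, hm⟩ := hAm (-1)
      have hm' : (-1 : E) ^ p ^ e - (-1) = jE ϖ * jE m := by
        rw [← map_mul, ← hm, map_sub, map_pow, map_neg, map_one]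
      refine ⟨jE m * x ^ (p ^ e) - x', O.sub_mem (O.mul_mem (hAO m) (O.pow_mem hx _)) hx', ?_⟩
      have h1 : (-x) ^ p ^ e = (-1) ^ p ^ e * x ^ p ^ e := by rw [← mul_pow, neg_one_mul]
      rw [h1]
      linear_combination x ^ p ^ e * hm' - hxe
    | mul x y hx hy ihx ihy =>
      obtain ⟨x', hx', hxe⟩ := ihx
      obtain ⟨y', hy', hye⟩ := ihy
      refine ⟨x' * y ^ (p ^ e) + x * y', O.add_mem (O.mul_mem hx' (O.pow_mem hy _))
        (O.mul_mem hx hy'), ?_⟩
      rw [mul_pow]
      linear_combination y ^ (p ^ e) * hxe + x * hye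
  set vϖ := V.valuation (jE ϖ) with hvϖ
  have hvϖ0 : vϖ ≠ 0 := by
    rw [hvϖ, Valuation.ne_zero_iff, map_ne_zero_iff _ hjinj]
    exact hϖ.ne_zero
  have hN : 2 ≤ p ^ e := by
    calc 2 ≤ p := hp.two_le
      _ = p ^ 1 := (pow_one p).symm
      _ ≤ p ^ e := Nat.pow_le_pow_right hp.pos he
  -- descent
  have hdesc : ∀ m : ℕ, ∀ a ∈ O, vϖ ^ m ≤ V.valuation a → ∃ j : ℕ, V.valuation a = vϖ ^ j := by
    intro m
    induction m with
    | zero =>
      intro a ha h
      exact ⟨0, le_antisymm (by rw [pow_zero]; exact hOV a ha) h⟩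
    | succ m ih =>
      intro a ha hm
      rcases eq_or_lt_of_le (hOV a ha) with h1 | h1
      · exact ⟨0, by rw [h1, pow_zero]⟩
      · obtain ⟨a', ha', h2⟩ := hfrob a ha
        have h3 : V.valuation (a ^ (p ^ e - 1)) < 1 := by
          rw [map_pow]
          exact pow_lt_one₀ zero_le h1 (by omega)
        have h4 : V.valuation (a ^ (p ^ e - 1) - 1) = 1 := by
          rw [Valuation.map_sub_swap, Valuation.map_one_sub_of_lt _ h3]
        have h5 : a ^ p ^ e - a = a * (a ^ (p ^ e - 1) - 1) := by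
          have h6 : p ^ e = p ^ e - 1 + 1 := by omega
          conv_lhs => rw [h6, pow_succ]
          ring
        have h6 : V.valuation a = vϖ * V.valuation a' := by
          have h7 := congrArg V.valuation (h5.symm.trans h2)
          rw [map_mul, map_mul, h4, mul_one] at h7
          exact h7
        obtain ⟨j, hj⟩ := ih a' ha' (by
          rw [h6, pow_succ'] at hm
          exact (mul_le_mul_iff_right₀ (zero_lt_iff.mpr hvϖ0)).mp hm)
        exact ⟨j + 1, by rw [h6, hj, pow_succ']⟩
  -- elements of `A`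
  have hAval : ∀ d : A, d ≠ 0 → ∃ m : ℕ, V.valuation (jE d) = vϖ ^ m := by
    intro d hd
    obtain ⟨m, u, hu⟩ := IsDiscreteValuationRing.eq_unit_mul_pow_irreducible hd hϖ
    refine ⟨m, ?_⟩
    have h1 : V.valuation (jE (u : A)) * V.valuation (jE ((u⁻¹ : Aˣ) : A)) = 1 := by
      rw [← map_mul, ← map_mul, Units.mul_inv, map_one, map_one]
    have h2 : V.valuation (jE (u : A)) = 1 := by
      refine le_antisymm ((V.valuation_le_one_iff _).mpr (hjV _)) ?_
      rw [← h1]
      exact mul_le_of_le_one_right' ((V.valuation_le_one_iff _).mpr (hjV _))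
    rw [hu, map_mul, map_mul, h2, one_mul, map_pow, map_pow]
  have hOval : ∀ a ∈ O, a ≠ 0 → ∃ j : ℕ, V.valuation a = vϖ ^ j := by
    intro a ha ha0
    letI : Algebra A E := jE.toAlgebra
    haveI : IsScalarTower A k E := IsScalarTower.of_algebraMap_eq fun _ => rfl
    have h1 : IsAlgebraic A a⁻¹ :=
      (IsFractionRing.isAlgebraic_iff A k E).2 (Algebra.IsAlgebraic.isAlgebraic a⁻¹)
    obtain ⟨d, hd, hint⟩ := h1.exists_integral_multiple
    have h2 : V.valuation (d • a⁻¹) ≤ 1 := by
      let jA : A →+* V := jE.codRestrict V.toSubring hjV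
      have h3 : IsIntegral V (d • a⁻¹) := by
        obtain ⟨q, hq, h0⟩ := hint
        refine ⟨q.map jA, hq.map jA, ?_⟩
        rw [eval₂_map]
        exact h0
      obtain ⟨w, hw⟩ := IsIntegrallyClosed.isIntegral_iff.mp h3
      rw [← hw]
      exact V.valuation_le_one w
    obtain ⟨m, hm⟩ := hAval d hd
    have h4 : d • a⁻¹ = jE d * a⁻¹ := Algebra.smul_def d a⁻¹
    rw [h4, map_mul, map_inv₀, hm] at h2
    have hva : V.valuation a ≠ 0 := (Valuation.ne_zero_iff _).mpr ha0
    refine hdesc m a ha ?_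
    rw [← div_eq_mul_inv, div_le_one₀ (zero_lt_iff.mpr hva)] at h2
    exact h2
  -- denominators
  have hz' : ∃ d : A, d ≠ 0 ∧ jE d * z ∈ O := by
    have h1 : z ∈ Algebra.adjoin k S := by
      rw [← IntermediateField.adjoin_toSubalgebra_of_isAlgebraic
        (fun x _ => Algebra.IsAlgebraic.isAlgebraic x)]
      exact hz
    clear hz hz0
    induction h1 using Algebra.adjoin_induction with
    | mem x hx => exact ⟨1, one_ne_zero, by rw [map_one, one_mul]; exact hSO x hx⟩
    | algebraMap r =>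
      obtain ⟨a, d, hd, rfl⟩ := IsFractionRing.div_surjective (A := A) r
      have hd0 : d ≠ 0 := nonZeroDivisors.ne_zero hd
      refine ⟨d, hd0, ?_⟩
      have h2 : jE d * algebraMap k E (algebraMap A k a / algebraMap A k d) = jE a := by
        rw [map_div₀]
        show jE d * (jE a / jE d) = jE a
        rw [mul_div_cancel₀]
        rw [map_ne_zero_iff _ hjinj]
        exact hd0
      rw [h2]
      exact hAO a
    | add x y _ _ ihx ihy =>
      obtain ⟨d, hd, hdx⟩ := ihx
      obtain ⟨d', hd', hdy⟩ := ihy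
      refine ⟨d * d', mul_ne_zero hd hd', ?_⟩
      have h2 : jE (d * d') * (x + y) = jE d' * (jE d * x) + jE d * (jE d' * y) := by
        rw [map_mul]; ring
      rw [h2]
      exact O.add_mem (O.mul_mem (hAO d') hdx) (O.mul_mem (hAO d) hdy)
    | mul x y _ _ ihx ihy =>
      obtain ⟨d, hd, hdx⟩ := ihx
      obtain ⟨d', hd', hdy⟩ := ihy
      refine ⟨d * d', mul_ne_zero hd hd', ?_⟩
      have h2 : jE (d * d') * (x * y) = (jE d * x) * (jE d' * y) := by
        rw [map_mul]; ring
      rw [h2]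
      exact O.mul_mem hdx hdy
  obtain ⟨d, hd, hdz⟩ := hz'
  have hjd : jE d ≠ 0 := (map_ne_zero_iff _ hjinj).mpr hd
  obtain ⟨j, hj⟩ := hOval _ hdz (mul_ne_zero hjd hz0)
  obtain ⟨m, hm⟩ := hAval d hd
  refine ⟨(j : ℤ) - m, ?_⟩
  rw [map_mul, hm] at hj
  show V.valuation z = vϖ ^ ((j : ℤ) - m)
  rw [zpow_sub₀ hvϖ0, zpow_natCast, zpow_natCast, ← hj, mul_div_cancel_left₀]
  exact pow_ne_zero _ hvϖ0

end

end Pool.Agent.WMS
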