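import Mathlib
import Pool.Agent.Helper19.Sec.Local
import Pool.Agent.WMS.Signs2
import Pool.Agent.WMS.UnrV
import Pool.Agent.WMS.FrobP
import Pool.Agent.WMS.LocalF

/-!
From the Frobenius lift and the inertia element to the whole decomposition group.
-/

set_option autoImplicit false

namespace Pool.Agent.WMS

open Polynomial Pool.Agent.Helper36 Pool.Agent.Helper19.Sec IsLocalRing

/-- powers of the Frobenius lift -/
lemma IsLoc_pow {k E Γ₀ : Type*} [Field k] [Field E] [Algebra k E]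
    [LinearOrderedCommGroupWithZero Γ₀] {v : Valuation E Γ₀} {φ τ : E ≃ₐ[k] E} {q : ℕ}
    (hl : IsLoc v (φ : E →+* E) (τ : E →+* E) q) (n : ℕ) :
    (∀ z, v ((φ ^ n) z) = v z) ∧ ∀ z, v z ≤ 1 → v ((φ ^ n) z - z ^ q ^ n) < 1 := by
  rcases Nat.eq_zero_or_pos n with rfl | hn
  · refine ⟨fun z => rfl, fun z _ => ?_⟩
    rw [pow_zero, pow_zero, pow_one]
    show v (z - z) < 1
    rw [sub_self, map_zero]
    exact zero_lt_one
  · have h5 := hl.pow n hn
    have h6 : ∀ i : ℕ, ((φ ^ i : E ≃ₐ[k] E) : E →+* E) = (φ : E →+* E) ^ i := by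
      intro i
      induction i with
      | zero => rfl
      | succ i ih =>
        rw [pow_succ, pow_succ, ← ih]
        rfl
    rw [← h6] at h5
    exact ⟨h5.vφ, h5.hφ⟩

/-- an automorphism in the decomposition group is congruent to a power of the Frobenius lift -/
lemma exists_congr {A k E : Type*} [CommRing A] [IsDomain A] [IsDiscreteValuationRing A]
    [Finite (ResidueField A)] [Field k] [CharZero k] [Algebra A k]
    [IsFractionRing A k] [Field E] [Algebra k E] [IsAlgClosure k E]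
    (V : ValuationSubring E)
    (hV : ∀ a : k, algebraMap k E a ∈ V ↔ ∃ b : A, algebraMap A k b = a)
    (φ τ : E ≃ₐ[k] E)
    (hl : IsLoc V.valuation (φ : E →+* E) (τ : E →+* E) (Nat.card (ResidueField A)))
    (e : ℕ) (he : 0 < e) (σ : E ≃ₐ[k] E) (hvσ : ∀ z, V.valuation (σ z) = V.valuation z) :
    ∃ i : ℕ, ∀ z : E, V.valuation z ≤ 1 → (φ ^ e) z = z →
      V.valuation (((φ ^ i)⁻¹ * σ : E ≃ₐ[k] E) z - z) < 1 := by
  classical
  obtain ⟨ϖ, hϖ⟩ := IsDiscreteValuationRing.exists_irreducible A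
  have hϖ1 := val_unif ϖ hϖ V hV
  let jE : A →+* E := (algebraMap k E).comp (algebraMap A k)
  have hjE : ∀ z, jE z ∈ V := fun z => (hV _).mpr ⟨z, rfl⟩
  let jA : A →+* V := jE.codRestrict V.toSubring hjE
  have hloc : IsLocalHom jA := by
    refine ⟨fun a ha => ?_⟩
    by_contra hna
    have h3 : a ∈ maximalIdeal A := (mem_maximalIdeal a).mpr hna
    rw [hϖ.maximalIdeal_eq, Ideal.mem_span_singleton] at h3
    obtain ⟨b, rfl⟩ := h3
    have h4 : V.valuation (jE (ϖ * b)) = 1 := by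
      have := (V.valuation_eq_one_iff _).mp ha
      exact this
    rw [map_mul, map_mul] at h4
    have h5 : V.valuation (jE ϖ) * V.valuation (jE b) < 1 := by
      calc V.valuation (jE ϖ) * V.valuation (jE b) ≤ V.valuation (jE ϖ) * 1 := by
            gcongr
            exact (V.valuation_le_one_iff _).mpr (hjE b)
        _ < 1 := by rw [mul_one]; exact hϖ1
    rw [h4] at h5
    exact lt_irrefl _ h5
  let j : ResidueField A →+* ResidueField V := ResidueField.map jA
  have hσV : ∀ z : V, σ (z : E) ∈ V := by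
    intro z
    rw [← V.valuation_le_one_iff, hvσ]
    exact V.valuation_le_one z
  let sV : V →+* V := ((σ : E →+* E).comp V.subtype).codRestrict V.toSubring hσV
  have hsV : ∀ z : V, ((sV z : V) : E) = σ (z : E) := fun z => rfl
  have hlocσ : IsLocalHom sV := by
    refine ⟨fun z hz => ?_⟩
    rw [V.valuation_eq_one_iff] at hz ⊢
    rw [hsV, hvσ] at hz
    exact hz
  let s : ResidueField V →+* ResidueField V := ResidueField.map sV
  have hs : ∀ z : V, s (residue V z) = residue V (sV z) := fun z => ResidueField.map_residue sV z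
  have hsj : ∀ a, s (j a) = j a := by
    intro a
    obtain ⟨a', rfl⟩ := residue_surjective a
    have h1 : j (residue A a') = residue V (jA a') := ResidueField.map_residue jA a'
    rw [h1, hs]
    congr 1
    apply Subtype.ext
    exact σ.commutes _
  obtain ⟨i, hi⟩ := frob_power j s hsj e he
  refine ⟨i, ?_⟩
  intro z hz hφz
  obtain ⟨h1, h2⟩ := IsLoc_pow hl e
  obtain ⟨h3, h4⟩ := IsLoc_pow hl i
  let Z : V := ⟨z, (V.valuation_le_one_iff _).mp hz⟩
  have h5 : (residue V Z) ^ (Nat.card (ResidueField A)) ^ e = residue V Z := by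
    rw [← map_pow, ← sub_eq_zero, ← map_sub, residue_eq_zero_iff,
      ValuationSubring.valuation_lt_one_iff]
    have h6 := h2 z hz
    rw [hφz, Valuation.map_sub_swap] at h6
    exact h6
  have h6 := hi _ h5
  rw [hs, ← map_pow, ← sub_eq_zero, ← map_sub, residue_eq_zero_iff,
    ValuationSubring.valuation_lt_one_iff] at h6
  have h7 : V.valuation (σ z - z ^ (Nat.card (ResidueField A)) ^ i) < 1 := h6
  have h8 : V.valuation (σ z - (φ ^ i) z) < 1 := by
    have h9 : σ z - (φ ^ i) z = (σ z - z ^ (Nat.card (ResidueField A)) ^ i) -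
        ((φ ^ i) z - z ^ (Nat.card (ResidueField A)) ^ i) := by ring
    rw [h9]
    exact Valuation.map_sub_lt _ h7 (h4 z hz)
  have h9 : (φ ^ i) (((φ ^ i)⁻¹ * σ : E ≃ₐ[k] E) z - z) = σ z - (φ ^ i) z := by
    rw [map_sub]
    congr 1
    exact (φ ^ i).apply_symm_apply (σ z)
  rw [← h3, h9]
  exact h8

theorem extend_D {A k E M : Type*} [CommRing A] [IsDomain A] [IsDiscreteValuationRing A]
    [Finite (ResidueField A)] [Field k] [CharZero k] [Algebra A k]
    [IsFractionRing A k] [Field E] [Algebra k E] [IsAlgClosure k E] [Field M]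
    (fr : Frame k E M) (V : ValuationSubring E)
    (hV : ∀ a : k, algebraMap k E a ∈ V ↔ ∃ b : A, algebraMap A k b = a)
    (ϖ : A) (hϖ : Irreducible ϖ) (t : E) (ht : t ^ 2 = algebraMap k E (algebraMap A k ϖ))
    (φ τ : E ≃ₐ[k] E)
    (hl : IsLoc V.valuation (φ : E →+* E) (τ : E →+* E) (Nat.card (ResidueField A)))
    (hτt : τ t = - t) (f : A[X]) (hlead : IsUnit f.leadingCoeff)
    (hsep : (f.map (residue A)).Separable) (θ₀ : E)
    (hθ₀ : aeval θ₀ (f.map (algebraMap A k)) = 0) (hφθ₀ : φ θ₀ = θ₀) (X : M) (R : E → M)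
    (hR0 : ∀ θ, aeval θ (f.map (algebraMap A k)) = 0 → θ ≠ θ₀ → R θ ≠ 0)
    (hX : ∀ σ : E ≃ₐ[k] E, σ θ₀ = θ₀ → fr.ρ σ X = X)
    (hR : ∀ θ, aeval θ (f.map (algebraMap A k)) = 0 → θ ≠ θ₀ →
      R θ ^ 2 = X - fr.ι ((θ - θ₀)⁻¹)) (η : M) (hη : η = 1 ∨ η = -1)
    (hφR : ∀ θ, aeval θ (f.map (algebraMap A k)) = 0 → θ ≠ θ₀ → fr.ρ φ (R θ) = η * R (φ θ))
    (hτR : ∀ θ, aeval θ (f.map (algebraMap A k)) = 0 → θ ≠ θ₀ → fr.ρ τ (R θ) = - R θ)
    (σ : E ≃ₐ[k] E) (hσ : ∀ z, z ∈ V ↔ σ z ∈ V) :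
    σ θ₀ = θ₀ ∧ ∃ ζ : M, (ζ = 1 ∨ ζ = -1) ∧
      ∀ θ, aeval θ (f.map (algebraMap A k)) = 0 → θ ≠ θ₀ → fr.ρ σ (R θ) = ζ * R (σ θ) := by
  classical
  have hcl : IsAlgClosed E := IsAlgClosure.isAlgClosed k
  have halg : Algebra.IsAlgebraic k E := IsAlgClosure.isAlgebraic
  obtain ⟨hsepk, hint, hsepv⟩ := roots_facts V hV f hlead hsep
  set fk : k[X] := f.map (algebraMap A k) with hfk
  have hvσ : ∀ z, V.valuation (σ z) = V.valuation z := fun z =>
    GalAux.val_eq_of_orbit V (σ : E ≃+* E) hσ z (GalAux.finite_orbit σ z)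
  have hroot : ∀ (g : E ≃ₐ[k] E) θ, aeval θ fk = 0 → aeval (g θ) fk = 0 := by
    intro g θ hθ
    rw [aeval_algHom_apply, hθ, map_zero]
  have hφroot' : ∀ θ, aeval (φ θ) fk = 0 ↔ aeval θ fk = 0 := by
    intro θ
    rw [aeval_algHom_apply, _root_.map_eq_zero]
  have hτroot : ∀ θ, aeval θ fk = 0 → τ θ = θ := by
    intro θ hθ
    by_contra hne
    have h1 := hroot τ θ hθ
    have h2 := hsepv (τ θ) θ h1 hθ hne
    exact absurd (hl.hτ θ (hint θ hθ)) (by
      show ¬ V.valuation (τ θ - θ) < 1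
      rw [h2]
      exact lt_irrefl _)
  have hf0 : fk ≠ 0 := hsepk.ne_zero
  -- a power of the Frobenius lift fixing the roots
  have hfinset : ({θ : E | aeval θ fk = 0} : Set E).Finite := by
    refine (fk.rootSet_finite E).subset ?_
    intro θ hθ
    rw [mem_rootSet]
    exact ⟨hf0, hθ⟩
  have hfin : Finite {θ : E // aeval θ fk = 0} := hfinset.to_subtype
  obtain ⟨e, he, hφe⟩ : ∃ e : ℕ, 0 < e ∧ ∀ θ, aeval θ fk = 0 → (φ ^ e) θ = θ := by
    letI : Fintype {θ : E // aeval θ fk = 0} := Fintype.ofFinite _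
    let π : Equiv.Perm {θ : E // aeval θ fk = 0} :=
      Equiv.Perm.subtypePerm (φ.toEquiv : Equiv.Perm E) (fun θ => hφroot' θ)
    have hπ : ∀ (n : ℕ) (a : {θ : E // aeval θ fk = 0}),
        (((π ^ n) a : {θ : E // aeval θ fk = 0}) : E) = (φ ^ n) (a : E) := by
      intro n
      induction n with
      | zero => intro a; rfl
      | succ n ih =>
        intro a
        rw [pow_succ, pow_succ]
        show (((π ^ n) (π a) : {θ : E // aeval θ fk = 0}) : E) = (φ ^ n) (φ a)
        rw [ih]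
        rfl
    refine ⟨orderOf π, orderOf_pos π, ?_⟩
    intro θ hθ
    have h1 := hπ (orderOf π) ⟨θ, hθ⟩
    rw [pow_orderOf_eq_one] at h1
    exact h1.symm
  obtain ⟨i, hi⟩ := exists_congr V hV φ τ hl e he σ hvσ
  set ψ : E ≃ₐ[k] E := (φ ^ i)⁻¹ * σ with hψ
  have hσψ : σ = φ ^ i * ψ := by rw [hψ, mul_inv_cancel_left]
  have hψroot : ∀ θ, aeval θ fk = 0 → ψ θ = θ := by
    intro θ hθ
    by_contra hne
    have h1 := hroot ψ θ hθ
    have h2 := hsepv (ψ θ) θ h1 hθ hne
    have h3 := hi θ (hint θ hθ) (hφe θ hθ)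
    rw [h2] at h3
    exact lt_irrefl _ h3
  have hφn0 : ∀ n : ℕ, (φ ^ n) θ₀ = θ₀ := by
    intro n
    induction n with
    | zero => rfl
    | succ n ih =>
      rw [pow_succ]
      show (φ ^ n) (φ θ₀) = θ₀
      rw [hφθ₀, ih]
  have hφnroot : ∀ (n : ℕ) θ, aeval θ fk = 0 → aeval ((φ ^ n) θ) fk = 0 := fun n θ hθ =>
    hroot (φ ^ n) θ hθ
  have hφnne : ∀ (n : ℕ) θ, θ ≠ θ₀ → (φ ^ n) θ ≠ θ₀ := by
    intro n θ hne h
    exact hne ((φ ^ n).injective (h.trans (hφn0 n).symm))
  refine ⟨?_, ?_⟩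
  · rw [hσψ]
    show (φ ^ i) (ψ θ₀) = θ₀
    rw [hψroot θ₀ hθ₀, hφn0]
  -- the action of the powers of the Frobenius lift
  have hη2 : η * η = 1 := by rcases hη with rfl | rfl <;> ring
  have hρη : ∀ g : E ≃ₐ[k] E, fr.ρ g η = η := by
    intro g
    rcases hη with rfl | rfl
    · exact map_one _
    · rw [map_neg, map_one]
  have hφnR : ∀ (n : ℕ) θ, aeval θ fk = 0 → θ ≠ θ₀ →
      fr.ρ (φ ^ n) (R θ) = η ^ n * R ((φ ^ n) θ) := by
    intro n
    induction n with
    | zero =>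
      intro θ _ _
      rw [pow_zero, map_one, pow_zero, one_mul]
      rfl
    | succ n ih =>
      intro θ hθ hne
      have h1 : fr.ρ (φ ^ (n + 1)) (R θ) = fr.ρ φ (fr.ρ (φ ^ n) (R θ)) := by
        rw [pow_succ', map_mul]
        rfl
      rw [h1, ih θ hθ hne, map_mul, map_pow, hρη, hφR _ (hφnroot n θ hθ) (hφnne n θ hne), pow_succ',
        pow_succ']
      show η ^ n * (η * R (φ ((φ ^ n) θ))) = η * η ^ n * R ((φ * φ ^ n) θ)
      rw [AlgEquiv.mul_apply]
      ring
  -- the field generated by the roots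
  let F0 : IntermediateField k E := IntermediateField.adjoin k {θ : E | aeval θ fk = 0}
  have hF0 : FiniteDimensional k F0 := by
    have := hfinset.to_subtype
    exact IntermediateField.finiteDimensional_adjoin fun z _ =>
      (Algebra.IsAlgebraic.isAlgebraic z).isIntegral
  have hF0S : ∀ g : E ≃ₐ[k] E, g ∈ F0.fixingSubgroup ↔ ∀ θ, aeval θ fk = 0 → g θ = θ := by
    intro g
    exact mem_fixing_adjoin g _
  have hXfix : ∀ g ∈ F0.fixingSubgroup, fr.ρ g X = X := fun g hg =>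
    hX g ((hF0S g).mp hg θ₀ hθ₀)
  have hRsq : ∀ g ∈ F0.fixingSubgroup, ∀ θ, aeval θ fk = 0 → θ ≠ θ₀ →
      fr.ρ g (R θ) = R θ ∨ fr.ρ g (R θ) = -R θ := by
    intro g hg θ hθ hne
    apply sq_eq_sq_iff_eq_or_eq_neg.mp
    rw [← map_pow, hR θ hθ hne, map_sub, hXfix g hg, fr.semilin, map_inv₀, map_sub,
      (hF0S g).mp hg θ hθ, (hF0S g).mp hg θ₀ hθ₀]
  have hψF0 : ψ ∈ F0.fixingSubgroup := (hF0S ψ).mpr hψroot
  have hprod : ∀ θ θ', aeval θ fk = 0 → θ ≠ θ₀ → aeval θ' fk = 0 → θ' ≠ θ₀ →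
      fr.ρ ψ (R θ * R θ') = R θ * R θ' := by
    intro θ θ' hθ hne hθ' hne'
    set u : M := R θ * R θ' with hu
    have hu0 : u ≠ 0 := mul_ne_zero (hR0 θ hθ hne) (hR0 θ' hθ' hne')
    have hpm : ∀ g ∈ F0.fixingSubgroup, fr.ρ g u = u ∨ fr.ρ g u = -u := by
      intro g hg
      rw [hu, map_mul]
      rcases hRsq g hg θ hθ hne with h | h <;> rcases hRsq g hg θ' hθ' hne' with h' | h' <;>
        rw [h, h']
      · left; rfl
      · right; ring
      · right; ring
      · left; ring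
    obtain ⟨F, hF, hFfix⟩ := fr.cont u
    have hfin2 : FiniteDimensional k (F0 ⊔ F : IntermediateField k E) :=
      IntermediateField.finiteDimensional_sup _ _
    obtain ⟨b, hb0, hb⟩ := Pool.Agent.Helper36.descent (ρ := fr.ρ) fr.semilin F0
      (F0 ⊔ F) le_sup_left hu0 (by
        intro g hg
        apply hFfix
        rw [IntermediateField.mem_fixingSubgroup_iff] at hg ⊢
        exact fun z hz => hg z ((le_sup_right : F ≤ _ ⊔ F) hz)) (by
        intro g hg
        rcases hpm g hg with h2 | h2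
        · exact ⟨1, by rw [map_one, one_mul, h2]⟩
        · exact ⟨-1, by rw [map_neg, map_one, h2]; ring⟩)
    have hb' : ∀ g ∈ F0.fixingSubgroup, fr.ρ g u = u → g b = b := by
      intro g hg h
      have h5 := hb g hg
      rw [map_mul, fr.semilin, h] at h5
      exact fr.ι.injective (mul_right_cancel₀ hu0 h5)
    have hb2 : b ^ 2 ∈ F0 := by
      have h5 : ∀ g ∈ F0.fixingSubgroup, g (b ^ 2) = b ^ 2 := by
        intro g hg
        have h6 := hb g hg
        rw [map_mul, fr.semilin] at h6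
        rcases hpm g hg with h7 | h7
        · rw [map_pow, hb' g hg h7]
        · rw [h7] at h6
          have h8 : fr.ι (g b) = fr.ι (-b) := by
            apply mul_right_cancel₀ hu0
            rw [map_neg]
            linear_combination -h6
          rw [map_pow, fr.ι.injective h8, neg_sq]
      have h9 : b ^ 2 ∈ IntermediateField.fixedField F0.fixingSubgroup := fun g => h5 g g.2
      rwa [InfiniteGalois.fixedField_fixingSubgroup] at h9
    obtain ⟨j, hj⟩ := val_unram V hV ϖ hϖ f hlead hsep (b ^ 2) hb2 (pow_ne_zero 2 hb0)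
    set ϖE : E := algebraMap k E (algebraMap A k ϖ) with hϖE
    have hϖ0 : ϖE ≠ 0 := by
      rw [hϖE, _root_.map_ne_zero, Ne, map_eq_zero_iff _ (IsFractionRing.injective A k)]
      exact hϖ.ne_zero
    have hvϖ0 : V.valuation ϖE ≠ 0 := (Valuation.ne_zero_iff _).mpr hϖ0
    have hgϖ : ∀ g : E ≃ₐ[k] E, g ϖE = ϖE := fun g => g.commutes _
    have hτF0 : τ ∈ F0.fixingSubgroup := (hF0S τ).mpr hτroot
    have hτu : fr.ρ τ u = u := by
      rw [hu, map_mul, hτR θ hθ hne, hτR θ' hθ' hne']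
      ring
    have hτb : τ b = b := hb' τ hτF0 hτu
    -- parity
    obtain ⟨m, hm⟩ : Even j := by
      by_contra hodd
      rw [Int.not_even_iff_odd] at hodd
      obtain ⟨m, hm⟩ := hodd
      have ht0 : t ≠ 0 := by
        rintro rfl
        rw [zero_pow (by norm_num)] at ht
        exact hϖ0 ht.symm
      set w : E := b / (ϖE ^ m * t) with hw
      have hden : ϖE ^ m * t ≠ 0 := mul_ne_zero (zpow_ne_zero _ hϖ0) ht0
      have hw0 : w ≠ 0 := div_ne_zero hb0 hden
      have hw2 : w ^ 2 = b ^ 2 / ϖE ^ j := by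
        rw [hw, div_pow, mul_pow, ht, hm, ← zpow_natCast (ϖE ^ m) 2, ← zpow_mul, zpow_add₀ hϖ0,
          zpow_one, mul_comm m]
        rfl
      have hvw : V.valuation w = 1 := by
        have h5 : V.valuation w ^ 2 = 1 := by
          rw [← map_pow, hw2, map_div₀, hj, map_zpow₀, div_self (zpow_ne_zero _ hvϖ0)]
        exact (pow_eq_one_iff_of_nonneg zero_le (by norm_num)).mp h5
      have hτw : τ w = w := by
        refine hl.fix_root 1 hvw ?_
        show τ (w ^ 2 ^ 1) = w ^ 2 ^ 1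
        rw [pow_one, hw2, map_div₀, map_zpow₀, hgϖ, map_pow, hτb]
      have hτw' : τ w = -w := by
        rw [hw, map_div₀, map_mul, map_zpow₀, hgϖ, hτb, hτt, mul_neg, div_neg]
      have h6 : 2 * w = 0 := by
        have h7 : w = -w := hτw.symm.trans hτw'
        linear_combination h7
      rcases mul_eq_zero.mp h6 with h7 | h7
      · have h8 := hl.v2
        rw [h7, map_zero] at h8
        exact zero_ne_one h8
      · exact hw0 h7
    set w : E := b / ϖE ^ m with hw
    have hw2 : w ^ 2 = b ^ 2 / ϖE ^ j := by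
      rw [hw, div_pow, hm, ← zpow_natCast (ϖE ^ m) 2, ← zpow_mul, zpow_add₀ hϖ0, ← zpow_add₀ hϖ0]
      congr 2
      push_cast
      ring
    have hvw : V.valuation w = 1 := by
      have h5 : V.valuation w ^ 2 = 1 := by
        rw [← map_pow, hw2, map_div₀, hj, map_zpow₀, div_self (zpow_ne_zero _ hvϖ0)]
      exact (pow_eq_one_iff_of_nonneg zero_le (by norm_num)).mp h5
    have hφeF0 : φ ^ e ∈ F0.fixingSubgroup := (hF0S _).mpr hφe
    have hφeu : fr.ρ (φ ^ e) u = u := by
      rw [hu, map_mul, hφnR e θ hθ hne, hφnR e θ' hθ' hne', hφe θ hθ, hφe θ' hθ']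
      have h5 : η ^ e * η ^ e = 1 := by rw [← mul_pow, hη2, one_pow]
      linear_combination (R θ * R θ') * h5
    have hφew : (φ ^ e) w = w := by
      rw [hw, map_div₀, map_zpow₀, hgϖ, hb' _ hφeF0 hφeu]
    have h10 := hi w hvw.le hφew
    rcases hpm ψ hψF0 with h | h
    · exact h
    · exfalso
      have h5 := hb ψ hψF0
      rw [map_mul, fr.semilin, h] at h5
      have h6 : ψ b = -b := by
        apply fr.ι.injective
        apply mul_right_cancel₀ hu0
        rw [map_neg]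
        linear_combination -h5
      have h7 : ψ w = -w := by
        rw [hw, map_div₀, map_zpow₀, hgϖ, h6, neg_div]
      rw [h7] at h10
      have h8 : V.valuation (-w - w) = 1 := by
        have : -w - w = -(2 * w) := by ring
        rw [this, Valuation.map_neg, map_mul, hl.v2, hvw, one_mul]
      rw [h8] at h10
      exact lt_irrefl _ h10
  -- the common sign of `ψ`
  obtain ⟨ε, hε, hψR⟩ : ∃ ε : M, (ε = 1 ∨ ε = -1) ∧
      ∀ θ, aeval θ fk = 0 → θ ≠ θ₀ → fr.ρ ψ (R θ) = ε * R θ := by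
    by_cases hex : ∃ θ₁, aeval θ₁ fk = 0 ∧ θ₁ ≠ θ₀
    · obtain ⟨θ₁, h1, h1'⟩ := hex
      have hne1 := hR0 θ₁ h1 h1'
      rcases hRsq ψ hψF0 θ₁ h1 h1' with h | h
      · refine ⟨1, Or.inl rfl, ?_⟩
        intro θ hθ hne
        have h5 := hprod θ θ₁ hθ hne h1 h1'
        rw [map_mul, h] at h5
        rw [one_mul]
        exact mul_right_cancel₀ hne1 h5
      · refine ⟨-1, Or.inr rfl, ?_⟩
        intro θ hθ hne
        have h5 := hprod θ θ₁ hθ hne h1 h1'
        rw [map_mul, h] at h5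
        apply mul_right_cancel₀ hne1
        linear_combination -h5
    · refine ⟨1, Or.inl rfl, ?_⟩
      intro θ hθ hne
      exact absurd ⟨θ, hθ, hne⟩ hex
  refine ⟨ε * η ^ i, ?_, ?_⟩
  · have h5 : η ^ i = 1 ∨ η ^ i = -1 := by
      rcases hη with rfl | rfl
      · left; rw [one_pow]
      · exact neg_one_pow_eq_or M i
    rcases hε with rfl | rfl <;> rcases h5 with h | h <;> rw [h]
    · left; ring
    · right; ring
    · right; ring
    · left; ring
  · intro θ hθ hne
    have h1 : fr.ρ σ (R θ) = fr.ρ (φ ^ i) (fr.ρ ψ (R θ)) := by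
      conv_lhs => rw [hσψ]
      rw [map_mul]
      rfl
    have h2 : σ θ = (φ ^ i) θ := by
      conv_lhs => rw [hσψ]
      show (φ ^ i) (ψ θ) = _
      rw [hψroot θ hθ]
    have h3 : fr.ρ (φ ^ i) ε = ε := by
      rcases hε with rfl | rfl
      · exact map_one _
      · rw [map_neg, map_one]
    rw [h1, hψR θ hθ hne, map_mul, h3, hφnR i θ hθ hne, h2]
    ring

end Pool.Agent.WMS
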