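import Mathlib
import Pool.Agent.Helper19.Sec.Fixed
import Pool.Agent.WMS.Comb2

/-!
A section of the fundamental group of a ramified quadratic twist gives a root fixed by the
Frobenius lift which is separated from all the other roots by the inertia element (proof of
helper19 with a stronger conclusion).
-/

set_option autoImplicit false

namespace Pool.Agent.WMS

open Polynomial Pool.Agent.Helper36 Pool.Agent.Helper19.Sec

section

variable {k K Ω : Type*} [Field k] [Field K] [Field Ω] [Algebra k K] [Algebra K Ω] [Algebra k Ω]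
  [IsScalarTower k K Ω] [CharZero k] [Algebra.IsAlgebraic K Ω] [IsAlgClosed Ω]

theorem exists_fixed_root2 (s : SectionData k K Ω) {Γ₀ : Type*} [LinearOrderedCommGroupWithZero Γ₀]
    {v : Valuation (algebraicClosure k Ω) Γ₀}
    {φ τ : algebraicClosure k Ω ≃ₐ[k] algebraicClosure k Ω} {q : ℕ}
    (hl : IsLoc v (φ : algebraicClosure k Ω →+* algebraicClosure k Ω)
      (τ : algebraicClosure k Ω →+* algebraicClosure k Ω) q)
    (f : k[X]) (hf : f.Separable) (heven : Even f.natDegree) (h6 : 6 ≤ f.natDegree) (c : k)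
    (hc : c ≠ 0) (x y : K) (hx : Transcendental k x)
    (hxy : algebraMap k K c * y ^ 2 = aeval x f)
    (hint : ∀ θ : algebraicClosure k Ω, aeval θ f = 0 → v θ ≤ 1)
    (hsep : ∀ θ θ' : algebraicClosure k Ω, aeval θ f = 0 → aeval θ' f = 0 → θ ≠ θ' →
      v (θ - θ') = 1)
    (hτc : ∀ w : algebraicClosure k Ω,
      w ^ 2 = algebraMap k (algebraicClosure k Ω) (c / f.leadingCoeff) → τ w = -w) :
    ∃ θ : algebraicClosure k Ω, aeval θ f = 0 ∧ φ θ = θ ∧
      ∀ θ' : algebraicClosure k Ω, aeval θ' f = 0 → θ' ≠ θ → ∀ r : univCover k K Ω,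
        r ^ 2 = (algebraMap K (univCover k K Ω) x - incl k K Ω θ) *
          (algebraMap K (univCover k K Ω) x - incl k K Ω θ') → s.act τ r = - r := by
  classical
  let fr := frameOf s
  have hfrι : fr.ι = incl k K Ω := rfl
  set xM : (univCover k K Ω) := algebraMap K (univCover k K Ω) x with hxM
  have hxr : xM ∉ Set.range fr.ι := by
    rintro ⟨e, he⟩
    have h1 : (e : Ω) = algebraMap K Ω x := congrArg Subtype.val he
    have h2 : IsAlgebraic k (algebraMap K Ω x) := by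
      rw [← h1]
      exact mem_algebraicClosure_iff.mp e.2
    exact hx ((isAlgebraic_algebraMap_iff (algebraMap K Ω).injective).mp h2)
  have hxfix : ∀ σ, fr.ρ σ xM = xM := fun σ => act_alg s σ x
  have hxne : ∀ e : (algebraicClosure k Ω), xM - fr.ι e ≠ 0 := fun e h0 => hxr ⟨e, (sub_eq_zero.mp h0).symm⟩
  -- the roots
  have hf0 : f ≠ 0 := by
    rintro rfl
    rw [natDegree_zero] at h6
    omega
  have hτroot : ∀ θ : (algebraicClosure k Ω), aeval θ f = 0 → τ θ = θ := by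
    intro θ hθ
    by_contra hne
    have h1 : aeval (τ θ) f = 0 := by rw [aeval_algHom_apply, hθ, map_zero]
    have h2 := hsep (τ θ) θ h1 hθ hne
    exact absurd (hl.hτ θ (hint θ hθ)) (by
      show ¬ v (τ θ - θ) < 1
      rw [h2]
      exact lt_irrefl _)
  have hφroot : ∀ θ : (algebraicClosure k Ω), aeval θ f = 0 → aeval (φ θ) f = 0 := by
    intro θ hθ
    rw [aeval_algHom_apply, hθ, map_zero]
  set fE : (algebraicClosure k Ω)[X] := f.map (algebraMap k (algebraicClosure k Ω)) with hfE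
  have hfE0 : fE ≠ 0 := Polynomial.map_ne_zero hf0
  set Θ : Finset (algebraicClosure k Ω) := fE.roots.toFinset with hΘ
  have hmemΘ : ∀ θ : (algebraicClosure k Ω), θ ∈ Θ ↔ aeval θ f = 0 := by
    intro θ
    rw [hΘ, Multiset.mem_toFinset, mem_roots hfE0, IsRoot.def, hfE, eval_map_algebraMap]
  have hsplits : fE.Splits := IsAlgClosed.splits fE
  have hnodup : fE.roots.Nodup := nodup_roots (hf.map)
  have hcard : Θ.card = f.natDegree := by
    rw [hΘ, Multiset.toFinset_card_of_nodup hnodup, ← hsplits.natDegree_eq_card_roots, hfE,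
      natDegree_map]
  have hfx : fr.ι (algebraMap k (algebraicClosure k Ω) f.leadingCoeff) * ∏ θ ∈ Θ, (xM - fr.ι θ) =
      eval₂ fr.ι xM fE := by
    have h1 := hsplits.eq_prod_roots
    conv_rhs => rw [h1]
    rw [eval₂_mul, eval₂_C, ← coe_eval₂RingHom, map_multiset_prod, Multiset.map_map]
    congr 1
    · rw [hfE, leadingCoeff_map]
    · rw [Finset.prod_eq_multiset_prod, hΘ, Multiset.toFinset_val, hnodup.dedup]
      congr 1
      apply Multiset.map_congr rfl
      intro w _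
      simp [coe_eval₂RingHom]
  have hfx2 : eval₂ fr.ι xM fE = fr.ι (algebraMap k (algebraicClosure k Ω) c) * (algebraMap K (univCover k K Ω) y) ^ 2 := by
    have hcomp : fr.ι.comp (algebraMap k (algebraicClosure k Ω)) = (algebraMap K (univCover k K Ω)).comp (algebraMap k K) := by
      apply RingHom.ext
      intro e
      apply Subtype.ext
      exact IsScalarTower.algebraMap_apply k K Ω e
    rw [hfE, eval₂_map, hcomp, ← hom_eval₂, ← map_pow, ← RingHom.comp_apply, hcomp,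
      RingHom.comp_apply, ← map_mul, hxy]
    rfl
  have hlead : f.leadingCoeff ≠ 0 := leadingCoeff_ne_zero.mpr hf0
  have hleadM : fr.ι (algebraMap k (algebraicClosure k Ω) f.leadingCoeff) ≠ 0 := by
    rw [_root_.map_ne_zero, _root_.map_ne_zero]
    exact hlead
  have hprodx : ∏ θ ∈ Θ, (xM - fr.ι θ) =
      fr.ι (algebraMap k (algebraicClosure k Ω) (c / f.leadingCoeff)) * (algebraMap K (univCover k K Ω) y) ^ 2 := by
    apply mul_left_cancel₀ hleadM
    rw [hfx, hfx2, ← mul_assoc, ← map_mul, ← map_mul, mul_div_cancel₀ _ hlead]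
  -- square roots
  have hsqrt : ∀ θ θ' : (algebraicClosure k Ω), aeval θ f = 0 → aeval θ' f = 0 → ∃ r : (univCover k K Ω),
      r ^ 2 = (xM - fr.ι θ) * (xM - fr.ι θ') := by
    intro θ θ' hθ hθ'
    obtain ⟨r, -, hr, -⟩ := exists_sqrt f hf c hc x y hx hxy ⊥ (bot_unram (k := k)).1 bot_unram.2
      θ θ' hθ hθ'
    exact ⟨r, hr⟩
  have hpm : ∀ (θ θ' : (algebraicClosure k Ω)) (r : (univCover k K Ω)), aeval θ f = 0 → aeval θ' f = 0 →
      r ^ 2 = (xM - fr.ι θ) * (xM - fr.ι θ') → fr.ρ τ r = r ∨ fr.ρ τ r = -r := by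
    intro θ θ' r hθ hθ' hr
    apply sq_eq_sq_iff_eq_or_eq_neg.mp
    rw [← map_pow, hr, map_mul, map_sub, map_sub, fr.semilin, fr.semilin, hxfix, hτroot θ hθ,
      hτroot θ' hθ']
  -- a base root
  obtain ⟨θs, hθs⟩ : ∃ θs : (algebraicClosure k Ω), aeval θs f = 0 := by
    have : 0 < Θ.card := by rw [hcard]; omega
    obtain ⟨θ, hθ⟩ := Finset.card_pos.mp this
    exact ⟨θ, (hmemΘ θ).mp hθ⟩
  have hex : ∀ θ : (algebraicClosure k Ω), ∃ r : (univCover k K Ω), aeval θ f = 0 → r ^ 2 = (xM - fr.ι θs) * (xM - fr.ι θ) := by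
    intro θ
    by_cases h : aeval θ f = 0
    · obtain ⟨r, hr⟩ := hsqrt θs θ hθs h
      exact ⟨r, fun _ => hr⟩
    · exact ⟨0, fun h' => absurd h' h⟩
  choose R hR using hex
  have hR0 : ∀ θ : (algebraicClosure k Ω), aeval θ f = 0 → R θ ≠ 0 := by
    intro θ hθ h0
    have h1 := hR θ hθ
    rw [h0, zero_pow (by norm_num)] at h1
    exact mul_ne_zero (hxne _) (hxne _) h1.symm
  let e : (algebraicClosure k Ω) → Prop := fun θ => fr.ρ τ (R θ) = R θ
  have hchar2 : (2 : (univCover k K Ω)) ≠ 0 := by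
    have h1 : CharZero K := charZero_of_injective_algebraMap (algebraMap k K).injective
    have h2 : CharZero (univCover k K Ω) :=
      charZero_of_injective_algebraMap (algebraMap K (univCover k K Ω)).injective
    exact two_ne_zero
  have hneg : ∀ z : (univCover k K Ω), z ≠ 0 → -z ≠ z := by
    intro z hz h
    have h1 : (2 : (univCover k K Ω)) * z = 0 := by linear_combination (-1 : (univCover k K Ω)) * h
    rcases mul_eq_zero.mp h1 with h2 | h2
    · exact hchar2 h2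
    · exact hz h2
  have hnote : ∀ θ : (algebraicClosure k Ω), aeval θ f = 0 → ¬ e θ → fr.ρ τ (R θ) = - R θ := by
    intro θ hθ hne
    rcases hpm θs θ (R θ) hθs hθ (hR θ hθ) with h | h
    · exact absurd h hne
    · exact h
  -- the relation for a pair of roots
  have hpair : ∀ (θ θ' : (algebraicClosure k Ω)) (r : (univCover k K Ω)), aeval θ f = 0 → aeval θ' f = 0 →
      r ^ 2 = (xM - fr.ι θ) * (xM - fr.ι θ') → ((e θ ↔ e θ') ↔ fr.ρ τ r = r) := by
    intro θ θ' r hθ hθ' hr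
    set w : (univCover k K Ω) := R θ * R θ' / (xM - fr.ι θs) with hw
    have hw2 : w ^ 2 = r ^ 2 := by
      rw [hw, div_pow, mul_pow, hR θ hθ, hR θ' hθ', hr]
      have := hxne θs
      field_simp
    have hw0 : w ≠ 0 := div_ne_zero (mul_ne_zero (hR0 θ hθ) (hR0 θ' hθ')) (hxne θs)
    have hτw : fr.ρ τ w = w ↔ fr.ρ τ r = r := by
      rcases sq_eq_sq_iff_eq_or_eq_neg.mp hw2 with h | h
      · rw [h]
      · rw [h, map_neg, neg_inj]
    rw [← hτw]
    have hτx : fr.ρ τ (xM - fr.ι θs) = xM - fr.ι θs := by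
      rw [map_sub, fr.semilin, hxfix, hτroot θs hθs]
    by_cases h1 : e θ <;> by_cases h2 : e θ'
    · have h1' : fr.ρ τ (R θ) = R θ := h1
      have h2' : fr.ρ τ (R θ') = R θ' := h2
      have : fr.ρ τ w = w := by rw [hw, map_div₀, map_mul, h1', h2', hτx]
      exact ⟨fun _ => this, fun _ => ⟨fun _ => h2, fun _ => h1⟩⟩
    · have h1' : fr.ρ τ (R θ) = R θ := h1
      have h2' := hnote θ' hθ' h2
      have : fr.ρ τ w = -w := by
        rw [hw, map_div₀, map_mul, h1', h2', hτx]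
        ring
      rw [this]
      exact ⟨fun h => absurd (h.mp h1) h2, fun h => absurd h (hneg w hw0)⟩
    · have h1' := hnote θ hθ h1
      have h2' : fr.ρ τ (R θ') = R θ' := h2
      have : fr.ρ τ w = -w := by
        rw [hw, map_div₀, map_mul, h1', h2', hτx]
        ring
      rw [this]
      exact ⟨fun h => absurd (h.mpr h2) h1, fun h => absurd h (hneg w hw0)⟩
    · have h1' := hnote θ hθ h1
      have h2' := hnote θ' hθ' h2
      have : fr.ρ τ w = w := by
        rw [hw, map_div₀, map_mul, h1', h2', hτx]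
        ring
      exact ⟨fun _ => this, fun _ => ⟨fun h => absurd h h1, fun h => absurd h h2⟩⟩
  -- parity
  have hy0 : algebraMap K (univCover k K Ω) y ≠ 0 := by
    intro h0
    have h1 : ∏ θ ∈ Θ, (xM - fr.ι θ) ≠ 0 := Finset.prod_ne_zero_iff.mpr fun θ _ => hxne θ
    rw [hprodx, h0] at h1
    exact h1 (by simp)
  obtain ⟨w, hw⟩ := IsAlgClosed.exists_pow_nat_eq
    (algebraMap k (algebraicClosure k Ω) (c / f.leadingCoeff)) (n := 2) (by norm_num)
  have hτw := hτc w hw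
  have hw0 : w ≠ 0 := by
    rintro rfl
    rw [zero_pow (by norm_num)] at hw
    exact (by
      rw [_root_.map_ne_zero]
      exact div_ne_zero hc hlead : algebraMap k (algebraicClosure k Ω) (c / f.leadingCoeff) ≠ 0) hw.symm
  obtain ⟨m, hm⟩ := heven
  have hPi2 : (∏ θ ∈ Θ, R θ) ^ 2 = ((xM - fr.ι θs) ^ m * fr.ι w * algebraMap K (univCover k K Ω) y) ^ 2 := by
    have h1 : ∀ θ ∈ Θ, R θ ^ 2 = (xM - fr.ι θs) * (xM - fr.ι θ) := fun θ hθ =>
      hR θ ((hmemΘ θ).mp hθ)
    rw [← Finset.prod_pow, Finset.prod_congr rfl h1, Finset.prod_mul_distrib, Finset.prod_const,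
      hcard, hm, hprodx, ← hw, map_pow]
    ring
  have hτPi : fr.ρ τ (∏ θ ∈ Θ, R θ) = - ∏ θ ∈ Θ, R θ := by
    have h1 : fr.ρ τ ((xM - fr.ι θs) ^ m * fr.ι w * algebraMap K (univCover k K Ω) y) =
        - ((xM - fr.ι θs) ^ m * fr.ι w * algebraMap K (univCover k K Ω) y) := by
      have h2 : fr.ρ τ (algebraMap K (univCover k K Ω) y) = algebraMap K (univCover k K Ω) y := act_alg s τ y
      rw [map_mul, map_mul, map_pow, map_sub, fr.semilin, fr.semilin, hxfix, hτroot θs hθs, h2,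
        hτw, map_neg]
      ring
    rcases sq_eq_sq_iff_eq_or_eq_neg.mp hPi2 with h | h
    · rw [h, h1]
    · rw [h, map_neg, h1]
  have hodd : Odd (Θ.filter (fun θ => ¬ e θ)).card := by
    have h1 : fr.ρ τ (∏ θ ∈ Θ, R θ) = (-1) ^ (Θ.filter (fun θ => ¬ e θ)).card *
        ∏ θ ∈ Θ, R θ := by
      rw [map_prod]
      have h2 : ∀ θ ∈ Θ, fr.ρ τ (R θ) = (if ¬ e θ then (-1 : (univCover k K Ω)) else 1) * R θ := by
        intro θ hθ
        by_cases h3 : e θ
        · rw [if_neg (not_not.mpr h3), one_mul]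
          exact h3
        · rw [if_pos h3, hnote θ ((hmemΘ θ).mp hθ) h3]
          ring
      rw [Finset.prod_congr rfl h2, Finset.prod_mul_distrib, Finset.prod_ite, Finset.prod_const,
        Finset.prod_const_one, mul_one]
    have hPi0 : ∏ θ ∈ Θ, R θ ≠ 0 :=
      Finset.prod_ne_zero_iff.mpr fun θ hθ => hR0 θ ((hmemΘ θ).mp hθ)
    by_contra hne
    rw [Nat.not_odd_iff_even] at hne
    rw [hne.neg_one_pow, one_mul, hτPi] at h1
    exact hneg _ hPi0 h1
  have hodd' : Odd (Θ.filter e).card := by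
    have hsum := Finset.card_filter_add_card_filter_not (s := Θ) e
    rw [hcard, hm] at hsum
    rw [Nat.odd_iff] at hodd ⊢
    omega
  have heven' : Even Θ.card := ⟨m, by rw [hcard, hm]⟩
  obtain ⟨θ, hθ, hφθ, hsing⟩ := comb2 Θ (by rw [hcard]; exact h6) heven' e hodd' (by
      intro θ₁ t1 θ₂ t2 θ₃ t3 θ₄ t4 n12 n34 n13 n14 n23 n24 e12 e34
      rw [hmemΘ] at t1 t2 t3 t4
      obtain ⟨r12, L1, hr12, -, hr12L, hθ1L, hθ2L, hfin1, hun1⟩ :=
        exists_sqrt f hf c hc x y hx hxy ⊥ (bot_unram (k := k)).1 bot_unram.2 θ₁ θ₂ t1 t2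
      obtain ⟨r34, L2, hr34, hL12, hr34L, hθ3L, hθ4L, hfin2, hun2⟩ :=
        exists_sqrt f hf c hc x y hx hxy L1 hfin1 hun1 θ₃ θ₄ t3 t4
      obtain ⟨r13, hr13⟩ := hsqrt θ₁ θ₃ t1 t3
      rw [hpair θ₁ θ₃ r13 t1 t3 hr13]
      have hτ12 := (hpair θ₁ θ₂ r12 t1 t2 hr12).mp e12
      have hτ34 := (hpair θ₃ θ₄ r34 t3 t4 hr34).mp e34
      refine four_roots_frame fr xM hxr hxfix hl θ₁ θ₂ θ₃ θ₄ (hint _ t1) (hsep _ _ t1 t2 n12)
        (hsep _ _ t1 t3 n13) (hsep _ _ t1 t4 n14) (hsep _ _ t2 t3 n23) (hsep _ _ t2 t4 n24)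
        (hsep _ _ t3 t4 n34) (hτroot _ t1) (hτroot _ t2) (hτroot _ t3) (hτroot _ t4) r12 r34 r13
        hr12 hr34 hr13 hτ12 hτ34 ?_
      rintro a b c X Y hab hbc hca hXY ⟨κ, hX, hY⟩
      obtain ⟨L3, hL23, hκL, hfin3, hun3⟩ := unram_adjoin_const L2 hfin2 hun2 (κ : Ω)
        (mem_algebraicClosure_iff.mp κ.2)
      have hxL : algebraMap K Ω x ∈ L3 := L3.algebraMap_mem x
      have hθ1L3 : (θ₁ : Ω) ∈ L3 := hL23 (hL12 hθ1L)
      have hden : algebraMap K Ω x - (θ₁ : Ω) ∈ L3 := L3.sub_mem hxL hθ1L3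
      refine rootProp_univCover a b c hab hbc hca X Y hXY L3 hfin3 hun3 ?_ ?_
      · rw [hX]
        exact L3.div_mem hκL hden
      · rw [hY, pow_two]
        exact L3.div_mem (L3.mul_mem hκL (L3.mul_mem (hL23 (hL12 hr12L)) (hL23 hr34L)))
          (L3.mul_mem hden hden))
    φ (by
      intro θ hθ
      rw [hmemΘ] at hθ ⊢
      exact hφroot θ hθ)
    (φ.injective.injOn) (by
      intro θ hθ θ' hθ' h
      rw [hmemΘ] at hθ hθ'
      obtain ⟨r, hr⟩ := hsqrt θ θ' hθ hθ'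
      have h1 := (hpair θ θ' r hθ hθ' hr).mp h
      have h2 : (fr.ρ φ r) ^ 2 = (xM - fr.ι (φ θ)) * (xM - fr.ι (φ θ')) := by
        rw [← map_pow, hr, map_mul, map_sub, map_sub, fr.semilin, fr.semilin, hxfix]
      rw [hpair (φ θ) (φ θ') (fr.ρ φ r) (hφroot θ hθ) (hφroot θ' hθ') h2]
      exact phi_inv fr xM hxr hxfix hl θ θ' r hr (hτroot θ hθ) (hτroot θ' hθ')
        (hτroot _ (hφroot θ hθ)) (hτroot _ (hφroot θ' hθ')) h1)
  refine ⟨θ, (hmemΘ θ).mp hθ, hφθ, ?_⟩
  intro θ' hθ' hne r hr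
  have h1 := hsing θ' ((hmemΘ θ').mpr hθ') hne
  have h2 := hpair θ θ' r ((hmemΘ θ).mp hθ) hθ' hr
  rcases hpm θ θ' r ((hmemΘ θ).mp hθ) hθ' hr with h3 | h3
  · exfalso
    have h4 := h2.mpr h3
    tauto
  · exact h3

end

end Pool.Agent.WMS
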