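import Mathlib
import Pool.Agent.WMS.Signs2

/-!
Normalisation of the signs of the elements `R θ` with respect to the Frobenius lift.
-/

set_option autoImplicit false

namespace Pool.Agent.WMS

open Polynomial Pool.Agent.Helper36 Pool.Agent.Helper19.Sec

section

variable {k E M : Type*} [Field k] [Field E] [Field M] [Algebra k E]
  {Γ₀ : Type*} [LinearOrderedCommGroupWithZero Γ₀]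

/-- the configuration of the elements `R θ` -/
structure Conf (fr : Frame k E M) (v : Valuation E Γ₀) (τ : E ≃ₐ[k] E) (Θ : Finset E) (θ₀ : E)
    (X : M) (R : E → M) : Prop where
  odd : Odd Θ.card
  notmem : θ₀ ∉ Θ
  fix : ∀ σ : E ≃ₐ[k] E, σ θ₀ = θ₀ → fr.ρ σ X = X
  sq : ∀ θ ∈ Θ, R θ ^ 2 = X - fr.ι ((θ - θ₀)⁻¹)
  neg : ∀ θ ∈ Θ, fr.ρ τ (R θ) = - R θ
  ne : ∀ θ ∈ Θ, R θ ≠ 0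
  τ0 : τ θ₀ = θ₀
  τΘ : ∀ θ ∈ Θ, τ θ = θ
  v0 : ∀ θ ∈ Θ, v (θ - θ₀) = 1
  vΘ : ∀ θ ∈ Θ, ∀ θ' ∈ Θ, θ ≠ θ' → v (θ - θ') = 1
  root : ∀ θ₁ ∈ Θ, ∀ θ₂ ∈ Θ, ∀ θ₃ ∈ Θ, θ₁ ≠ θ₂ → θ₁ ≠ θ₃ → θ₂ ≠ θ₃ → ∀ u₁ u₂ u₃ : M,
    (u₁ = R θ₁ ∨ u₁ = -R θ₁) → (u₂ = R θ₂ ∨ u₂ = -R θ₂) → (u₃ = R θ₃ ∨ u₃ = -R θ₃) →
    ∃ y, y ^ 2 = (u₁ + u₂) * (u₁ + u₃)

namespace Conf

variable {fr : Frame k E M} {v : Valuation E Γ₀} {τ : E ≃ₐ[k] E} {Θ : Finset E} {θ₀ : E}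
    {X : M} {R : E → M}

lemma sq' (C : Conf fr v τ Θ θ₀ X R) {θ : E} (hθ : θ ∈ Θ) {u : M} (hu : u = R θ ∨ u = -R θ) :
    u ^ 2 = X - fr.ι ((θ - θ₀)⁻¹) := by
  rcases hu with rfl | rfl
  · exact C.sq θ hθ
  · rw [neg_sq]; exact C.sq θ hθ

lemma neg' (C : Conf fr v τ Θ θ₀ X R) {θ : E} (hθ : θ ∈ Θ) {u : M} (hu : u = R θ ∨ u = -R θ) :
    fr.ρ τ u = -u := by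
  rcases hu with rfl | rfl
  · exact C.neg θ hθ
  · rw [map_neg, C.neg θ hθ]

lemma ne' (C : Conf fr v τ Θ θ₀ X R) {θ : E} (hθ : θ ∈ Θ) {u : M} (hu : u = R θ ∨ u = -R θ) :
    u ≠ 0 := by
  rcases hu with rfl | rfl
  · exact C.ne θ hθ
  · exact neg_ne_zero.mpr (C.ne θ hθ)

lemma vdiff (C : Conf fr v τ Θ θ₀ X R) {θ θ' : E} (hθ : θ ∈ Θ) (hθ' : θ' ∈ Θ) (hne : θ ≠ θ') :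
    v ((θ' - θ₀)⁻¹ - (θ - θ₀)⁻¹) = 1 := by
  have h1 := C.v0 θ hθ
  have h2 := C.v0 θ' hθ'
  have n1 : θ - θ₀ ≠ 0 := by
    intro h; rw [h, map_zero] at h1; exact zero_ne_one h1
  have n2 : θ' - θ₀ ≠ 0 := by
    intro h; rw [h, map_zero] at h2; exact zero_ne_one h2
  have h3 : (θ' - θ₀)⁻¹ - (θ - θ₀)⁻¹ = (θ - θ') / ((θ' - θ₀) * (θ - θ₀)) := by
    field_simp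
    ring
  rw [h3, map_div₀, map_mul, h1, h2, C.vΘ θ hθ θ' hθ' hne]
  simp

lemma trip (C : Conf fr v τ Θ θ₀ X R) {θ₁ θ₂ θ₃ : E} (h₁ : θ₁ ∈ Θ) (h₂ : θ₂ ∈ Θ) (h₃ : θ₃ ∈ Θ)
    (n12 : θ₁ ≠ θ₂) (n13 : θ₁ ≠ θ₃) (n23 : θ₂ ≠ θ₃) {u₁ u₂ u₃ : M}
    (hu₁ : u₁ = R θ₁ ∨ u₁ = -R θ₁) (hu₂ : u₂ = R θ₂ ∨ u₂ = -R θ₂) (hu₃ : u₃ = R θ₃ ∨ u₃ = -R θ₃) :
    Trip fr v τ u₁ u₂ u₃ ((θ₂ - θ₀)⁻¹ - (θ₁ - θ₀)⁻¹) ((θ₃ - θ₀)⁻¹ - (θ₁ - θ₀)⁻¹) where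
  hp := by rw [C.sq' h₁ hu₁, C.sq' h₂ hu₂, map_sub]; ring
  hq := by rw [C.sq' h₁ hu₁, C.sq' h₃ hu₃, map_sub]; ring
  vp := C.vdiff h₁ h₂ n12
  vq := C.vdiff h₁ h₃ n13
  vqp := by
    have : (θ₃ - θ₀)⁻¹ - (θ₁ - θ₀)⁻¹ - ((θ₂ - θ₀)⁻¹ - (θ₁ - θ₀)⁻¹) =
        (θ₃ - θ₀)⁻¹ - (θ₂ - θ₀)⁻¹ := by ring
    rw [this]
    exact C.vdiff h₂ h₃ n23
  τp := by
    rw [map_sub, map_inv₀, map_inv₀, map_sub, map_sub, C.τ0, C.τΘ θ₁ h₁, C.τΘ θ₂ h₂]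
  τq := by
    rw [map_sub, map_inv₀, map_inv₀, map_sub, map_sub, C.τ0, C.τΘ θ₁ h₁, C.τΘ θ₃ h₃]
  n1 := C.neg' h₁ hu₁
  n2 := C.neg' h₂ hu₂
  n3 := C.neg' h₃ hu₃

/-- automorphisms fixing `θ₀` permute the `R θ` up to sign -/
lemma perm (C : Conf fr v τ Θ θ₀ X R) {ψ : E ≃ₐ[k] E} (hψ0 : ψ θ₀ = θ₀) {θ : E} (hθ : θ ∈ Θ)
    (hψθ : ψ θ ∈ Θ) {u : M} (hu : u = R θ ∨ u = -R θ) :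
    fr.ρ ψ u = R (ψ θ) ∨ fr.ρ ψ u = -R (ψ θ) := by
  apply sq_eq_sq_iff_eq_or_eq_neg.mp
  rw [← map_pow, C.sq' hθ hu, C.sq _ hψθ, map_sub, C.fix ψ hψ0, fr.semilin, map_inv₀, map_sub, hψ0]

variable [IsAlgClosed E]

/-- existence of a good pattern with prescribed first sign -/
lemma good (C : Conf fr v τ Θ θ₀ X R) (h2 : (2 : M) ≠ 0) {ψ : E ≃ₐ[k] E} {q : ℕ}
    (hl : IsLoc v (ψ : E →+* E) (τ : E →+* E) q) {θ₁ θ₂ θ₃ : E} (h₁ : θ₁ ∈ Θ) (h₂ : θ₂ ∈ Θ)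
    (h₃ : θ₃ ∈ Θ) (n12 : θ₁ ≠ θ₂) (n13 : θ₁ ≠ θ₃) (n23 : θ₂ ≠ θ₃) {u₁ : M}
    (hu₁ : u₁ = R θ₁ ∨ u₁ = -R θ₁) :
    ∃ u₂ u₃ : M, (u₂ = R θ₂ ∨ u₂ = -R θ₂) ∧ (u₃ = R θ₃ ∨ u₃ = -R θ₃) ∧ Good fr τ u₁ u₂ u₃ := by
  obtain ⟨y₁, hy₁⟩ := C.root θ₁ h₁ θ₂ h₂ θ₃ h₃ n12 n13 n23 u₁ (R θ₂) (R θ₃) hu₁ (Or.inl rfl)
    (Or.inl rfl)
  obtain ⟨y₂, hy₂⟩ := C.root θ₂ h₂ θ₁ h₁ θ₃ h₃ n12.symm n23 n13 (R θ₂) u₁ (R θ₃) (Or.inl rfl) hu₁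
    (Or.inl rfl)
  exact (C.trip h₁ h₂ h₃ n12 n13 n23 hu₁ (Or.inl rfl) (Or.inl rfl)).exists_good h2 hl y₁ y₂ hy₁ hy₂

/-- uniqueness of the good pattern -/
lemma unique (C : Conf fr v τ Θ θ₀ X R) (h2 : (2 : M) ≠ 0) {ψ : E ≃ₐ[k] E} {q : ℕ}
    (hl : IsLoc v (ψ : E →+* E) (τ : E →+* E) q) {θ₁ θ₂ θ₃ : E} (h₁ : θ₁ ∈ Θ) (h₂ : θ₂ ∈ Θ)
    (h₃ : θ₃ ∈ Θ) (n12 : θ₁ ≠ θ₂) (n13 : θ₁ ≠ θ₃) (n23 : θ₂ ≠ θ₃) {u₁ u₂ u₃ w₂ w₃ : M}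
    (hu₁ : u₁ = R θ₁ ∨ u₁ = -R θ₁) (hu₂ : u₂ = R θ₂ ∨ u₂ = -R θ₂) (hu₃ : u₃ = R θ₃ ∨ u₃ = -R θ₃)
    (hw₂ : w₂ = R θ₂ ∨ w₂ = -R θ₂) (hw₃ : w₃ = R θ₃ ∨ w₃ = -R θ₃) (G : Good fr τ u₁ u₂ u₃)
    (G' : Good fr τ u₁ w₂ w₃) : w₂ = u₂ := by
  obtain ⟨y₁, hy₁⟩ := C.root θ₁ h₁ θ₂ h₂ θ₃ h₃ n12 n13 n23 u₁ u₂ u₃ hu₁ hu₂ hu₃
  obtain ⟨y₂, hy₂⟩ := C.root θ₂ h₂ θ₁ h₁ θ₃ h₃ n12.symm n23 n13 u₂ u₁ u₃ hu₂ hu₁ hu₃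
  refine ((C.trip h₁ h₂ h₃ n12 n13 n23 hu₁ hu₂ hu₃).good_unique h2 hl y₁ y₂ hy₁ hy₂ G w₂ w₃ ?_ ?_
    G').1
  · rcases hu₂ with rfl | rfl <;> rcases hw₂ with rfl | rfl <;> simp
  · rcases hu₃ with rfl | rfl <;> rcases hw₃ with rfl | rfl <;> simp

/-- transport -/
lemma transport [IsGalois k E] (C : Conf fr v τ Θ θ₀ X R) {ψ : E ≃ₐ[k] E} {q : ℕ}
    (hl : IsLoc v (ψ : E →+* E) (τ : E →+* E) q) (hψ0 : ψ θ₀ = θ₀) (hψΘ : ∀ θ ∈ Θ, ψ θ ∈ Θ)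
    {θ₁ θ₂ θ₃ : E} (h₁ : θ₁ ∈ Θ) (h₂ : θ₂ ∈ Θ)
    (h₃ : θ₃ ∈ Θ) (n12 : θ₁ ≠ θ₂) (n13 : θ₁ ≠ θ₃) (n23 : θ₂ ≠ θ₃) {u₁ u₂ u₃ : M}
    (hu₁ : u₁ = R θ₁ ∨ u₁ = -R θ₁) (hu₂ : u₂ = R θ₂ ∨ u₂ = -R θ₂) (hu₃ : u₃ = R θ₃ ∨ u₃ = -R θ₃)
    (G : Good fr τ u₁ u₂ u₃) : Good fr τ (fr.ρ ψ u₁) (fr.ρ ψ u₂) (fr.ρ ψ u₃) := by
  classical
  obtain ⟨y₁, hy₁⟩ := C.root θ₁ h₁ θ₂ h₂ θ₃ h₃ n12 n13 n23 u₁ u₂ u₃ hu₁ hu₂ hu₃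
  obtain ⟨y₂, hy₂⟩ := C.root θ₂ h₂ θ₁ h₁ θ₃ h₃ n12.symm n23 n13 u₂ u₁ u₃ hu₂ hu₁ hu₃
  have T := C.trip h₁ h₂ h₃ n12 n13 n23 hu₁ hu₂ hu₃
  refine good_transport fr hl {θ₀, θ₁, θ₂, θ₃} ?_ ?_ ![u₁, u₂, u₃] ?_ ?_ ?_ ?_ T.a12 T.a13 T.a23
    y₁ y₂ hy₁ hy₂ G
  · intro z hz
    simp only [Finset.mem_insert, Finset.mem_singleton] at hz
    rcases hz with rfl | rfl | rfl | rfl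
    exacts [C.τ0, C.τΘ _ h₁, C.τΘ _ h₂, C.τΘ _ h₃]
  · intro z hz
    simp only [Finset.mem_insert, Finset.mem_singleton] at hz
    rcases hz with rfl | rfl | rfl | rfl
    · rw [hψ0, C.τ0]
    · exact C.τΘ _ (hψΘ _ h₁)
    · exact C.τΘ _ (hψΘ _ h₂)
    · exact C.τΘ _ (hψΘ _ h₃)
  · intro i
    fin_cases i
    exacts [C.ne' h₁ hu₁, C.ne' h₂ hu₂, C.ne' h₃ hu₃]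
  · intro σ hσ i
    have s0 : σ θ₀ = θ₀ := hσ θ₀ (by simp)
    have s1 : σ θ₁ = θ₁ := hσ θ₁ (by simp)
    have s2 : σ θ₂ = θ₂ := hσ θ₂ (by simp)
    have s3 : σ θ₃ = θ₃ := hσ θ₃ (by simp)
    fin_cases i
    · show fr.ρ σ (u₁ ^ 2) = u₁ ^ 2
      rw [C.sq' h₁ hu₁, map_sub, C.fix σ s0, fr.semilin, map_inv₀, map_sub, s0, s1]
    · show fr.ρ σ (u₂ ^ 2) = u₂ ^ 2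
      rw [C.sq' h₂ hu₂, map_sub, C.fix σ s0, fr.semilin, map_inv₀, map_sub, s0, s2]
    · show fr.ρ σ (u₃ ^ 2) = u₃ ^ 2
      rw [C.sq' h₃ hu₃, map_sub, C.fix σ s0, fr.semilin, map_inv₀, map_sub, s0, s3]
  · intro i
    fin_cases i
    exacts [C.neg' h₁ hu₁, C.neg' h₂ hu₂, C.neg' h₃ hu₃]
  · intro i
    fin_cases i
    · exact C.neg' (hψΘ _ h₁) (C.perm hψ0 h₁ (hψΘ _ h₁) hu₁)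
    · exact C.neg' (hψΘ _ h₂) (C.perm hψ0 h₂ (hψΘ _ h₂) hu₂)
    · exact C.neg' (hψΘ _ h₃) (C.perm hψ0 h₃ (hψΘ _ h₃) hu₃)

/-- the comparison of signs: if `ψ` fixes `θ₁`, then good patterns on `(θ₁, θ₂, θ₃)` and on
`(θ₁, ψ θ₂, ψ θ₃)` correspond -/
lemma compare [IsGalois k E] (C : Conf fr v τ Θ θ₀ X R) (h2 : (2 : M) ≠ 0) {ψ : E ≃ₐ[k] E} {q : ℕ}
    (hl : IsLoc v (ψ : E →+* E) (τ : E →+* E) q) (hψ0 : ψ θ₀ = θ₀) (hψΘ : ∀ θ ∈ Θ, ψ θ ∈ Θ)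
    {θ₁ θ₂ θ₃ : E} (h₁ : θ₁ ∈ Θ) (hψ1 : ψ θ₁ = θ₁) (h₂ : θ₂ ∈ Θ)
    (h₃ : θ₃ ∈ Θ) (n12 : θ₁ ≠ θ₂) (n13 : θ₁ ≠ θ₃) (n23 : θ₂ ≠ θ₃) {u₂ u₃ w₂ w₃ : M}
    (hu₂ : u₂ = R θ₂ ∨ u₂ = -R θ₂) (hu₃ : u₃ = R θ₃ ∨ u₃ = -R θ₃)
    (hw₂ : w₂ = R (ψ θ₂) ∨ w₂ = -R (ψ θ₂)) (hw₃ : w₃ = R (ψ θ₃) ∨ w₃ = -R (ψ θ₃))
    (G : Good fr τ (R θ₁) u₂ u₃) (G' : Good fr τ (R θ₁) w₂ w₃) (η : M) (hη : η = 1 ∨ η = -1)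
    (hη1 : fr.ρ ψ (R θ₁) = η * R θ₁) : fr.ρ ψ u₂ = η * w₂ := by
  have G1 := C.transport hl hψ0 hψΘ h₁ h₂ h₃ n12 n13 n23 (Or.inl rfl) hu₂ hu₃ G
  have m1 : θ₁ ≠ ψ θ₂ := fun h => n12 (ψ.injective (hψ1.trans h))
  have m2 : θ₁ ≠ ψ θ₃ := fun h => n13 (ψ.injective (hψ1.trans h))
  have m3 : ψ θ₂ ≠ ψ θ₃ := fun h => n23 (ψ.injective h)
  have p2 := C.perm hψ0 h₂ (hψΘ _ h₂) hu₂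
  have p3 := C.perm hψ0 h₃ (hψΘ _ h₃) hu₃
  rw [hη1] at G1
  rcases hη with rfl | rfl
  · rw [one_mul] at G1
    rw [one_mul]
    exact C.unique h2 hl h₁ (hψΘ _ h₂) (hψΘ _ h₃) m1 m2 m3 (Or.inl rfl) hw₂ hw₃ p2 p3 G' G1
  · have G2 := G1.neg
    rw [neg_one_mul, neg_neg] at G2
    have p2' : -fr.ρ ψ u₂ = R (ψ θ₂) ∨ -fr.ρ ψ u₂ = -R (ψ θ₂) := by
      rcases p2 with h | h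
      · right; rw [h]
      · left; rw [h, neg_neg]
    have p3' : -fr.ρ ψ u₃ = R (ψ θ₃) ∨ -fr.ρ ψ u₃ = -R (ψ θ₃) := by
      rcases p3 with h | h
      · right; rw [h]
      · left; rw [h, neg_neg]
    have := C.unique h2 hl h₁ (hψΘ _ h₂) (hψΘ _ h₃) m1 m2 m3 (Or.inl rfl) hw₂ hw₃ p2' p3' G' G2
    rw [← this]
    ring

end Conf

end

end Pool.Agent.WMS
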