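import Mathlib
import Pool.Agent.WMS.Perm

/-!
Normalisation of the signs of the elements `R θ` with respect to the Frobenius lift: the orbits.
-/

set_option autoImplicit false

namespace Pool.Agent.WMS

open Polynomial Pool.Agent.Helper36 Pool.Agent.Helper19.Sec

section comb

variable {α : Type*} [Fintype α] [DecidableEq α]

/-- an odd power of a permutation of a finite set of odd order whose fixed points are plenty -/
lemma exists_odd_power (π : Equiv.Perm α) (hodd : Odd (Fintype.card α)) :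
    ∃ N : ℕ, Odd N ∧ (∃ a, (π ^ N) a = a) ∧
      ∀ a b, (π ^ N) a = a → (π ^ N) b = b → a ≠ b → ∃ c, (π ^ N) c = c ∧ c ≠ a ∧ c ≠ b := by
  obtain ⟨m, N, hN, hmN⟩ := Nat.exists_eq_two_pow_mul_odd (n := orderOf π)
    (orderOf_pos π).ne'
  have hσ : (π ^ N) ^ 2 ^ m = 1 := by
    rw [← pow_mul, mul_comm, ← hmN, pow_orderOf_eq_one]
  have : Fact (Nat.Prime 2) := ⟨Nat.prime_two⟩
  have hcard := Equiv.Perm.card_compl_support_modEq hσ
  have hodd' : Odd ((π ^ N).support)ᶜ.card := by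
    rw [Nat.odd_iff] at hodd ⊢
    rw [← hodd]
    exact hcard
  refine ⟨N, hN, ?_, ?_⟩
  · obtain ⟨a, ha⟩ := Finset.card_pos.mp hodd'.pos
    exact ⟨a, by simpa using ha⟩
  · intro a b ha hb hab
    have ha' : a ∈ ((π ^ N).support)ᶜ := by simpa using ha
    have hb' : b ∈ ((π ^ N).support)ᶜ := by simpa using hb
    have hb'' : b ∈ ((π ^ N).support)ᶜ.erase a := Finset.mem_erase.mpr ⟨hab.symm, hb'⟩
    have h1 := Finset.card_erase_of_mem ha'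
    have h2 := Finset.card_erase_of_mem hb''
    have h3 : 0 < (((π ^ N).support)ᶜ.erase a).card := Finset.card_pos.mpr ⟨b, hb''⟩
    have h4 : 0 < ((((π ^ N).support)ᶜ.erase a).erase b).card := by
      rw [Nat.odd_iff] at hodd'
      omega
    obtain ⟨c, hc⟩ := Finset.card_pos.mp h4
    rw [Finset.mem_erase, Finset.mem_erase] at hc
    exact ⟨c, by simpa using hc.2.2, hc.2.1, hc.1⟩

end comb

section

variable {k E M : Type*} [Field k] [Field E] [Field M] [Algebra k E]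
  {Γ₀ : Type*} [LinearOrderedCommGroupWithZero Γ₀]
  {fr : Frame k E M} {v : Valuation E Γ₀} {τ : E ≃ₐ[k] E} {Θ : Finset E} {θ₀ : E}
    {X : M} {R : E → M} [IsAlgClosed E] [IsGalois k E]

/-- the same on the set `Θ` -/
lemma exists_odd_power' (φ : E ≃ₐ[k] E) (hΘ : ∀ θ, φ θ ∈ Θ ↔ θ ∈ Θ) (hodd : Odd Θ.card) :
    ∃ N : ℕ, Odd N ∧ (∃ a ∈ Θ, (φ ^ N) a = a) ∧
      ∀ a ∈ Θ, ∀ b ∈ Θ, (φ ^ N) a = a → (φ ^ N) b = b → a ≠ b →
        ∃ c ∈ Θ, (φ ^ N) c = c ∧ c ≠ a ∧ c ≠ b := by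
  classical
  let π : Equiv.Perm {θ // θ ∈ Θ} :=
    Equiv.Perm.subtypePerm (φ.toEquiv : Equiv.Perm E) (fun θ => hΘ θ)
  have hπ : ∀ (n : ℕ) (a : {θ // θ ∈ Θ}), (((π ^ n) a : {θ // θ ∈ Θ}) : E) = (φ ^ n) (a : E) := by
    intro n
    induction n with
    | zero => intro a; rfl
    | succ n ih =>
      intro a
      rw [pow_succ, pow_succ]
      show (((π ^ n) (π a) : {θ // θ ∈ Θ}) : E) = (φ ^ n) (φ a)
      rw [ih]
      rfl
  obtain ⟨N, hN, ⟨a, ha⟩, h⟩ := exists_odd_power π (by rwa [Fintype.card_coe])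
  refine ⟨N, hN, ⟨a, a.2, by rw [← hπ, ha]⟩, ?_⟩
  intro a ha b hb h1 h2 hne
  obtain ⟨c, hc, hca, hcb⟩ := h ⟨a, ha⟩ ⟨b, hb⟩ (Subtype.ext (by rw [hπ]; exact h1))
    (Subtype.ext (by rw [hπ]; exact h2)) (fun h => hne (congrArg Subtype.val h))
  exact ⟨c, c.2, by rw [← hπ, hc], fun h => hca (Subtype.ext h), fun h => hcb (Subtype.ext h)⟩

/-- normalisation for an automorphism with plenty of fixed points -/
lemma normal_aux (C : Conf fr v τ Θ θ₀ X R) (h2 : (2 : M) ≠ 0) {ψ : E ≃ₐ[k] E} {q : ℕ}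
    (hl : IsLoc v (ψ : E →+* E) (τ : E →+* E) q) (hψ0 : ψ θ₀ = θ₀) (hψΘ : ∀ θ ∈ Θ, ψ θ ∈ Θ)
    (f : E) (hf : f ∈ Θ) (hψf : ψ f = f)
    (h3 : ∀ a ∈ Θ, ∀ b ∈ Θ, ψ a = a → ψ b = b → a ≠ b → ∃ c ∈ Θ, ψ c = c ∧ c ≠ a ∧ c ≠ b) :
    ∃ (R' : E → M) (η : M), (η = 1 ∨ η = -1) ∧ (∀ θ ∈ Θ, R' θ = R θ ∨ R' θ = -R θ) ∧
      ∀ θ ∈ Θ, fr.ρ ψ (R' θ) = η * R' (ψ θ) := by
  classical
  -- the sign `η`
  obtain ⟨η, hη, hη1⟩ : ∃ η : M, (η = 1 ∨ η = -1) ∧ fr.ρ ψ (R f) = η * R f := by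
    have := C.perm hψ0 hf (hψΘ f hf) (Or.inl rfl)
    rw [hψf] at this
    rcases this with h | h
    · exact ⟨1, Or.inl rfl, by rw [h, one_mul]⟩
    · exact ⟨-1, Or.inr rfl, by rw [h, neg_one_mul]⟩
  -- good patterns
  have hgood : ∀ θ : E, ∃ w : M, (θ ∈ Θ → ψ θ = θ → w = R θ) ∧ (θ ∈ Θ → ψ θ ≠ θ →
      (w = R θ ∨ w = -R θ) ∧ ∃ u₃ : M, (u₃ = R (ψ θ) ∨ u₃ = -R (ψ θ)) ∧
        Good fr τ (R f) w u₃) := by
    intro θ
    by_cases hθ : θ ∈ Θ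
    · by_cases hfix : ψ θ = θ
      · exact ⟨R θ, fun _ _ => rfl, fun _ h => absurd hfix h⟩
      · have n12 : f ≠ θ := by rintro rfl; exact hfix hψf
        have n13 : f ≠ ψ θ := by
          intro h
          exact n12 (ψ.injective (hψf.trans h))
        have n23 : θ ≠ ψ θ := fun h => hfix h.symm
        obtain ⟨u₂, u₃, hu₂, hu₃, G⟩ := C.good h2 hl hf hθ (hψΘ θ hθ) n12 n13 n23 (Or.inl rfl)
        exact ⟨u₂, fun _ h => absurd h hfix, fun _ _ => ⟨hu₂, u₃, hu₃, G⟩⟩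
    · exact ⟨0, fun h => absurd h hθ, fun h => absurd h hθ⟩
  choose R' hR'1 hR'2 using hgood
  refine ⟨R', η, hη, ?_, ?_⟩
  · intro θ hθ
    by_cases hfix : ψ θ = θ
    · exact Or.inl (hR'1 θ hθ hfix)
    · exact (hR'2 θ hθ hfix).1
  · intro θ hθ
    by_cases hfix : ψ θ = θ
    · rw [hfix, hR'1 θ hθ hfix]
      by_cases hθf : θ = f
      · rw [hθf]; exact hη1
      · obtain ⟨j, hj, hψj, hjθ, hjf⟩ := h3 θ hθ f hf hfix hψf hθf
        obtain ⟨u₂, u₃, hu₂, hu₃, G⟩ := C.good h2 hl hf hθ hj (fun h => hθf h.symm)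
          (fun h => hjf h.symm) (fun h => hjθ h.symm) (Or.inl rfl)
        have h5 := C.compare h2 hl hψ0 hψΘ hf hψf hθ hj (fun h => hθf h.symm)
          (fun h => hjf h.symm) (fun h => hjθ h.symm) hu₂ hu₃ (w₂ := u₂) (w₃ := u₃)
          (by rw [hfix]; exact hu₂) (by rw [hψj]; exact hu₃) G G η hη hη1
        rcases hu₂ with rfl | rfl
        · exact h5
        · rw [map_neg] at h5
          linear_combination -h5
    · obtain ⟨hw, u₃, hu₃, G⟩ := hR'2 θ hθ hfix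
      have hfix' : ψ (ψ θ) ≠ ψ θ := fun h => hfix (ψ.injective h)
      obtain ⟨hw', u₃', hu₃', G'⟩ := hR'2 (ψ θ) (hψΘ θ hθ) hfix'
      have n12 : f ≠ θ := by rintro rfl; exact hfix hψf
      have n13 : f ≠ ψ θ := by
        intro h
        exact n12 (ψ.injective (hψf.trans h))
      have n23 : θ ≠ ψ θ := fun h => hfix h.symm
      exact C.compare h2 hl hψ0 hψΘ hf hψf hθ (hψΘ θ hθ) n12 n13 n23 hw hu₃ hw' hu₃' G G' η hη hη1

/-- normalisation for the Frobenius lift -/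
theorem exists_normal (C : Conf fr v τ Θ θ₀ X R) (h2 : (2 : M) ≠ 0) {φ : E ≃ₐ[k] E} {q : ℕ}
    (hl : IsLoc v (φ : E →+* E) (τ : E →+* E) q) (hφ0 : φ θ₀ = θ₀)
    (hΘ : ∀ θ, φ θ ∈ Θ ↔ θ ∈ Θ) :
    ∃ (R' : E → M) (η : M), (η = 1 ∨ η = -1) ∧ (∀ θ ∈ Θ, R' θ = R θ ∨ R' θ = -R θ) ∧
      ∀ θ ∈ Θ, fr.ρ φ (R' θ) = η * R' (φ θ) := by
  classical
  obtain ⟨N, hN, ⟨f, hf, hψf⟩, h3⟩ := exists_odd_power' φ hΘ C.odd
  have hφn : ∀ (n : ℕ) θ, (φ ^ n) θ ∈ Θ ↔ θ ∈ Θ := by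
    intro n
    induction n with
    | zero => intro θ; exact Iff.rfl
    | succ n ih =>
      intro θ
      rw [pow_succ]
      show (φ ^ n) (φ θ) ∈ Θ ↔ θ ∈ Θ
      rw [ih, hΘ]
  have hφn0 : ∀ n : ℕ, (φ ^ n) θ₀ = θ₀ := by
    intro n
    induction n with
    | zero => rfl
    | succ n ih =>
      rw [pow_succ]
      show (φ ^ n) (φ θ₀) = θ₀
      rw [hφ0, ih]
  have hl' : IsLoc v ((φ ^ N : E ≃ₐ[k] E) : E →+* E) (τ : E →+* E) (q ^ N) := by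
    have h5 := hl.pow N hN.pos
    have h6 : ∀ i : ℕ, ((φ ^ i : E ≃ₐ[k] E) : E →+* E) = (φ : E →+* E) ^ i := by
      intro i
      induction i with
      | zero => rfl
      | succ i ih =>
        rw [pow_succ, pow_succ, ← ih]
        rfl
    rw [h6]
    exact h5
  obtain ⟨R1, η, hη, hR1, hR1ψ⟩ := normal_aux C h2 hl' (hφn0 N) (fun θ hθ => (hφn N θ).mpr hθ) f hf
    hψf h3
  -- inverse powers
  have hinv : ∀ (n : ℕ) θ, θ ∈ Θ → ((φ ^ n)⁻¹ : E ≃ₐ[k] E) θ ∈ Θ := by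
    intro n θ hθ
    have h5 : (φ ^ n) (((φ ^ n)⁻¹ : E ≃ₐ[k] E) θ) = θ := (φ ^ n).apply_symm_apply θ
    rw [← hφn n, h5]
    exact hθ
  have happ : ∀ (n : ℕ) θ, (φ ^ n) (((φ ^ n)⁻¹ : E ≃ₐ[k] E) θ) = θ :=
    fun n θ => (φ ^ n).apply_symm_apply θ
  let G : ℕ → E → M := fun j θ => fr.ρ (φ ^ j) (R1 (((φ ^ j)⁻¹ : E ≃ₐ[k] E) θ))
  have hG : ∀ j θ, θ ∈ Θ → G j θ = R θ ∨ G j θ = -R θ := by
    intro j θ hθ
    have h5 := C.perm (hφn0 j) (hinv j θ hθ) (by rw [happ]; exact hθ) (hR1 _ (hinv j θ hθ))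
    rw [happ] at h5
    exact h5
  have hGφ : ∀ j θ, θ ∈ Θ → fr.ρ φ (G j θ) = G (j + 1) (φ θ) := by
    intro j θ hθ
    show fr.ρ φ (fr.ρ (φ ^ j) (R1 (((φ ^ j)⁻¹ : E ≃ₐ[k] E) θ))) =
      fr.ρ (φ ^ (j + 1)) (R1 (((φ ^ (j + 1))⁻¹ : E ≃ₐ[k] E) (φ θ)))
    have h5 : ((φ ^ (j + 1))⁻¹ : E ≃ₐ[k] E) (φ θ) = ((φ ^ j)⁻¹ : E ≃ₐ[k] E) θ := by
      rw [pow_succ', mul_inv_rev]
      show ((φ ^ j)⁻¹ : E ≃ₐ[k] E) (φ⁻¹ (φ θ)) = _
      congr 1
      exact φ.symm_apply_apply θ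
    rw [h5, pow_succ', map_mul]
    rfl
  have hGN : ∀ θ ∈ Θ, G N θ = η * G 0 θ := by
    intro θ hθ
    show fr.ρ (φ ^ N) (R1 (((φ ^ N)⁻¹ : E ≃ₐ[k] E) θ)) = η * fr.ρ (φ ^ 0) (R1 (((φ ^ 0)⁻¹ : E ≃ₐ[k] E) θ))
    rw [hR1ψ _ (hinv N θ hθ), happ, pow_zero, map_one]
    rfl
  obtain ⟨m, hm⟩ := hN
  let P : E → M := fun θ => ∏ j ∈ Finset.range N, G j θ
  have hP : ∀ θ ∈ Θ, P θ = R θ ^ N ∨ P θ = -R θ ^ N := by
    intro θ hθ
    have h5 : ∀ n : ℕ, ∏ j ∈ Finset.range n, G j θ = R θ ^ n ∨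
        ∏ j ∈ Finset.range n, G j θ = -R θ ^ n := by
      intro n
      induction n with
      | zero => left; simp
      | succ n ih =>
        rw [Finset.prod_range_succ, pow_succ]
        rcases ih with h | h <;> rcases hG n θ hθ with h' | h' <;> rw [h, h']
        · left; rfl
        · right; ring
        · right; ring
        · left; ring
    exact h5 N
  have hPφ : ∀ θ ∈ Θ, fr.ρ φ (P θ) = η * P (φ θ) := by
    intro θ hθ
    have hφθ : φ θ ∈ Θ := (hΘ θ).mpr hθ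
    have h5 : fr.ρ φ (P θ) = ∏ j ∈ Finset.range N, G (j + 1) (φ θ) := by
      show fr.ρ φ (∏ j ∈ Finset.range N, G j θ) = _
      rw [map_prod]
      exact Finset.prod_congr rfl fun j _ => hGφ j θ hθ
    have h6 : (∏ j ∈ Finset.range N, G (j + 1) (φ θ)) * G 0 (φ θ) =
        (∏ j ∈ Finset.range N, G j (φ θ)) * G N (φ θ) := by
      have e1 := Finset.prod_range_succ' (fun j => G j (φ θ)) N
      have e2 := Finset.prod_range_succ (fun j => G j (φ θ)) N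
      exact e1.symm.trans e2
    rw [hGN _ hφθ] at h6
    have h0 : G 0 (φ θ) ≠ 0 := by
      rcases hG 0 _ hφθ with h | h
      · rw [h]; exact C.ne _ hφθ
      · rw [h]; exact neg_ne_zero.mpr (C.ne _ hφθ)
    rw [h5]
    apply mul_right_cancel₀ h0
    rw [h6]
    show (∏ j ∈ Finset.range N, G j (φ θ)) * (η * G 0 (φ θ)) =
      η * (∏ j ∈ Finset.range N, G j (φ θ)) * G 0 (φ θ)
    ring
  refine ⟨fun θ => P θ / (R θ ^ 2) ^ m, η, hη, ?_, ?_⟩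
  · intro θ hθ
    have hne := C.ne θ hθ
    have h7 : R θ ^ N = R θ * (R θ ^ 2) ^ m := by rw [hm, pow_succ, pow_mul]; ring
    rcases hP θ hθ with h | h
    · left
      show P θ / (R θ ^ 2) ^ m = R θ
      rw [h, h7, mul_div_cancel_right₀ _ (pow_ne_zero _ (pow_ne_zero _ hne))]
    · right
      show P θ / (R θ ^ 2) ^ m = -R θ
      rw [h, h7, neg_div, mul_div_cancel_right₀ _ (pow_ne_zero _ (pow_ne_zero _ hne))]
  · intro θ hθ
    show fr.ρ φ (P θ / (R θ ^ 2) ^ m) = η * (P (φ θ) / (R (φ θ) ^ 2) ^ m)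
    rw [map_div₀, hPφ θ hθ, map_pow]
    have h8 : fr.ρ φ (R θ ^ 2) = R (φ θ) ^ 2 := by
      rw [C.sq θ hθ, C.sq _ ((hΘ θ).mpr hθ), map_sub, C.fix φ hφ0, fr.semilin, map_inv₀, map_sub,
        hφ0]
    rw [h8, mul_div_assoc]

end

end Pool.Agent.WMS
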