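import Mathlib
import Pool.Agent.WMS.Fixed2
import Pool.Agent.WMS.ExistsY
import Pool.Agent.WMS.Perm2
import Pool.Agent.WMS.LocalF
import Pool.Agent.WMS.ExtendD

/-!
The normalised square roots `R θ` of `1 / (x - θ₀) - 1 / (θ - θ₀)`, for the root `θ₀` found by the
theorem on the fixed root, are permuted up to one common sign by the decomposition group.
-/

set_option autoImplicit false

namespace Pool.Agent.WMS

open Polynomial Pool.Agent.Helper36 Pool.Agent.Helper19.Sec IsLocalRing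

section

variable {k K Ω : Type*} [Field k] [Field K] [Field Ω] [Algebra k K] [Algebra K Ω] [Algebra k Ω]
  [IsScalarTower k K Ω] [CharZero k] [Algebra.IsAlgebraic K Ω] [IsAlgClosed Ω]

/-- the elements `R θ` before normalisation -/
lemma exists_R (s : SectionData k K Ω) {Γ₀ : Type*} [LinearOrderedCommGroupWithZero Γ₀]
    {v : Valuation (algebraicClosure k Ω) Γ₀}
    {φ τ : algebraicClosure k Ω ≃ₐ[k] algebraicClosure k Ω} {q : ℕ}
    (hl : IsLoc v (φ : algebraicClosure k Ω →+* algebraicClosure k Ω)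
      (τ : algebraicClosure k Ω →+* algebraicClosure k Ω) q)
    (f : k[X]) (hf : f.Separable) (c : k)
    (hc : c ≠ 0) (x y : K) (hx : Transcendental k x)
    (hxy : algebraMap k K c * y ^ 2 = aeval x f)
    (hsep : ∀ θ θ' : algebraicClosure k Ω, aeval θ f = 0 → aeval θ' f = 0 → θ ≠ θ' →
      v (θ - θ') = 1)
    (θ₀ : algebraicClosure k Ω) (hθ₀ : aeval θ₀ f = 0) (hτθ₀ : τ θ₀ = θ₀)
    (hneg : ∀ θ' : algebraicClosure k Ω, aeval θ' f = 0 → θ' ≠ θ₀ → ∀ r : univCover k K Ω,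
        r ^ 2 = (algebraMap K (univCover k K Ω) x - incl k K Ω θ₀) *
          (algebraMap K (univCover k K Ω) x - incl k K Ω θ') → s.act τ r = - r)
    (θ : algebraicClosure k Ω) (hθ : aeval θ f = 0) (hne : θ ≠ θ₀) (hτθ : τ θ = θ) :
    ∃ R : univCover k K Ω, IsR x θ₀ θ R ∧ R ≠ 0 ∧ s.act τ R = - R := by
  obtain ⟨r, -, hr, -⟩ := exists_sqrt f hf c hc x y hx hxy ⊥ (bot_unram (k := k)).1 bot_unram.2
    θ₀ θ hθ₀ hθ
  set xM : univCover k K Ω := algebraMap K (univCover k K Ω) x with hxM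
  have hx0 := xsub_ne x hx θ₀
  have hx1 := xsub_ne x hx θ
  rw [← hxM] at hx0 hx1
  have hd : θ - θ₀ ≠ 0 := sub_ne_zero.mpr hne
  have hdι : incl k K Ω (θ - θ₀) ≠ 0 := by rwa [_root_.map_ne_zero]
  have hr0 : r ≠ 0 := by
    rintro rfl
    rw [zero_pow (by norm_num)] at hr
    exact mul_ne_zero hx0 hx1 hr.symm
  obtain ⟨κ, hκ⟩ := IsAlgClosed.exists_pow_nat_eq (-(θ - θ₀)⁻¹) (n := 2) (by norm_num)
  have hκ0 : κ ≠ 0 := by
    rintro rfl
    rw [zero_pow (by norm_num)] at hκ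
    exact (neg_ne_zero.mpr (inv_ne_zero hd)) hκ.symm
  have hκι : incl k K Ω κ ≠ 0 := by rwa [_root_.map_ne_zero]
  have hvκ : v κ = 1 := by
    have h6 : v κ ^ 2 = 1 := by
      rw [← map_pow, hκ, Valuation.map_neg, map_inv₀, hsep θ θ₀ hθ hθ₀ hne, inv_one]
    exact (pow_eq_one_iff_of_nonneg zero_le (by norm_num)).mp h6
  have hτκ : τ κ = κ := by
    refine hl.fix_root 1 hvκ ?_
    show τ (κ ^ 2 ^ 1) = κ ^ 2 ^ 1
    rw [pow_one, hκ, map_neg, map_inv₀, map_sub, hτθ, hτθ₀]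
  refine ⟨incl k K Ω κ * r / (xM - incl k K Ω θ₀), ?_, ?_, ?_⟩
  · show (incl k K Ω κ * r / (xM - incl k K Ω θ₀)) ^ 2 = (xM - incl k K Ω θ₀)⁻¹ - incl k K Ω ((θ - θ₀)⁻¹)
    have h4 : incl k K Ω ((θ - θ₀)⁻¹) = (incl k K Ω (θ - θ₀))⁻¹ := map_inv₀ _ _
    have h5 : incl k K Ω θ = incl k K Ω θ₀ + incl k K Ω (θ - θ₀) := by
      rw [← map_add]; congr 1; ring
    rw [div_pow, mul_pow, hr, ← map_pow, hκ, map_neg, h4]
    rw [h5] at hx1 ⊢
    field_simp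
    ring
  · exact div_ne_zero (mul_ne_zero hκι hr0) hx0
  · rw [map_div₀, map_mul, map_sub, act_incl, act_incl, hτκ, hτθ₀, hneg θ hθ hne r hr]
    have h7 : s.act τ xM = xM := act_alg s τ x
    rw [h7]
    ring

/-- the configuration -/
theorem exists_conf (s : SectionData k K Ω) {Γ₀ : Type*} [LinearOrderedCommGroupWithZero Γ₀]
    {v : Valuation (algebraicClosure k Ω) Γ₀}
    {φ τ : algebraicClosure k Ω ≃ₐ[k] algebraicClosure k Ω} {q : ℕ}
    (hl : IsLoc v (φ : algebraicClosure k Ω →+* algebraicClosure k Ω)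
      (τ : algebraicClosure k Ω →+* algebraicClosure k Ω) q)
    (f : k[X]) (hf : f.Separable) (heven : Even f.natDegree) (h6 : 6 ≤ f.natDegree) (c : k)
    (hc : c ≠ 0) (x y : K) (hx : Transcendental k x)
    (hxy : algebraMap k K c * y ^ 2 = aeval x f)
    (hint : ∀ θ : algebraicClosure k Ω, aeval θ f = 0 → v θ ≤ 1)
    (hsep : ∀ θ θ' : algebraicClosure k Ω, aeval θ f = 0 → aeval θ' f = 0 → θ ≠ θ' →
      v (θ - θ') = 1)
    (hτc : ∀ w : algebraicClosure k Ω,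
      w ^ 2 = algebraMap k (algebraicClosure k Ω) (c / f.leadingCoeff) → τ w = -w) :
    ∃ (θ₀ : algebraicClosure k Ω) (R : algebraicClosure k Ω → univCover k K Ω)
      (η : univCover k K Ω), aeval θ₀ f = 0 ∧ φ θ₀ = θ₀ ∧ (η = 1 ∨ η = -1) ∧
      (∀ θ : algebraicClosure k Ω, aeval θ f = 0 → θ ≠ θ₀ → R θ ≠ 0 ∧ IsR x θ₀ θ (R θ) ∧
        s.act φ (R θ) = η * R (φ θ) ∧ s.act τ (R θ) = - R θ) ∧
      ∀ θ' : algebraicClosure k Ω, aeval θ' f = 0 → θ' ≠ θ₀ → ∀ r : univCover k K Ω,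
        r ^ 2 = (algebraMap K (univCover k K Ω) x - incl k K Ω θ₀) *
          (algebraMap K (univCover k K Ω) x - incl k K Ω θ') → s.act τ r = - r := by
  classical
  obtain ⟨θ₀, hθ₀, hφθ₀, hneg⟩ := exists_fixed_root2 s hl f hf heven h6 c hc x y hx hxy hint hsep
    hτc
  have hf0 : f ≠ 0 := by
    rintro rfl
    rw [natDegree_zero] at h6
    omega
  have hτroot : ∀ θ : (algebraicClosure k Ω), aeval θ f = 0 → τ θ = θ := by
    intro θ hθ
    by_contra hne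
    have h1 : aeval (τ θ) f = 0 := by rw [aeval_algHom_apply, hθ, map_zero]
    have h2 := hsep (τ θ) θ h1 hθ hne
    exact absurd (hl.hτ θ (hint θ hθ)) (by
      show ¬ v (τ θ - θ) < 1
      rw [h2]
      exact lt_irrefl _)
  have hφroot : ∀ θ : (algebraicClosure k Ω), aeval (φ θ) f = 0 ↔ aeval θ f = 0 := by
    intro θ
    rw [aeval_algHom_apply, _root_.map_eq_zero]
  set fE : (algebraicClosure k Ω)[X] := f.map (algebraMap k (algebraicClosure k Ω)) with hfE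
  have hfE0 : fE ≠ 0 := Polynomial.map_ne_zero hf0
  have hsplits : fE.Splits := IsAlgClosed.splits fE
  have hnodup : fE.roots.Nodup := nodup_roots (hf.map)
  set Θ' : Finset (algebraicClosure k Ω) := fE.roots.toFinset with hΘ'
  have hmemΘ' : ∀ θ : (algebraicClosure k Ω), θ ∈ Θ' ↔ aeval θ f = 0 := by
    intro θ
    rw [hΘ', Multiset.mem_toFinset, mem_roots hfE0, IsRoot.def, hfE, eval_map_algebraMap]
  have hcard' : Θ'.card = f.natDegree := by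
    rw [hΘ', Multiset.toFinset_card_of_nodup hnodup, ← hsplits.natDegree_eq_card_roots, hfE,
      natDegree_map]
  set Θ : Finset (algebraicClosure k Ω) := Θ'.erase θ₀ with hΘ
  have hmemΘ : ∀ θ : (algebraicClosure k Ω), θ ∈ Θ ↔ aeval θ f = 0 ∧ θ ≠ θ₀ := by
    intro θ
    rw [hΘ, Finset.mem_erase, hmemΘ', and_comm]
  have hcard : Θ.card = f.natDegree - 1 := by
    rw [hΘ, Finset.card_erase_of_mem ((hmemΘ' θ₀).mpr hθ₀), hcard']
  have hex : ∀ θ : algebraicClosure k Ω, ∃ R : univCover k K Ω, aeval θ f = 0 → θ ≠ θ₀ →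
      IsR x θ₀ θ R ∧ R ≠ 0 ∧ s.act τ R = - R := by
    intro θ
    by_cases h : aeval θ f = 0 ∧ θ ≠ θ₀
    · obtain ⟨R, hR⟩ := exists_R s hl f hf c hc x y hx hxy hsep θ₀ hθ₀ (hτroot θ₀ hθ₀) hneg θ h.1
        h.2 (hτroot θ h.1)
      exact ⟨R, fun _ _ => hR⟩
    · exact ⟨0, fun h1 h2 => absurd ⟨h1, h2⟩ h⟩
  choose R hR using hex
  set xM : univCover k K Ω := algebraMap K (univCover k K Ω) x with hxM
  have hIsR : ∀ θ ∈ Θ, ∀ u : univCover k K Ω, (u = R θ ∨ u = -R θ) → IsR x θ₀ θ u := by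
    intro θ hθ u hu
    have h1 := (hR θ ((hmemΘ θ).mp hθ).1 ((hmemΘ θ).mp hθ).2).1
    rcases hu with rfl | rfl
    · exact h1
    · unfold IsR at h1 ⊢
      rw [neg_sq]
      exact h1
  have C : Conf (frameOf s) v τ Θ θ₀ (xM - incl k K Ω θ₀)⁻¹ R := by
    refine ⟨?_, ?_, ?_, ?_, ?_, ?_, ?_, ?_, ?_, ?_, ?_⟩
    · rw [hcard]
      obtain ⟨m, hm⟩ := heven
      exact ⟨m - 1, by omega⟩
    · rw [hmemΘ]
      exact fun h => h.2 rfl
    · intro σ hσ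
      show s.act σ ((xM - incl k K Ω θ₀)⁻¹) = (xM - incl k K Ω θ₀)⁻¹
      have h7 : s.act σ xM = xM := act_alg s σ x
      rw [map_inv₀, map_sub, h7, act_incl, hσ]
    · intro θ hθ
      exact hIsR θ hθ _ (Or.inl rfl)
    · intro θ hθ
      exact (hR θ ((hmemΘ θ).mp hθ).1 ((hmemΘ θ).mp hθ).2).2.2
    · intro θ hθ
      exact (hR θ ((hmemΘ θ).mp hθ).1 ((hmemΘ θ).mp hθ).2).2.1
    · exact hτroot θ₀ hθ₀
    · intro θ hθ
      exact hτroot θ ((hmemΘ θ).mp hθ).1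
    · intro θ hθ
      exact hsep θ θ₀ ((hmemΘ θ).mp hθ).1 hθ₀ ((hmemΘ θ).mp hθ).2
    · intro θ hθ θ' hθ' hne
      exact hsep θ θ' ((hmemΘ θ).mp hθ).1 ((hmemΘ θ').mp hθ').1 hne
    · intro θ₁ h₁ θ₂ h₂ θ₃ h₃ n12 n13 n23 u₁ u₂ u₃ hu₁ hu₂ hu₃
      exact exists_y f hf c hc x y hx hxy θ₀ θ₁ θ₂ θ₃ hθ₀ ((hmemΘ _).mp h₁).1 ((hmemΘ _).mp h₂).1
        ((hmemΘ _).mp h₃).1 ((hmemΘ _).mp h₁).2 ((hmemΘ _).mp h₂).2 ((hmemΘ _).mp h₃).2 n12 n13
        u₁ u₂ u₃ (hIsR _ h₁ _ hu₁) (hIsR _ h₂ _ hu₂) (hIsR _ h₃ _ hu₃)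
  have h2 : (2 : univCover k K Ω) ≠ 0 := by
    have : incl k K Ω (algebraMap k (algebraicClosure k Ω) 2) ≠ 0 := by
      rw [_root_.map_ne_zero, _root_.map_ne_zero]
      exact two_ne_zero
    rwa [map_ofNat, map_ofNat] at this
  have hgal : IsGalois k (algebraicClosure k Ω) := inferInstance
  obtain ⟨R', η, hη, hR', hφR'⟩ := exists_normal C h2 hl hφθ₀ (by
    intro θ
    rw [hmemΘ, hmemΘ, hφroot]
    refine and_congr_right fun _ => not_congr ?_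
    constructor
    · intro h
      exact φ.injective (h.trans hφθ₀.symm)
    · rintro rfl
      exact hφθ₀)
  refine ⟨θ₀, R', η, hθ₀, hφθ₀, hη, ?_, hneg⟩
  intro θ hθ hne
  have hmem : θ ∈ Θ := (hmemΘ θ).mpr ⟨hθ, hne⟩
  refine ⟨C.ne' hmem (hR' θ hmem), hIsR θ hmem _ (hR' θ hmem), hφR' θ hmem, ?_⟩
  exact C.neg' hmem (hR' θ hmem)

end

end Pool.Agent.WMS
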