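import Mathlib
import Pool.Agent.WMS.Setup
import Pool.Agent.WMS.Layer

/-!
Uniqueness of the root: if a section respects a place of the first layer at the root `b`, then the
inertia element changes the sign of all square roots of `(x - b)(x - θ)`.
-/

set_option autoImplicit false

namespace Pool.Agent.WMS

open Polynomial Pool.Agent.Helper36 Pool.Agent.Helper19.Sec

lemma fix_ratio {E S Γ₀ : Type*} [Field E] [Field S] [LinearOrderedCommGroupWithZero Γ₀]
    (κ : E →+* S) (w : Valuation S Γ₀) (htriv : ∀ e, e ≠ 0 → w (κ e) = 1)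
    (hres : ∀ z, w z ≤ 1 → ∃ e, w (z - κ e) < 1) (g : S →+* S) (hg : ∀ z, w (g z) = w z)
    (τ : E → E) (hτ : ∀ e, g (κ e) = κ (τ e)) (h2 : (2 : E) ≠ 0) (q : S) (hq : w q = 1)
    (hgq : g q = q ∨ g q = -q) (ε : E) (hq2 : w (q ^ 2 - κ ε) < 1)
    (hε : ∀ c, c ^ 2 = ε → τ c = c) : g q = q := by
  rcases hgq with h | h
  · exact h
  · exfalso
    obtain ⟨c, hc⟩ := hres q hq.le
    have hcle : w (κ c) ≤ 1 := by
      by_cases h0 : c = 0
      · rw [h0, map_zero, map_zero]; exact zero_le
      · rw [htriv c h0]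
    have h3 : w (q ^ 2 - κ (c ^ 2)) < 1 := by
      have : q ^ 2 - κ (c ^ 2) = (q - κ c) * (q + κ c) := by rw [map_pow]; ring
      rw [this, map_mul]
      have h4 : w (q + κ c) ≤ 1 := (w.map_add q (κ c)).trans (max_le hq.le hcle)
      calc w (q - κ c) * w (q + κ c) ≤ w (q - κ c) * 1 := by gcongr
        _ < 1 := by rw [mul_one]; exact hc
    have hsmall : ∀ e : E, w (κ e) < 1 → e = 0 := by
      intro e he
      by_contra h0
      rw [htriv e h0] at he
      exact lt_irrefl _ he
    have h5 : c ^ 2 = ε := by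
      rw [← sub_eq_zero]
      apply hsmall
      have : κ (c ^ 2 - ε) = (q ^ 2 - κ ε) - (q ^ 2 - κ (c ^ 2)) := by rw [map_sub]; ring
      rw [this]
      exact w.map_sub_lt hq2 h3
    have h6 : w (-q - κ c) < 1 := by
      have h7 : g (q - κ c) = -q - κ c := by rw [map_sub, h, hτ, hε c h5]
      rw [← h7, hg]
      exact hc
    have h8 : c = 0 := by
      have h9 : 2 * c = 0 := by
        apply hsmall
        have : κ (2 * c) = -((q - κ c) + (-q - κ c)) := by rw [map_mul, map_ofNat]; ring
        rw [this, Valuation.map_neg]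
        exact w.map_add_lt hc h6
      rcases mul_eq_zero.mp h9 with h10 | h10
      · exact absurd h10 h2
      · exact h10
    rw [h8, map_zero, sub_zero, hq] at hc
    exact lt_irrefl _ hc

section

variable {k K Ω : Type*} [Field k] [Field K] [Field Ω] [Algebra k K] [Algebra K Ω] [Algebra k Ω]
  [IsScalarTower k K Ω] [CharZero k] [Algebra.IsAlgebraic K Ω] [IsAlgClosed Ω]

theorem neg_of_place (s : SectionData k K Ω) {Γ₀ : Type*} [LinearOrderedCommGroupWithZero Γ₀]
    {v : Valuation (algebraicClosure k Ω) Γ₀}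
    {φ τ : algebraicClosure k Ω ≃ₐ[k] algebraicClosure k Ω} {q : ℕ}
    (hl : IsLoc v (φ : algebraicClosure k Ω →+* algebraicClosure k Ω)
      (τ : algebraicClosure k Ω →+* algebraicClosure k Ω) q)
    (f : k[X]) (hf : f.Separable) (heven : Even f.natDegree) (h6 : 6 ≤ f.natDegree) (c : k)
    (hc : c ≠ 0) (x y : K) (hx : Transcendental k x)
    (hxy : algebraMap k K c * y ^ 2 = aeval x f)
    (hint : ∀ θ : algebraicClosure k Ω, aeval θ f = 0 → v θ ≤ 1)
    (hsep : ∀ θ θ' : algebraicClosure k Ω, aeval θ f = 0 → aeval θ' f = 0 → θ ≠ θ' →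
      v (θ - θ') = 1)
    (hτc : ∀ w : algebraicClosure k Ω,
      w ^ 2 = algebraMap k (algebraicClosure k Ω) (c / f.leadingCoeff) → τ w = -w)
    (b : algebraicClosure k Ω) (hb : aeval b f = 0)
    (S : Subfield (univCover k K Ω)) (hcS : ∀ e, incl k K Ω e ∈ S)
    (hxS : algebraMap K (univCover k K Ω) x ∈ S)
    (hrS : ∀ (a a' : algebraicClosure k Ω) (r : univCover k K Ω), aeval a f = 0 →
      aeval a' f = 0 → r ^ 2 = (algebraMap K (univCover k K Ω) x - incl k K Ω a) *
        (algebraMap K (univCover k K Ω) x - incl k K Ω a') → r ∈ S)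
    (w : Valuation S (WithZero (Multiplicative ℤ)))
    (h1 : ∀ z : S, (∃ e, incl k K Ω e = z) → z ≠ 0 → w z = 1)
    (h2 : ∀ z : S, w z ≤ 1 → ∃ c : S, (∃ e, incl k K Ω e = c) ∧ w (z - c) < 1)
    (h3 : ∀ z : S,
      (z : univCover k K Ω) = algebraMap K (univCover k K Ω) x - incl k K Ω b → w z < 1)
    (h4 : ∀ z : S, ∃ z' : S, (z' : univCover k K Ω) = s.act τ z ∧ w z' = w z)
    (θ : algebraicClosure k Ω) (hθ : aeval θ f = 0) (hne : θ ≠ b) (r : univCover k K Ω)
    (hr : r ^ 2 = (algebraMap K (univCover k K Ω) x - incl k K Ω b) *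
        (algebraMap K (univCover k K Ω) x - incl k K Ω θ)) : s.act τ r = - r := by
  classical
  set xM : univCover k K Ω := algebraMap K (univCover k K Ω) x with hxM
  set yM : univCover k K Ω := algebraMap K (univCover k K Ω) y with hyM
  have hx0 : ∀ e, xM - incl k K Ω e ≠ 0 := fun e => xsub_ne x hx e
  have hτroot : ∀ θ : (algebraicClosure k Ω), aeval θ f = 0 → τ θ = θ := by
    intro θ hθ
    by_contra hne
    have h1 : aeval (τ θ) f = 0 := by rw [aeval_algHom_apply, hθ, map_zero]
    have h2 := hsep (τ θ) θ h1 hθ hne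
    exact absurd (hl.hτ θ (hint θ hθ)) (by
      show ¬ v (τ θ - θ) < 1
      rw [h2]
      exact lt_irrefl _)
  have hτx : s.act τ xM = xM := act_alg s τ x
  -- the endomorphism of `S`
  have hgS : ∀ z : S, s.act τ z ∈ S := by
    intro z
    obtain ⟨z', hz', -⟩ := h4 z
    rw [← hz']
    exact z'.2
  let g : S →+* S := ((s.act τ : univCover k K Ω →+* univCover k K Ω).comp S.subtype).codRestrict S
    hgS
  have hg : ∀ z, ((g z : S) : univCover k K Ω) = s.act τ z := fun z => rfl
  have hwg : ∀ z, w (g z) = w z := by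
    intro z
    obtain ⟨z', hz', h⟩ := h4 z
    rw [← h]
    congr 1
    exact Subtype.ext ((hg z).trans hz'.symm)
  let κ : algebraicClosure k Ω →+* S := (incl k K Ω).codRestrict S hcS
  have hκ : ∀ e, ((κ e : S) : univCover k K Ω) = incl k K Ω e := fun e => rfl
  have htriv : ∀ e, e ≠ 0 → w (κ e) = 1 := by
    intro e he
    exact h1 (κ e) ⟨e, rfl⟩ ((map_ne_zero κ).mpr he)
  have hres : ∀ z, w z ≤ 1 → ∃ e, w (z - κ e) < 1 := by
    intro z hz
    obtain ⟨c, ⟨e, he⟩, h⟩ := h2 z hz
    have : c = κ e := Subtype.ext he.symm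
    exact ⟨e, by rw [← this]; exact h⟩
  let xS : S := ⟨xM, hxS⟩
  have hwx : ∀ e, e ≠ b → w (xS - κ e) = 1 ∧ w (xS - κ e - κ (b - e)) < 1 := by
    intro e he
    have h5 : w (xS - κ b) < 1 := h3 _ rfl
    have h6 : xS - κ e = (xS - κ b) + κ (b - e) := by rw [map_sub]; ring
    have h7 : w (κ (b - e)) = 1 := htriv _ (sub_ne_zero.mpr (Ne.symm he))
    refine ⟨?_, ?_⟩
    · rw [h6, Valuation.map_add_eq_of_lt_right _ (by rw [h7]; exact h5), h7]
    · rw [h6, add_sub_cancel_right]
      exact h5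
  -- the square roots
  have hsqrt : ∀ a : algebraicClosure k Ω, ∃ r : univCover k K Ω, aeval a f = 0 → a ≠ b →
      r ^ 2 = (xM - incl k K Ω b) * (xM - incl k K Ω a) := by
    intro a
    by_cases ha : aeval a f = 0
    · obtain ⟨r, -, hr, -⟩ := exists_sqrt f hf c hc x y hx hxy ⊥ (bot_unram (k := k)).1 bot_unram.2
        b a hb ha
      exact ⟨r, fun _ _ => hr⟩
    · exact ⟨0, fun h => absurd h ha⟩
  choose ρ hρ using hsqrt
  have hρ0 : ∀ a, aeval a f = 0 → a ≠ b → ρ a ≠ 0 := by
    intro a ha hab h0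
    have := hρ a ha hab
    rw [h0, zero_pow (by norm_num)] at this
    exact mul_ne_zero (hx0 b) (hx0 a) this.symm
  have hpm : ∀ a, aeval a f = 0 → a ≠ b → s.act τ (ρ a) = ρ a ∨ s.act τ (ρ a) = -ρ a := by
    intro a ha hab
    apply sq_eq_sq_iff_eq_or_eq_neg.mp
    rw [← map_pow, hρ a ha hab, map_mul, map_sub, map_sub, act_incl, act_incl, hτx, hτroot b hb,
      hτroot a ha]
  -- ratios
  have hratio : ∀ a a', aeval a f = 0 → a ≠ b → aeval a' f = 0 → a' ≠ b →
      s.act τ (ρ a / ρ a') = ρ a / ρ a' := by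
    intro a a' ha hab ha' hab'
    have hS1 : ρ a / ρ a' ∈ S := S.div_mem (hrS b a _ hb ha (hρ a ha hab))
      (hrS b a' _ hb ha' (hρ a' ha' hab'))
    have hq2 : (ρ a / ρ a') ^ 2 = (xM - incl k K Ω a) / (xM - incl k K Ω a') := by
      rw [div_pow, hρ a ha hab, hρ a' ha' hab', mul_div_mul_left _ _ (hx0 b)]
    let Q : S := ⟨ρ a / ρ a', hS1⟩
    have hQ2 : Q ^ 2 = (xS - κ a) / (xS - κ a') := Subtype.ext hq2
    obtain ⟨e1, e2⟩ := hwx a hab
    obtain ⟨e3, e4⟩ := hwx a' hab'
    have hwQ : w Q = 1 := by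
      have h7 : w Q ^ 2 = 1 := by rw [← map_pow, hQ2, map_div₀, e1, e3, div_one]
      exact (pow_eq_one_iff_of_nonneg zero_le (by norm_num)).mp h7
    have hba : b - a ≠ 0 := sub_ne_zero.mpr (Ne.symm hab)
    have hba' : b - a' ≠ 0 := sub_ne_zero.mpr (Ne.symm hab')
    have h8 : g Q = Q := by
      refine fix_ratio κ w htriv hres g hwg τ (fun e => ?_) two_ne_zero Q hwQ ?_
        ((b - a) / (b - a')) ?_ ?_
      · exact Subtype.ext (act_incl s τ e)
      · have h9 : g Q = Q ∨ g Q = -Q := by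
          have h10 : s.act τ (ρ a / ρ a') = ρ a / ρ a' ∨ s.act τ (ρ a / ρ a') = -(ρ a / ρ a') := by
            rw [map_div₀]
            rcases hpm a ha hab with h | h <;> rcases hpm a' ha' hab' with h' | h' <;> rw [h, h']
            · left; rfl
            · right; rw [div_neg]
            · right; rw [neg_div]
            · left; rw [neg_div_neg_eq]
          rcases h10 with h | h
          · exact Or.inl (Subtype.ext h)
          · exact Or.inr (Subtype.ext h)
        exact h9
      · have h11 : Q ^ 2 - κ ((b - a) / (b - a')) =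
            ((xS - κ a - κ (b - a)) * κ (b - a') - κ (b - a) * (xS - κ a' - κ (b - a'))) /
              ((xS - κ a') * κ (b - a')) := by
          have n1 : xS - κ a' ≠ 0 := by
            intro h0
            rw [h0, map_zero] at e3
            exact zero_ne_one e3
          have n2 : κ (b - a') ≠ 0 := (map_ne_zero κ).mpr hba'
          rw [hQ2, map_div₀]
          field_simp
          ring
        rw [h11, map_div₀, map_mul, e3, htriv _ hba', one_mul, div_one]
        apply w.map_sub_lt
        · rw [map_mul, htriv _ hba', mul_one]; exact e2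
        · rw [map_mul, htriv _ hba, one_mul]; exact e4
      · intro e he
        have hve : v e = 1 := by
          have h12 : v e ^ 2 = 1 := by
            rw [← map_pow, he, map_div₀, hsep b a hb ha (Ne.symm hab),
              hsep b a' hb ha' (Ne.symm hab'), div_one]
          exact (pow_eq_one_iff_of_nonneg zero_le (by norm_num)).mp h12
        refine hl.fix_root 1 hve ?_
        show τ (e ^ 2 ^ 1) = e ^ 2 ^ 1
        rw [pow_one, he, map_div₀, map_sub, map_sub, hτroot b hb, hτroot a ha, hτroot a' ha']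
    exact congrArg Subtype.val h8
  -- the common sign
  have hr' : r = ρ θ ∨ r = -ρ θ := by
    apply sq_eq_sq_iff_eq_or_eq_neg.mp
    rw [hr, hρ θ hθ hne]
  suffices h : s.act τ (ρ θ) = -ρ θ by
    rcases hr' with rfl | rfl
    · exact h
    · rw [map_neg, h]
  rcases hpm θ hθ hne with hplus | hminus
  · exfalso
    have hall : ∀ a, aeval a f = 0 → a ≠ b → s.act τ (ρ a) = ρ a := by
      intro a ha hab
      have h5 := hratio a θ ha hab hθ hne
      rw [map_div₀, hplus, div_left_inj' (hρ0 θ hθ hne)] at h5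
      exact h5
    -- the product
    have hf0 : f ≠ 0 := by
      rintro rfl
      rw [natDegree_zero] at h6
      omega
    set fE : (algebraicClosure k Ω)[X] := f.map (algebraMap k (algebraicClosure k Ω)) with hfE
    have hfE0 : fE ≠ 0 := Polynomial.map_ne_zero hf0
    have hsplits : fE.Splits := IsAlgClosed.splits fE
    have hnodup : fE.roots.Nodup := nodup_roots (hf.map)
    set Θ : Finset (algebraicClosure k Ω) := fE.roots.toFinset with hΘ
    have hmemΘ : ∀ θ : (algebraicClosure k Ω), θ ∈ Θ ↔ aeval θ f = 0 := by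
      intro θ
      rw [hΘ, Multiset.mem_toFinset, mem_roots hfE0, IsRoot.def, hfE, eval_map_algebraMap]
    have hcard : Θ.card = f.natDegree := by
      rw [hΘ, Multiset.toFinset_card_of_nodup hnodup, ← hsplits.natDegree_eq_card_roots, hfE,
        natDegree_map]
    have hfx : incl k K Ω (algebraMap k (algebraicClosure k Ω) f.leadingCoeff) *
        ∏ θ ∈ Θ, (xM - incl k K Ω θ) = eval₂ (incl k K Ω) xM fE := by
      have h1 := hsplits.eq_prod_roots
      conv_rhs => rw [h1]
      rw [eval₂_mul, eval₂_C, ← coe_eval₂RingHom, map_multiset_prod, Multiset.map_map]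
      congr 1
      · rw [hfE, leadingCoeff_map]
      · rw [Finset.prod_eq_multiset_prod, hΘ, Multiset.toFinset_val, hnodup.dedup]
        congr 1
        apply Multiset.map_congr rfl
        intro w _
        simp [coe_eval₂RingHom]
    have hfx2 : eval₂ (incl k K Ω) xM fE =
        incl k K Ω (algebraMap k (algebraicClosure k Ω) c) * yM ^ 2 := by
      have hcomp : (incl k K Ω).comp (algebraMap k (algebraicClosure k Ω)) =
          (algebraMap K (univCover k K Ω)).comp (algebraMap k K) := by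
        apply RingHom.ext
        intro e
        apply Subtype.ext
        exact IsScalarTower.algebraMap_apply k K Ω e
      rw [hfE, eval₂_map, hcomp, ← hom_eval₂, hyM, ← map_pow, ← RingHom.comp_apply, hcomp,
        RingHom.comp_apply, ← map_mul, hxy]
      rfl
    obtain ⟨m, hm⟩ := heven
    have hlead : f.leadingCoeff ≠ 0 := leadingCoeff_ne_zero.mpr hf0
    obtain ⟨γ, hγ⟩ := IsAlgClosed.exists_pow_nat_eq
      (algebraMap k (algebraicClosure k Ω) (c / f.leadingCoeff)) (n := 2) (by norm_num)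
    have hleadM : incl k K Ω (algebraMap k (algebraicClosure k Ω) f.leadingCoeff) ≠ 0 := by
      rw [_root_.map_ne_zero, _root_.map_ne_zero]
      exact hlead
    have hprodx : ∏ θ ∈ Θ, (xM - incl k K Ω θ) = incl k K Ω γ ^ 2 * yM ^ 2 := by
      apply mul_left_cancel₀ hleadM
      rw [hfx, hfx2, ← map_pow (incl k K Ω) γ, hγ, ← mul_assoc, ← map_mul, ← map_mul,
        mul_div_cancel₀ _ hlead]
    have hbΘ : b ∈ Θ := (hmemΘ b).mpr hb
    -- `(ι γ * y * (x - b) ^ (m - 1)) ^ 2 = (∏ ρ) ^ 2`
    have h13 : (incl k K Ω γ * yM * (xM - incl k K Ω b) ^ (m - 1)) ^ 2 =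
        (∏ a ∈ Θ.erase b, ρ a) ^ 2 := by
      rw [← Finset.prod_pow]
      have h14 : ∏ a ∈ Θ.erase b, ρ a ^ 2 =
          ∏ a ∈ Θ.erase b, ((xM - incl k K Ω b) * (xM - incl k K Ω a)) := by
        apply Finset.prod_congr rfl
        intro a ha
        rw [Finset.mem_erase] at ha
        exact hρ a ((hmemΘ a).mp ha.2) ha.1
      rw [h14, Finset.prod_mul_distrib, Finset.prod_const, Finset.card_erase_of_mem hbΘ, hcard]
      have h15 := Finset.mul_prod_erase Θ (fun a => xM - incl k K Ω a) hbΘ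
      have h16 : f.natDegree - 1 = 2 * (m - 1) + 1 := by omega
      rw [h16, mul_pow, mul_pow, ← hprodx, ← h15]
      ring
    have h17 := sq_eq_sq_iff_eq_or_eq_neg.mp h13
    have h18 : s.act τ (∏ a ∈ Θ.erase b, ρ a) = ∏ a ∈ Θ.erase b, ρ a := by
      rw [map_prod]
      apply Finset.prod_congr rfl
      intro a ha
      rw [Finset.mem_erase] at ha
      exact hall a ((hmemΘ a).mp ha.2) ha.1
    have h19 : s.act τ (incl k K Ω γ * yM * (xM - incl k K Ω b) ^ (m - 1)) =
        -(incl k K Ω γ * yM * (xM - incl k K Ω b) ^ (m - 1)) := by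
      have h20 : s.act τ yM = yM := act_alg s τ y
      rw [map_mul, map_mul, map_pow, map_sub, act_incl, act_incl, hτx, hτroot b hb, h20,
        hτc γ hγ, map_neg]
      ring
    have hP0 : ∏ a ∈ Θ.erase b, ρ a ≠ 0 := by
      apply Finset.prod_ne_zero_iff.mpr
      intro a ha
      rw [Finset.mem_erase] at ha
      exact hρ0 a ((hmemΘ a).mp ha.2) ha.1
    have h2M : (2 : univCover k K Ω) ≠ 0 := by
      have : incl k K Ω (algebraMap k (algebraicClosure k Ω) 2) ≠ 0 := by
        rw [_root_.map_ne_zero, _root_.map_ne_zero]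
        exact two_ne_zero
      rwa [map_ofNat, map_ofNat] at this
    apply hP0
    have h21 : ∏ a ∈ Θ.erase b, ρ a = -∏ a ∈ Θ.erase b, ρ a := by
      rcases h17 with h | h
      · rw [h, h18] at h19
        exact h19
      · rw [h, map_neg, h18] at h19
        rw [neg_neg] at h19
        exact h19.symm
    have h22 : 2 * ∏ a ∈ Θ.erase b, ρ a = 0 := by linear_combination h21
    rcases mul_eq_zero.mp h22 with h | h
    · exact absurd h h2M
    · exact h
  · exact hminus

/-- two roots cannot both have the sign property -/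
theorem root_unique (s : SectionData k K Ω)
    {τ : algebraicClosure k Ω ≃ₐ[k] algebraicClosure k Ω}
    (f : k[X]) (hf : f.Separable) (h6 : 6 ≤ f.natDegree) (c : k)
    (hc : c ≠ 0) (x y : K) (hx : Transcendental k x)
    (hxy : algebraMap k K c * y ^ 2 = aeval x f)
    (hτroot : ∀ θ : (algebraicClosure k Ω), aeval θ f = 0 → τ θ = θ)
    (a b : algebraicClosure k Ω) (ha : aeval a f = 0) (hb : aeval b f = 0)
    (hna : ∀ θ : algebraicClosure k Ω, aeval θ f = 0 → θ ≠ a → ∀ r : univCover k K Ω,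
        r ^ 2 = (algebraMap K (univCover k K Ω) x - incl k K Ω a) *
          (algebraMap K (univCover k K Ω) x - incl k K Ω θ) → s.act τ r = - r)
    (hnb : ∀ θ : algebraicClosure k Ω, aeval θ f = 0 → θ ≠ b → ∀ r : univCover k K Ω,
        r ^ 2 = (algebraMap K (univCover k K Ω) x - incl k K Ω b) *
          (algebraMap K (univCover k K Ω) x - incl k K Ω θ) → s.act τ r = - r) : b = a := by
  classical
  by_contra hab
  set xM : univCover k K Ω := algebraMap K (univCover k K Ω) x with hxM
  have hx0 : ∀ e, xM - incl k K Ω e ≠ 0 := fun e => xsub_ne x hx e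
  have hf0 : f ≠ 0 := by
    rintro rfl
    rw [natDegree_zero] at h6
    omega
  set fE : (algebraicClosure k Ω)[X] := f.map (algebraMap k (algebraicClosure k Ω)) with hfE
  have hfE0 : fE ≠ 0 := Polynomial.map_ne_zero hf0
  have hsplits : fE.Splits := IsAlgClosed.splits fE
  have hnodup : fE.roots.Nodup := nodup_roots (hf.map)
  have hmemΘ : ∀ θ : (algebraicClosure k Ω), θ ∈ fE.roots.toFinset ↔ aeval θ f = 0 := by
    intro θ
    rw [Multiset.mem_toFinset, mem_roots hfE0, IsRoot.def, hfE, eval_map_algebraMap]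
  have hcard : fE.roots.toFinset.card = f.natDegree := by
    rw [Multiset.toFinset_card_of_nodup hnodup, ← hsplits.natDegree_eq_card_roots, hfE,
      natDegree_map]
  obtain ⟨θ, hθ, hθa, hθb⟩ : ∃ θ, aeval θ f = 0 ∧ θ ≠ a ∧ θ ≠ b := by
    have h1 : 1 < (fE.roots.toFinset.erase a).card := by
      rw [Finset.card_erase_of_mem ((hmemΘ a).mpr ha), hcard]
      omega
    obtain ⟨θ, hθ, hne⟩ := Finset.exists_mem_ne h1 b
    rw [Finset.mem_erase] at hθ
    exact ⟨θ, (hmemΘ θ).mp hθ.2, hθ.1, hne⟩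
  obtain ⟨r1, -, hr1, -⟩ := exists_sqrt f hf c hc x y hx hxy ⊥ (bot_unram (k := k)).1 bot_unram.2
    a θ ha hθ
  obtain ⟨r2, -, hr2, -⟩ := exists_sqrt f hf c hc x y hx hxy ⊥ (bot_unram (k := k)).1 bot_unram.2
    b θ hb hθ
  obtain ⟨r3, -, hr3, -⟩ := exists_sqrt f hf c hc x y hx hxy ⊥ (bot_unram (k := k)).1 bot_unram.2
    a b ha hb
  have n1 := hna θ hθ hθa r1 hr1
  have n2 := hnb θ hθ hθb r2 hr2
  have n3 := hna b hb hab r3 hr3
  have h5 : (r1 * r2) ^ 2 = (r3 * (xM - incl k K Ω θ)) ^ 2 := by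
    rw [mul_pow, mul_pow, hr1, hr2, hr3]
    ring
  have h30 : r3 ≠ 0 := by
    rintro rfl
    rw [zero_pow (by norm_num)] at hr3
    exact mul_ne_zero (hx0 a) (hx0 b) hr3.symm
  have h7 : s.act τ (r3 * (xM - incl k K Ω θ)) = -(r3 * (xM - incl k K Ω θ)) := by
    have h8 : s.act τ xM = xM := act_alg s τ x
    rw [map_mul, map_sub, act_incl, h8, hτroot θ hθ, n3]
    ring
  have h9 : s.act τ (r1 * r2) = r1 * r2 := by
    rw [map_mul, n1, n2]
    ring
  have h2M : (2 : univCover k K Ω) ≠ 0 := by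
    have : incl k K Ω (algebraMap k (algebraicClosure k Ω) 2) ≠ 0 := by
      rw [_root_.map_ne_zero, _root_.map_ne_zero]
      exact two_ne_zero
    rwa [map_ofNat, map_ofNat] at this
  have h10 : r3 * (xM - incl k K Ω θ) = -(r3 * (xM - incl k K Ω θ)) := by
    rcases sq_eq_sq_iff_eq_or_eq_neg.mp h5 with h | h
    · rw [← h, h9] at h7
      rw [← h]
      exact h7
    · have h11 : r3 * (xM - incl k K Ω θ) = -(r1 * r2) := by rw [h, neg_neg]
      rw [h11, map_neg, h9] at h7
      rw [h11]
      exact h7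
  have h12 : 2 * (r3 * (xM - incl k K Ω θ)) = 0 := by linear_combination h10
  rcases mul_eq_zero.mp h12 with h | h
  · exact h2M h
  · rcases mul_eq_zero.mp h with h | h
    · exact h30 h
    · exact hx0 θ h

end

end Pool.Agent.WMS
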