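import Mathlib
import Pool.Agent.Helper36.SecConv
import Pool.Agent.WMS.Setup
import Pool.Agent.WMS.Layer
import Pool.Agent.WMS.PlaceW
import Pool.Agent.WMS.Uniq
import Pool.Agent.WMS.Names

/-!
The theorem on the first layer of the universal cover.
-/

set_option autoImplicit false

namespace Pool.Agent.WMS

open Polynomial Pool.Agent.Helper36 Pool.Agent.Helper19.Sec IsLocalRing

/-- a place on a subfield, invariant under a set of automorphisms -/
def PlaceOn {E M : Type*} [Field E] [Field M] (S : Subfield M) (ι : E →+* M) (x₁ : M)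
    (G : Set (M ≃+* M)) : Prop :=
  ∃ w : Valuation S (WithZero (Multiplicative ℤ)),
    (∀ z : S, (∃ e, ι e = z) → z ≠ 0 → w z = 1) ∧
    (∀ z : S, w z ≤ 1 → ∃ c : S, (∃ e, ι e = c) ∧ w (z - c) < 1) ∧
    (∀ z : S, (z : M) = x₁ → w z < 1) ∧
    ∀ g ∈ G, ∀ z : S, ∃ z' : S, (z' : M) = g z ∧ w z' = w z

section

variable {A k K Ω : Type*} [CommRing A] [IsDomain A] [IsDiscreteValuationRing A]
    [Finite (ResidueField A)] [Field k] [CharZero k] [Algebra A k]
    [IsFractionRing A k] [Field K] [Field Ω] [Algebra k K] [Algebra K Ω] [Algebra k Ω]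
    [IsScalarTower k K Ω] [IsAlgClosed Ω] [Algebra.IsAlgebraic K Ω]

theorem main (h2 : IsUnit (2 : A)) (f : A[X]) (heven : Even f.natDegree)
    (h6 : 6 ≤ f.natDegree) (hlead : IsUnit f.leadingCoeff)
    (hsep : (f.map (residue A)).Separable)
    (ϖ : A) (hϖ : Irreducible ϖ) (u : A) (hu : IsUnit u) (n : ℕ) (hn : Odd n) (x y : K)
    (hx : Transcendental k x)
    (hxy : algebraMap k K (algebraMap A k (u * ϖ ^ n)) * y ^ 2 =
      aeval x (f.map (algebraMap A k)))
    (V : ValuationSubring (algebraicClosure k Ω))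
    (hV : ∀ a : k, algebraMap k (algebraicClosure k Ω) a ∈ V ↔ ∃ b : A, algebraMap A k b = a)
    (s : SectionData k K Ω) :
    ∃ θ₀ : algebraicClosure k Ω, aeval θ₀ (f.map (algebraMap A k)) = 0 ∧
      (∀ σ : algebraicClosure k Ω ≃ₐ[k] algebraicClosure k Ω, (∀ z, z ∈ V ↔ σ z ∈ V) → σ θ₀ = θ₀) ∧
      PlaceOn (Subfield.closure (Set.range (incl k K Ω) ∪
        {algebraMap K (univCover k K Ω) x, algebraMap K (univCover k K Ω) y} ∪
        {z | ∃ a b : algebraicClosure k Ω, aeval a (f.map (algebraMap A k)) = 0 ∧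
          aeval b (f.map (algebraMap A k)) = 0 ∧
          z ^ 2 = (algebraMap K (univCover k K Ω) x - incl k K Ω a) *
            (algebraMap K (univCover k K Ω) x - incl k K Ω b)})) (incl k K Ω)
        (algebraMap K (univCover k K Ω) x - incl k K Ω θ₀)
        {g | ∃ σ : algebraicClosure k Ω ≃ₐ[k] algebraicClosure k Ω, (∀ z, z ∈ V ↔ σ z ∈ V) ∧
          g = s.act σ} ∧
      ∀ b : algebraicClosure k Ω, aeval b (f.map (algebraMap A k)) = 0 →
      PlaceOn (Subfield.closure (Set.range (incl k K Ω) ∪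
        {algebraMap K (univCover k K Ω) x, algebraMap K (univCover k K Ω) y} ∪
        {z | ∃ a b : algebraicClosure k Ω, aeval a (f.map (algebraMap A k)) = 0 ∧
          aeval b (f.map (algebraMap A k)) = 0 ∧
          z ^ 2 = (algebraMap K (univCover k K Ω) x - incl k K Ω a) *
            (algebraMap K (univCover k K Ω) x - incl k K Ω b)})) (incl k K Ω)
        (algebraMap K (univCover k K Ω) x - incl k K Ω b)
        {g | ∃ σ : algebraicClosure k Ω ≃ₐ[k] algebraicClosure k Ω, (∀ z, z ∈ V ↔ σ z ∈ V) ∧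
          g = s.act σ} → b = θ₀ := by
  classical
  set fk : k[X] := f.map (algebraMap A k) with hfk
  have hinjk : Function.Injective (algebraMap A k) := IsFractionRing.injective A k
  have hdegk : fk.natDegree = f.natDegree := natDegree_map_eq_of_injective hinjk f
  obtain ⟨t, ht⟩ := IsAlgClosed.exists_pow_nat_eq
    (algebraMap k (algebraicClosure k Ω) (algebraMap A k ϖ)) (n := 2) (by norm_num)
  obtain ⟨φ, τ, hl, hτt⟩ := exists_localV h2 ϖ hϖ t ht V hV
  obtain ⟨hsepk, hint, hsepv⟩ := roots_facts V hV f hlead hsep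
  have hc : algebraMap A k (u * ϖ ^ n) ≠ 0 := by
    rw [Ne, map_eq_zero_iff _ hinjk]
    exact mul_ne_zero hu.ne_zero (pow_ne_zero _ hϖ.ne_zero)
  obtain ⟨θ₀, R, η, hθ₀, hφθ₀, hη, hR, hneg⟩ := exists_conf s hl fk hsepk (by rw [hdegk]; exact heven)
    (by rw [hdegk]; exact h6) (algebraMap A k (u * ϖ ^ n)) hc x y hx hxy hint hsepv
    (fun w hw => tau_c V hV hl f hlead ϖ hϖ u hu n hn t ht hτt w hw)
  set xM : univCover k K Ω := algebraMap K (univCover k K Ω) x with hxM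
  -- the decomposition group
  have hD : ∀ σ : algebraicClosure k Ω ≃ₐ[k] algebraicClosure k Ω, (∀ z, z ∈ V ↔ σ z ∈ V) →
      σ θ₀ = θ₀ ∧ ∃ ζ : univCover k K Ω, (ζ = 1 ∨ ζ = -1) ∧
      ∀ θ, aeval θ fk = 0 → θ ≠ θ₀ → s.act σ (R θ) = ζ * R (σ θ) := by
    intro σ hσ
    exact extend_D (frameOf s) V hV ϖ hϖ t ht φ τ hl hτt f hlead hsep θ₀ hθ₀ hφθ₀
      ((xM - incl k K Ω θ₀)⁻¹) R (fun θ h1 h2 => (hR θ h1 h2).1) (by
        intro σ hσ
        show s.act σ ((xM - incl k K Ω θ₀)⁻¹) = (xM - incl k K Ω θ₀)⁻¹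
        have h7 : s.act σ xM = xM := act_alg s σ x
        rw [map_inv₀, map_sub, h7, act_incl, hσ])
      (fun θ h1 h2 => (hR θ h1 h2).2.1) η hη (fun θ h1 h2 => (hR θ h1 h2).2.2.1)
      (fun θ h1 h2 => (hR θ h1 h2).2.2.2) σ hσ
  refine ⟨θ₀, hθ₀, fun σ hσ => (hD σ hσ).1, ?_, ?_⟩
  swap
  · -- uniqueness of the root
    rintro b hb ⟨w, h1, h2, h3, h4⟩
    have hτroot : ∀ θ : (algebraicClosure k Ω), aeval θ fk = 0 → τ θ = θ := by
      intro θ hθ
      by_contra hne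
      have h1 : aeval (τ θ) fk = 0 := by rw [aeval_algHom_apply, hθ, map_zero]
      have h2 := hsepv (τ θ) θ h1 hθ hne
      exact absurd (hl.hτ θ (hint θ hθ)) (by
        show ¬ V.valuation (τ θ - θ) < 1
        rw [h2]
        exact lt_irrefl _)
    have hτD : ∀ z, z ∈ V ↔ τ z ∈ V := by
      intro z
      rw [← V.valuation_le_one_iff, ← V.valuation_le_one_iff]
      have h5 : V.valuation (τ z) = V.valuation z := hl.vτ z
      rw [h5]
    have hnb := neg_of_place s hl fk hsepk (by rw [hdegk]; exact heven) (by rw [hdegk]; exact h6)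
      (algebraMap A k (u * ϖ ^ n)) hc x y hx hxy hint hsepv
      (fun w hw => tau_c V hV hl f hlead ϖ hϖ u hu n hn t ht hτt w hw) b hb _
      (fun e => Subfield.subset_closure (Or.inl (Or.inl ⟨e, rfl⟩)))
      (Subfield.subset_closure (Or.inl (Or.inr (Or.inl rfl))))
      (fun a a' r ha ha' hr => Subfield.subset_closure (Or.inr ⟨a, a', ha, ha', hr⟩))
      w h1 h2 h3 (h4 (s.act τ) ⟨τ, hτD, rfl⟩)
    exact root_unique s fk hsepk (by rw [hdegk]; exact h6) (algebraMap A k (u * ϖ ^ n)) hc x y hx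
      hxy hτroot θ₀ b hθ₀ hb hneg hnb
  rw [layer_eq fk hsepk (by rw [hdegk]; exact heven) (by rw [hdegk]; exact h6)
    (algebraMap A k (u * ϖ ^ n)) hc x y hx hxy θ₀ hθ₀ R (fun θ h1 h2 => (hR θ h1 h2).2.1)]
  -- the index set
  have hf0 : fk ≠ 0 := by
    intro h0
    rw [h0, natDegree_zero] at hdegk
    omega
  set fE : (algebraicClosure k Ω)[X] := fk.map (algebraMap k (algebraicClosure k Ω)) with hfE
  have hfE0 : fE ≠ 0 := Polynomial.map_ne_zero hf0
  have hsplits : fE.Splits := IsAlgClosed.splits fE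
  have hnodup : fE.roots.Nodup := nodup_roots (hsepk.map)
  have hmemΘ : ∀ θ : (algebraicClosure k Ω), θ ∈ fE.roots.toFinset ↔ aeval θ fk = 0 := by
    intro θ
    rw [Multiset.mem_toFinset, mem_roots hfE0, IsRoot.def, hfE, eval_map_algebraMap]
  have hcard : fE.roots.toFinset.card = fk.natDegree := by
    rw [Multiset.toFinset_card_of_nodup hnodup, ← hsplits.natDegree_eq_card_roots, hfE,
      natDegree_map]
  have hfin : Finite {θ : algebraicClosure k Ω // aeval θ fk = 0 ∧ θ ≠ θ₀} := by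
    refine Finite.of_injective (β := {θ // θ ∈ fE.roots.toFinset})
      (fun i => ⟨i.1, (hmemΘ _).mpr i.2.1⟩) ?_
    intro i j hij
    exact Subtype.ext (congrArg (fun z : {θ // θ ∈ fE.roots.toFinset} => (z : algebraicClosure k Ω)) hij)
  have hnon : Nonempty {θ : algebraicClosure k Ω // aeval θ fk = 0 ∧ θ ≠ θ₀} := by
    obtain ⟨θ, hθ, hne⟩ := Finset.exists_mem_ne (s := fE.roots.toFinset)
      (by rw [hcard, hdegk]; omega) θ₀
    exact ⟨⟨θ, (hmemΘ θ).mp hθ, hne⟩⟩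
  letI : Fintype {θ : algebraicClosure k Ω // aeval θ fk = 0 ∧ θ ≠ θ₀} := Fintype.ofFinite _
  have hxne : ∀ e, xM - incl k K Ω e ≠ 0 := fun e => xsub_ne x hx e
  have htr := transc_of_not_mem (incl k K Ω) (x := (xM - incl k K Ω θ₀)⁻¹) (by
    rintro ⟨e, he⟩
    apply hxne (e⁻¹ + θ₀)
    rw [map_add, map_inv₀, he, inv_inv]
    ring)
  obtain ⟨w, hw1, hw2, hw3, hw4⟩ := exists_place (incl k K Ω) ((xM - incl k K Ω θ₀)⁻¹) htr
    (fun i : {θ : algebraicClosure k Ω // aeval θ fk = 0 ∧ θ ≠ θ₀} => (i.1 - θ₀)⁻¹) (by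
      intro i j hij
      exact Subtype.ext (sub_left_injective (inv_injective hij)))
    (fun i => R i) (fun i => (hR i.1 i.2.1 i.2.2).2.1)
  refine ⟨w, ?_, ?_, ?_, ?_⟩
  · rintro ⟨z, hz⟩ ⟨e, he⟩ hz0
    subst he
    refine hw1 e hz ?_
    rintro rfl
    exact hz0 (Subtype.ext (map_zero _))
  · intro z hz
    obtain ⟨e, he, h⟩ := hw3 z hz
    exact ⟨⟨incl k K Ω e, he⟩, ⟨e, rfl⟩, h⟩
  · rintro ⟨z, hz⟩ hzx
    have hXmem : (xM - incl k K Ω θ₀)⁻¹ ∈ layer (incl k K Ω) ((xM - incl k K Ω θ₀)⁻¹)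
      (fun i : {θ : algebraicClosure k Ω // aeval θ fk = 0 ∧ θ ≠ θ₀} => R i) := layer_X _ _ _
    have h5 := hw2 hXmem
    have h6 : w ⟨z, hz⟩ * w ⟨_, hXmem⟩ = 1 := by
      rw [← map_mul]
      have : (⟨z, hz⟩ * ⟨_, hXmem⟩ : layer (incl k K Ω) ((xM - incl k K Ω θ₀)⁻¹)
        (fun i : {θ : algebraicClosure k Ω // aeval θ fk = 0 ∧ θ ≠ θ₀} => R i)) = 1 := by
        apply Subtype.ext
        show z * (xM - incl k K Ω θ₀)⁻¹ = 1
        rw [show z = xM - incl k K Ω θ₀ from hzx, mul_inv_cancel₀ (hxne _)]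
      rw [this, map_one]
    by_contra hlt
    push Not at hlt
    have h7 : 1 < w ⟨z, hz⟩ * w ⟨_, hXmem⟩ := one_lt_mul_of_le_of_lt hlt h5
    rw [h6] at h7
    exact lt_irrefl _ h7
  · rintro g ⟨σ, hσ, rfl⟩ ⟨z, hz⟩
    obtain ⟨hσ0, ζ, hζ, hRσ⟩ := hD σ hσ
    have hroot : ∀ θ, aeval (σ θ) fk = 0 ↔ aeval θ fk = 0 := by
      intro θ
      rw [aeval_algHom_apply, _root_.map_eq_zero]
    have hne : ∀ θ, σ θ ≠ θ₀ ↔ θ ≠ θ₀ := by
      intro θ
      refine not_congr ⟨fun h => σ.injective (h.trans hσ0.symm), ?_⟩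
      rintro rfl
      exact hσ0
    let π : Equiv.Perm {θ : algebraicClosure k Ω // aeval θ fk = 0 ∧ θ ≠ θ₀} :=
      Equiv.Perm.subtypePerm (σ.toEquiv : Equiv.Perm (algebraicClosure k Ω)) (by
        intro θ
        show (aeval (σ θ) fk = 0 ∧ σ θ ≠ θ₀) ↔ _
        rw [hroot, hne])
    obtain ⟨h8, h9⟩ := hw4 (s.act σ) σ.toRingEquiv π ζ hζ (fun e => act_incl s σ e)
      (fun i => hRσ i.1 i.2.1 i.2.2) z hz
    exact ⟨⟨_, h8⟩, rfl, h9⟩

end

/-- the theorem with the short names -/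
theorem main_names {A k K Ω : Type*} [CommRing A] [IsDomain A] [IsDiscreteValuationRing A]
    [Finite (ResidueField A)] (h2 : IsUnit (2 : A)) [Field k] [CharZero k] [Algebra A k]
    [IsFractionRing A k] [Field K] [Field Ω] [Algebra k K] [Algebra K Ω] [Algebra k Ω]
    [IsScalarTower k K Ω] [IsAlgClosure K Ω] (f : A[X]) (heven : Even f.natDegree)
    (h6 : 6 ≤ f.natDegree) (hlead : IsUnit f.leadingCoeff)
    (hsep : (f.map (residue A)).Separable)
    (ϖ : A) (hϖ : Irreducible ϖ) (u : A) (hu : IsUnit u) (n : ℕ) (hn : Odd n) (x y : K)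
    (hx : Transcendental k x)
    (hxy : algebraMap k K (algebraMap A k (u * ϖ ^ n)) * y ^ 2 =
      aeval x (f.map (algebraMap A k)))
    (V : ValuationSubring (ConstClosure k Ω))
    (hV : ∀ a : k, algebraMap k (ConstClosure k Ω) a ∈ V ↔ ∃ b : A, algebraMap A k b = a)
    (s : PiOneSection k K Ω) :
    ∃ θ : ConstClosure k Ω, aeval θ (f.map (algebraMap A k)) = 0 ∧
      (∀ σ : AbsGal k Ω, InDecomp V σ → σ θ = θ) ∧
      (∃ w : Valuation (firstLayer Ω (f.map (algebraMap A k)) x y) (WithZero (Multiplicative ℤ)),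
        IsPointAt w θ ∧ ∀ σ : AbsGal k Ω, InDecomp V σ → Respects w (s.hom σ)) ∧
      ∀ b : ConstClosure k Ω, aeval b (f.map (algebraMap A k)) = 0 →
        (∃ w : Valuation (firstLayer Ω (f.map (algebraMap A k)) x y) (WithZero (Multiplicative ℤ)),
          IsPointAt w b ∧ ∀ σ : AbsGal k Ω, InDecomp V σ → Respects w (s.hom σ)) → b = θ := by
  have hclosed : IsAlgClosed Ω := IsAlgClosure.isAlgClosed K
  have halg : Algebra.IsAlgebraic K Ω := IsAlgClosure.isAlgebraic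
  obtain ⟨θ, hθ, hfix, hP, hU⟩ := main h2 f heven h6 hlead hsep ϖ hϖ u hu n hn x y hx hxy V hV s.toData
  refine ⟨θ, hθ, hfix, ?_⟩
  have hset : (Set.range (incl k K Ω) ∪
        {algebraMap K (univCover k K Ω) x, algebraMap K (univCover k K Ω) y} ∪
        {z | ∃ a b : algebraicClosure k Ω, aeval a (f.map (algebraMap A k)) = 0 ∧
          aeval b (f.map (algebraMap A k)) = 0 ∧
          z ^ 2 = (algebraMap K (univCover k K Ω) x - incl k K Ω a) *
            (algebraMap K (univCover k K Ω) x - incl k K Ω b)} : Set (univCover k K Ω)) =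
      ({z : UnivField k K Ω | IsConst z} ∪
    {algebraMap K (UnivField k K Ω) x, algebraMap K (UnivField k K Ω) y} ∪
      {z : UnivField k K Ω | IsRootSqrt (f.map (algebraMap A k)) x z} : Set (UnivField k K Ω)) := by
    congr 1
    · congr 1
      ext z
      constructor
      · rintro ⟨e, rfl⟩
        exact ⟨e, rfl⟩
      · rintro ⟨e, he⟩
        exact ⟨e, Subtype.ext he.symm⟩
    · ext z
      constructor
      · rintro ⟨a, b, ha, hb, hz⟩
        exact ⟨a, b, ha, hb, congrArg Subtype.val hz⟩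
      · rintro ⟨a, b, ha, hb, hz⟩
        exact ⟨a, b, ha, hb, Subtype.ext hz⟩
  rw [hset] at hP hU
  obtain ⟨w, hw1, hw2, hw3, hw4⟩ := hP
  refine ⟨⟨w, ⟨?_, ?_, ?_⟩, ?_⟩, ?_⟩
  · rintro z ⟨e, he⟩ hz0
    exact hw1 z ⟨e, Subtype.ext he.symm⟩ hz0
  · intro z hz
    obtain ⟨c, ⟨e, he⟩, h⟩ := hw2 z hz
    exact ⟨c, ⟨e, (congrArg Subtype.val he).symm⟩, h⟩
  · intro z hz
    exact hw3 z (Subtype.ext hz)
  · intro σ hσ z
    exact hw4 (s.toData.act σ) ⟨σ, hσ, rfl⟩ z
  · rintro b hb ⟨w, hw, hD⟩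
    refine hU b hb ⟨w, ?_, ?_, ?_, ?_⟩
    · rintro z ⟨e, he⟩ hz0
      exact hw.trivial z ⟨e, (congrArg Subtype.val he).symm⟩ hz0
    · intro z hz
      obtain ⟨c, ⟨e, he⟩, h⟩ := hw.residue z hz
      exact ⟨c, ⟨e, Subtype.ext he.symm⟩, h⟩
    · intro z hz
      exact hw.centre z (congrArg Subtype.val hz)
    · rintro g ⟨σ, hσ, rfl⟩ z
      exact hD σ hσ z

end Pool.Agent.WMS
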