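import Mathlib
import Pool.Agent.Helper36.SecNames
import Pool.Agent.WMS.Names

/-!
Short definitions for the theorem on the first layer of the universal cover.
-/

set_option autoImplicit false

namespace Pool.Agent.WMS

open Polynomial Pool.Agent.Helper36 IsLocalRing

section Generic

variable {M : Type*} [Field M]

/-- A valuation of the subfield `L` of `M` with values in `ℤ ∪ {∞}` (written multiplicatively). -/
abbrev ZVal (L : Subfield M) : Type _ := Valuation L (WithZero (Multiplicative ℤ))

/-- `w` is trivial on the elements of `L` in `C` -/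
def TrivialOn {L : Subfield M} (w : ZVal L) (C : Set M) : Prop :=
  ∀ z : L, (z : M) ∈ C → z ≠ 0 → w z = 1

/-- every element of the valuation ring of `w` is congruent to an element of `C` modulo the maximal
ideal -/
def ResiduesIn {L : Subfield M} (w : ZVal L) (C : Set M) : Prop :=
  ∀ z : L, w z ≤ 1 → ∃ c : L, (c : M) ∈ C ∧ w (z - c) < 1

/-- `w` is positive (additively) on the elements of `L` in `T` -/
def PositiveOn {L : Subfield M} (w : ZVal L) (T : Set M) : Prop :=
  ∀ z : L, (z : M) ∈ T → w z < 1

/-- `g` maps `L` to itself and respects `w` -/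
def Preserves {L : Subfield M} (w : ZVal L) (g : M → M) : Prop :=
  ∀ z : L, ∃ z' : L, (z' : M) = g z ∧ w z' = w z

/-- `L` has a discrete valuation `w` which is trivial on `C`, has residue field `C`, is positive on
`T`, and is respected by the maps in `G`. -/
def HasPlace (L : Subfield M) (C T : Set M) (G : Set (M → M)) : Prop :=
  ∃ w : ZVal L, TrivialOn w C ∧ ResiduesIn w C ∧ PositiveOn w T ∧ ∀ g ∈ G, Preserves w g

end Generic

section

variable {k K Ω : Type*} [Field k] [Field K] [Field Ω] [Algebra k K] [Algebra K Ω] [Algebra k Ω]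
  [IsScalarTower k K Ω]

/-- the (one) element `x - a` of `K~` -/
def minusSet (x : K) (a : ConstClosure k Ω) : Set (UnivField k K Ω) :=
  {z | z.val = algebraMap K Ω x - a.val}

/-- the maps `s(σ)`, `σ` in `D`, of `K~` to itself -/
def images (s : PiOneSection k K Ω) (D : Set (AbsGal k Ω)) :
    Set (UnivField k K Ω → UnivField k K Ω) :=
  {g | ∃ σ ∈ D, ∀ z, g z = s.hom σ z}

/-- The first layer has a discrete valuation `w`, trivial on `kbar`, with residue field `kbar`,
and with `w (x - a) > 0` (additively), such that the automorphisms `s(σ)`, `σ` in `D`, map the first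
layer to itself and respect `w`. -/
def FollowsPoint (f : k[X]) (x y : K) (s : PiOneSection k K Ω) (D : Set (AbsGal k Ω))
    (a : ConstClosure k Ω) : Prop :=
  HasPlace (firstLayer Ω f x y) {z | IsConst z} (minusSet x a) (images s D)

theorem followsPoint_iff (f : k[X]) (x y : K) (s : PiOneSection k K Ω) (D : Set (AbsGal k Ω))
    (a : ConstClosure k Ω) : FollowsPoint f x y s D a ↔
      ∃ w : Valuation (firstLayer Ω f x y) (WithZero (Multiplicative ℤ)),
        IsPointAt w a ∧ ∀ σ ∈ D, Respects w (s.hom σ) := by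
  constructor
  · rintro ⟨w, h1, h2, h3, h4⟩
    exact ⟨w, ⟨h1, h2, h3⟩, fun σ hσ => h4 (fun z => s.hom σ z) ⟨σ, hσ, fun _ => rfl⟩⟩
  · rintro ⟨w, h, h4⟩
    refine ⟨w, h.trivial, h.residue, h.centre, ?_⟩
    rintro g ⟨σ, hσ, hg⟩ z
    obtain ⟨z', h5, h6⟩ := h4 σ hσ z
    exact ⟨z', h5.trans (hg _).symm, h6⟩

/-- the decomposition group of the valuation ring `V` in the absolute Galois group -/
def decompGroup (V : ValuationSubring (ConstClosure k Ω)) : Set (AbsGal k Ω) :=
  {σ | ∀ z, z ∈ V ↔ σ z ∈ V}

/-- `V ∩ k = A` -/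
def LiesOver (A : Type*) [CommRing A] [Algebra A k] (V : ValuationSubring (ConstClosure k Ω)) :
    Prop :=
  ∀ a : k, algebraMap k (ConstClosure k Ω) a ∈ V ↔ ∃ b : A, algebraMap A k b = a

end

/-- `f` has even degree at least `6`, invertible leading coefficient and separable reduction -/
def GoodPoly {A : Type*} [CommRing A] [IsLocalRing A] (f : A[X]) : Prop :=
  Even f.natDegree ∧ 6 ≤ f.natDegree ∧ IsUnit f.leadingCoeff ∧ (f.map (residue A)).Separable

/-- `c = u * ϖ ^ n` with `u` invertible, `ϖ` irreducible and `n` odd -/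
def OddValued {A : Type*} [CommRing A] (c : A) : Prop :=
  ∃ (u ϖ : A) (n : ℕ), IsUnit u ∧ Irreducible ϖ ∧ Odd n ∧ c = u * ϖ ^ n

/-- `c * y ^ 2 = f(x)`, with `x` transcendental over `k` -/
def OnTwist (k : Type*) {A K : Type*} [CommRing A] [Field k] [Algebra A k] [Field K] [Algebra k K]
    (f : A[X]) (c : A) (x y : K) : Prop :=
  Transcendental k x ∧
    algebraMap k K (algebraMap A k c) * y ^ 2 = aeval x (f.map (algebraMap A k))

end Pool.Agent.WMS
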