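import Pool.Agent.WMS.PlaceHom
import Pool.Agent.WMS.PlaceRest

/-!
The homomorphism of `E(X, r_1, ..., r_n)` into Laurent series at infinity, and the place of
`PlaceW`.
-/

set_option autoImplicit false
set_option linter.unusedSectionVars false

namespace Pool.Agent.WMS

open Polynomial

variable {E M I : Type*} [Field E] [CharZero E] [IsAlgClosed E] [Field M]

/-- the field `E(X, r_i : i in S)` -/
def LS (ι : E →+* M) (X : M) (r : I → M) (S : Finset I) : Subfield M :=
  Subfield.closure (Set.range ι ∪ {X} ∪ r '' (S : Set I))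

theorem LS_const (ι : E →+* M) (X : M) (r : I → M) (S : Finset I) (e : E) : ι e ∈ LS ι X r S :=
  Subfield.subset_closure (Or.inl (Or.inl ⟨e, rfl⟩))

theorem LS_X (ι : E →+* M) (X : M) (r : I → M) (S : Finset I) : X ∈ LS ι X r S :=
  Subfield.subset_closure (Or.inl (Or.inr rfl))

theorem LS_r (ι : E →+* M) (X : M) (r : I → M) (S : Finset I) {i : I} (hi : i ∈ S) :
    r i ∈ LS ι X r S :=
  Subfield.subset_closure (Or.inr ⟨i, hi, rfl⟩)

theorem T_ne_C (b e : E) :
    (HahnSeries.C b : LaurentSeries E) + HahnSeries.single (1 : ℤ) (1 : E) ≠ HahnSeries.C e := by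
  intro h
  have h1 := congrArg (fun f : LaurentSeries E => f.coeff 1) h
  simp only [HahnSeries.coeff_add] at h1
  have e1 : (HahnSeries.C b : LaurentSeries E).coeff 1 = 0 :=
    HahnSeries.coeff_single_of_ne one_ne_zero
  have e2 : (HahnSeries.C e : LaurentSeries E).coeff 1 = 0 :=
    HahnSeries.coeff_single_of_ne one_ne_zero
  rw [e1, e2, HahnSeries.coeff_single_same, zero_add] at h1
  exact one_ne_zero h1

theorem Tinv_ne_C (e : E) :
    (HahnSeries.single (-2 : ℤ) (1 : E) : LaurentSeries E) ≠ HahnSeries.C e := by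
  intro h
  have h1 : (HahnSeries.single (-2 : ℤ) (1 : E) : LaurentSeries E).coeff (-2) =
      (HahnSeries.C e : LaurentSeries E).coeff (-2) := by rw [h]
  have e2 : (HahnSeries.C e : LaurentSeries E).coeff (-2) = 0 :=
    HahnSeries.coeff_single_of_ne (by norm_num)
  rw [e2, HahnSeries.coeff_single_same] at h1
  exact one_ne_zero h1

theorem sq_ne_T (z : LaurentSeries E) : z ^ 2 ≠ HahnSeries.single (1 : ℤ) (1 : E) := by
  intro h
  have hz : z ≠ 0 := by
    intro h0
    rw [h0] at h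
    have h1 := congrArg (fun f : LaurentSeries E => f.coeff 1) h
    simp at h1
  have h1 := congrArg HahnSeries.order h
  rw [pow_two, HahnSeries.order_mul hz hz, HahnSeries.order_single one_ne_zero] at h1
  omega

theorem ps_X : (HahnSeries.ofPowerSeries ℤ E PowerSeries.X : LaurentSeries E) =
    HahnSeries.single (1 : ℤ) (1 : E) := HahnSeries.ofPowerSeries_X

theorem ps_C (c : E) : (HahnSeries.ofPowerSeries ℤ E (PowerSeries.C c) : LaurentSeries E) =
    HahnSeries.C c := HahnSeries.ofPowerSeries_C c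

/-- square roots at the finite points -/
theorem exists_rho (b c : E) (hbc : b ≠ c) : ∃ ρ : LaurentSeries E,
    ρ ^ 2 = (HahnSeries.C b : LaurentSeries E) + HahnSeries.single (1 : ℤ) (1 : E) -
      HahnSeries.C c := by
  obtain ⟨d, hd⟩ := IsAlgClosed.exists_pow_nat_eq (b - c) (n := 2) two_pos
  obtain ⟨s, -, hs⟩ := exists_sqrt (b - c)⁻¹
  refine ⟨HahnSeries.C d * HahnSeries.ofPowerSeries ℤ E s, ?_⟩
  rw [mul_pow, ← map_pow, ← map_pow, hd, hs, map_add, map_one, map_mul, ps_X, ps_C, mul_add,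
    mul_one, ← mul_assoc, ← map_mul, mul_inv_cancel₀ (sub_ne_zero.2 hbc), map_one, one_mul, map_sub]
  ring

/-- square roots at infinity -/
theorem exists_rho_inf (b : E) : ∃ f : PowerSeries E, PowerSeries.constantCoeff f = 1 ∧
    (HahnSeries.single (-1 : ℤ) (1 : E) * HahnSeries.ofPowerSeries ℤ E f) ^ 2 =
      (HahnSeries.single (-2 : ℤ) (1 : E) : LaurentSeries E) - HahnSeries.C b := by
  obtain ⟨d, hd⟩ := IsAlgClosed.exists_pow_nat_eq b (n := 2) two_pos
  obtain ⟨s, hs1, hs⟩ := exists_sqrt d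
  obtain ⟨t, ht1, ht⟩ := exists_sqrt (-d)
  refine ⟨s * t, by rw [map_mul, hs1, ht1, one_mul], ?_⟩
  have e1 : (s * t) ^ 2 = 1 - PowerSeries.C b * PowerSeries.X ^ 2 := by
    rw [mul_pow, hs, ht, ← hd, map_neg, map_pow]; ring
  have e2 : (HahnSeries.single (-1 : ℤ) (1 : E) : LaurentSeries E) ^ 2 =
      HahnSeries.single (-2 : ℤ) (1 : E) := by
    rw [pow_two, HahnSeries.single_mul_single]; norm_num
  have e3 : (HahnSeries.single (-2 : ℤ) (1 : E) : LaurentSeries E) *
      HahnSeries.single (1 : ℤ) (1 : E) ^ 2 = 1 := by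
    rw [pow_two, HahnSeries.single_mul_single, HahnSeries.single_mul_single]
    norm_num
  rw [mul_pow, e2, ← map_pow, e1, map_sub, map_one (HahnSeries.ofPowerSeries ℤ E), map_mul,
    map_pow, ps_X, ps_C]
  linear_combination (-(HahnSeries.C b : LaurentSeries E)) * e3

theorem hom_S (ι : E →+* M) (X : M) (htr : ∀ p : E[X], eval₂ ι X p = 0 → p = 0) (a : I → E)
    (ha : Function.Injective a) (r : I → M) (hr : ∀ i, r i ^ 2 = X - ι (a i)) (S : Finset I) :
    ∀ (x : LaurentSeries E), (∀ e, x ≠ HahnSeries.C e) → ∀ (ρ : I → LaurentSeries E),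
      (∀ i ∈ S, ρ i ^ 2 = x - HahnSeries.C (a i)) →
      ∃ lam : LS ι X r S →+* LaurentSeries E,
        (∀ (e : E) (he : ι e ∈ LS ι X r S), lam ⟨ι e, he⟩ = HahnSeries.C e) ∧
        (∀ hX : X ∈ LS ι X r S, lam ⟨X, hX⟩ = x) ∧
        ∀ i ∈ S, ∀ hi : r i ∈ LS ι X r S, lam ⟨r i, hi⟩ = ρ i := by
  classical
  induction S using Finset.induction_on with
  | empty =>
    intro x hx ρ _
    obtain ⟨ψ, h1, h2⟩ := base_hom ι X htr (HahnSeries.C : E →+* LaurentSeries E) x
      (trans_of_not_const _ x hx) (LS ι X r ∅) (by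
        rw [LS]
        simp)
    exact ⟨ψ, h1, h2, fun i hi => absurd hi (Finset.notMem_empty i)⟩
  | insert k S hk ih =>
    intro x hx ρ hρ
    have hnot : r k ∉ LS ι X r S := by
      intro hmem
      have hex : ∀ i, ∃ ρ' : LaurentSeries E, i ∈ S → ρ' ^ 2 =
          (HahnSeries.C (a k) : LaurentSeries E) + HahnSeries.single (1 : ℤ) (1 : E) -
            HahnSeries.C (a i) := by
        intro i
        by_cases hi : i ∈ S
        · obtain ⟨ρ', h⟩ := exists_rho (a k) (a i) (fun h => hk (by rw [ha h]; exact hi))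
          exact ⟨ρ', fun _ => h⟩
        · exact ⟨0, fun h => absurd h hi⟩
      choose ρ' hρ' using hex
      obtain ⟨lam, h1, h2, -⟩ := ih _ (T_ne_C (a k)) ρ' (fun i hi => hρ' i hi)
      apply sq_ne_T (lam ⟨r k, hmem⟩)
      rw [← map_pow]
      have e1 : (⟨r k, hmem⟩ : LS ι X r S) ^ 2 = ⟨X, LS_X ι X r S⟩ - ⟨ι (a k), LS_const ι X r S _⟩ :=
        Subtype.ext (hr k)
      rw [e1, map_sub, h2, h1]
      ring
    obtain ⟨lam, h1, h2, h3⟩ := ih x hx ρ (fun i hi => hρ i (Finset.mem_insert_of_mem hi))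
    have hd : r k ^ 2 ∈ LS ι X r S := by
      rw [hr]
      exact Subfield.sub_mem _ (LS_X ι X r S) (LS_const ι X r S _)
    obtain ⟨ψ, hψ1, hψ2⟩ := ext_sqrt (LS ι X r S) lam (r k) hnot hd (ρ k) (by
        rw [hρ k (Finset.mem_insert_self k S)]
        have e1 : (⟨r k ^ 2, hd⟩ : LS ι X r S) = ⟨X, LS_X ι X r S⟩ - ⟨ι (a k), LS_const ι X r S _⟩ :=
          Subtype.ext (hr k)
        rw [e1, map_sub, h2, h1]) (LS ι X r (insert k S)) (by
        show Subfield.closure _ ≤ _
        rw [Subfield.closure_le]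
        rintro z ((⟨e, rfl⟩ | hz) | ⟨i, hi, rfl⟩)
        · exact Subfield.subset_closure (Or.inl (LS_const ι X r S e))
        · rw [Set.mem_singleton_iff] at hz
          subst hz
          exact Subfield.subset_closure (Or.inl (LS_X ι z r S))
        · rcases Finset.mem_insert.1 (Finset.mem_coe.1 hi) with h | h
          · rw [h]
            exact Subfield.subset_closure (Or.inr rfl)
          · exact Subfield.subset_closure (Or.inl (LS_r ι X r S h)))
    refine ⟨ψ, ?_, ?_, ?_⟩
    · intro e he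
      rw [hψ1 _ (LS_const ι X r S e) he, h1]
    · intro hX
      rw [hψ1 _ (LS_X ι X r S) hX, h2]
    · intro i hi hi'
      rcases Finset.mem_insert.1 hi with h | h
      · subst h
        exact hψ2 hi'
      · rw [hψ1 _ (LS_r ι X r S h) hi', h3 i h]

theorem exists_hom [Fintype I] [Nonempty I] (ι : E →+* M) (X : M)
    (htr : ∀ p : E[X], eval₂ ι X p = 0 → p = 0) (a : I → E)
    (ha : Function.Injective a) (r : I → M) (hr : ∀ i, r i ^ 2 = X - ι (a i)) :
    ∃ lam : layer ι X r →+* LaurentSeries E,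
      (∀ (e : E) (he : ι e ∈ layer ι X r), lam ⟨ι e, he⟩ = HahnSeries.C e) ∧
      (∀ (i : I) (hi : r i ∈ layer ι X r), ∃ f : PowerSeries E,
        PowerSeries.constantCoeff f = 1 ∧
        lam ⟨r i, hi⟩ = HahnSeries.single (-1 : ℤ) (1 : E) * HahnSeries.ofPowerSeries ℤ E f) := by
  choose f hf1 hf2 using fun i => exists_rho_inf (a i)
  obtain ⟨lam, h1, -, h3⟩ := hom_S ι X htr a ha r hr Finset.univ _ Tinv_ne_C
    (fun i => HahnSeries.single (-1 : ℤ) (1 : E) * HahnSeries.ofPowerSeries ℤ E (f i))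
    (fun i _ => hf2 i)
  have hle : layer ι X r ≤ LS ι X r Finset.univ := by
    rw [layer, LS]
    simp
  refine ⟨lam.comp (Subfield.inclusion hle), ?_, ?_⟩
  · intro e he
    exact h1 e (hle he)
  · intro i hi
    exact ⟨f i, hf1 i, h3 i (Finset.mem_univ i) (hle hi)⟩

end Pool.Agent.WMS
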