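import Mathlib

/-!
Homomorphisms of `E(X, r_1, ..., r_n)`, `r_i ^ 2 = X - a_i`, into the field of Laurent series over
`E`, with prescribed values of `X` and of the `r_i`.
-/

set_option autoImplicit false
set_option linter.unusedSectionVars false

namespace Pool.Agent.WMS

open Polynomial

section Ext

variable {M K' : Type*} [Field M] [Field K']

/-- extension of a homomorphism by a square root which is not in the field -/
theorem ext_sqrt (K0 : Subfield M) (φ : K0 →+* K') (r : M) (hr : r ∉ K0) (hd : r ^ 2 ∈ K0)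
    (ρ : K') (hρ : ρ ^ 2 = φ ⟨r ^ 2, hd⟩) (K1 : Subfield M)
    (hK1 : K1 ≤ Subfield.closure ((K0 : Set M) ∪ {r})) :
    ∃ ψ : K1 →+* K', (∀ (z : M) (h0 : z ∈ K0) (h1 : z ∈ K1), ψ ⟨z, h1⟩ = φ ⟨z, h0⟩) ∧
      ∀ h1 : r ∈ K1, ψ ⟨r, h1⟩ = ρ := by
  letI : Algebra K0 K' := φ.toAlgebra
  have hroot : aeval r (X ^ 2 - C (⟨r ^ 2, hd⟩ : K0)) = 0 := by
    rw [map_sub, map_pow, aeval_X, aeval_C]
    show r ^ 2 - r ^ 2 = 0
    ring
  have hmonic : (X ^ 2 - C (⟨r ^ 2, hd⟩ : K0)).Monic := monic_X_pow_sub_C _ two_ne_zero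
  have hint : IsIntegral K0 r := ⟨_, hmonic, by rw [← aeval_def]; exact hroot⟩
  have hirr : Irreducible (X ^ 2 - C (⟨r ^ 2, hd⟩ : K0)) := by
    apply X_pow_sub_C_irreducible_of_prime Nat.prime_two
    intro b hb
    have h1 : ((b : K0) : M) ^ 2 = r ^ 2 := congrArg Subtype.val hb
    have h2 : ((b : K0) : M) = r ∨ ((b : K0) : M) = -r := sq_eq_sq_iff_eq_or_eq_neg.1 h1
    rcases h2 with h2 | h2
    · exact hr (h2 ▸ b.2)
    · apply hr
      have h3 := Subfield.neg_mem K0 b.2
      rw [h2, neg_neg] at h3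
      exact h3
  have hmin : minpoly K0 r = X ^ 2 - C (⟨r ^ 2, hd⟩ : K0) :=
    (minpoly.eq_of_irreducible_of_monic hirr hroot hmonic).symm
  have hmem : ρ ∈ (minpoly K0 r).aroots K' := by
    rw [mem_aroots]
    refine ⟨minpoly.ne_zero hint, ?_⟩
    rw [hmin, map_sub, map_pow, aeval_X, aeval_C, hρ]
    show φ _ - φ _ = 0
    rw [sub_self]
  set ψ0 := (IntermediateField.algHomAdjoinIntegralEquiv K0 hint).symm ⟨ρ, hmem⟩ with hψ0
  have hgen : ψ0 (IntermediateField.AdjoinSimple.gen K0 r) = ρ :=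
    IntermediateField.algHomAdjoinIntegralEquiv_symm_apply_gen K0 hint ⟨ρ, hmem⟩
  have hle : K1 ≤ (IntermediateField.adjoin K0 {r}).toSubfield := by
    refine hK1.trans ?_
    rw [Subfield.closure_le]
    rintro x (hx | hx)
    · exact (IntermediateField.adjoin K0 {r}).algebraMap_mem ⟨x, hx⟩
    · rw [Set.mem_singleton_iff] at hx
      subst hx
      exact IntermediateField.mem_adjoin_simple_self K0 x
  refine ⟨(ψ0 : IntermediateField.adjoin K0 {r} →+* K').comp (Subfield.inclusion hle), ?_, ?_⟩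
  · intro z h0 h1
    exact ψ0.commutes ⟨z, h0⟩
  · intro h1
    exact hgen

end Ext

section Base

variable {E M K' : Type*} [Field E] [Field M] [Field K']

/-- the homomorphism from the rational function field -/
theorem base_hom (ι : E →+* M) (x : M) (htr : ∀ p : E[X], eval₂ ι x p = 0 → p = 0)
    (c : E →+* K') (y : K') (hty : ∀ p : E[X], eval₂ c y p = 0 → p = 0) (K1 : Subfield M)
    (hK1 : K1 ≤ Subfield.closure (Set.range ι ∪ {x})) :
    ∃ ψ : K1 →+* K', (∀ (e : E) (he : ι e ∈ K1), ψ ⟨ι e, he⟩ = c e) ∧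
      ∀ h1 : x ∈ K1, ψ ⟨x, h1⟩ = y := by
  have h1 : Function.Injective (eval₂RingHom ι x) :=
    (injective_iff_map_eq_zero _).2 htr
  have h2 : Function.Injective (eval₂RingHom c y) :=
    (injective_iff_map_eq_zero _).2 hty
  set φM : FractionRing E[X] →+* M := IsFractionRing.lift h1 with hφM
  set φK : FractionRing E[X] →+* K' := IsFractionRing.lift h2 with hφK
  have eM : ∀ p : E[X], φM (algebraMap _ _ p) = eval₂ ι x p := fun p =>
    IsFractionRing.lift_algebraMap h1 p
  have eK : ∀ p : E[X], φK (algebraMap _ _ p) = eval₂ c y p := fun p =>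
    IsFractionRing.lift_algebraMap h2 p
  have hle : K1 ≤ φM.fieldRange := by
    refine hK1.trans ?_
    rw [Subfield.closure_le]
    rintro z (⟨e, rfl⟩ | hz)
    · exact ⟨algebraMap _ _ (C e), by rw [eM, eval₂_C]⟩
    · rw [Set.mem_singleton_iff] at hz
      subst hz
      exact ⟨algebraMap _ _ X, by rw [eM, eval₂_X]⟩
  have key : ∀ (p : E[X]) (z : M) (hz : z ∈ φM.fieldRange), φM (algebraMap _ _ p) = z →
      φK (φM.rangeRestrictFieldEquiv.symm ⟨z, hz⟩) = eval₂ c y p := by
    intro p z hz hp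
    have : φM.rangeRestrictFieldEquiv.symm ⟨z, hz⟩ = algebraMap _ _ p := by
      rw [RingEquiv.symm_apply_eq]
      exact Subtype.ext hp.symm
    rw [this, eK]
  refine ⟨(φK.comp (φM.rangeRestrictFieldEquiv.symm : φM.fieldRange →+* FractionRing E[X])).comp
    (Subfield.inclusion hle), ?_, ?_⟩
  · intro e he
    have := key (C e) (ι e) (hle he) (by rw [eM, eval₂_C])
    rw [eval₂_C] at this
    exact this
  · intro h1
    have := key X x (hle h1) (by rw [eM, eval₂_X])
    rw [eval₂_X] at this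
    exact this

theorem trans_of_not_const [IsAlgClosed E] (c : E →+* K') (y : K') (hy : ∀ e, y ≠ c e)
    (p : E[X]) (hp : eval₂ c y p = 0) : p = 0 := by
  induction hn : p.natDegree generalizing p with
  | zero =>
    rw [Polynomial.eq_C_of_natDegree_eq_zero hn] at hp ⊢
    rw [eval₂_C] at hp
    rw [(map_eq_zero c).1 hp, C_0]
  | succ n ih =>
    have hdeg : p.degree ≠ 0 := by
      intro h
      rw [Polynomial.natDegree_eq_of_degree_eq_some (n := 0) (by simpa using h)] at hn
      omega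
    obtain ⟨b, hb⟩ := IsAlgClosed.exists_root p hdeg
    obtain ⟨q, rfl⟩ := Polynomial.dvd_iff_isRoot.2 hb
    rw [eval₂_mul, eval₂_sub, eval₂_X, eval₂_C] at hp
    have h1 : y - c b ≠ 0 := sub_ne_zero.2 (hy b)
    have h2 : eval₂ c y q = 0 := by
      rcases mul_eq_zero.1 hp with h | h
      · exact absurd h h1
      · exact h
    by_cases hq : q = 0
    · rw [hq, mul_zero]
    · exfalso
      apply hq
      apply ih q h2
      rw [natDegree_mul (X_sub_C_ne_zero b) hq, natDegree_X_sub_C] at hn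
      omega

end Base

section Series

variable {E : Type*} [Field E] [CharZero E]

/-- the power series of `(1 + c T) ^ (1/2)` -/
theorem exists_sqrt (c : E) : ∃ s : PowerSeries E, PowerSeries.constantCoeff s = 1 ∧
    s ^ 2 = 1 + PowerSeries.C c * PowerSeries.X := by
  refine ⟨PowerSeries.rescale c (PowerSeries.binomialSeries E (1 / 2 : ℚ)), ?_, ?_⟩
  · rw [← PowerSeries.coeff_zero_eq_constantCoeff_apply, PowerSeries.coeff_rescale, pow_zero,
      one_mul, PowerSeries.coeff_zero_eq_constantCoeff_apply]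
    exact PowerSeries.binomialSeries_constantCoeff _
  · have h1 : (PowerSeries.binomialSeries E (1 / 2 : ℚ)) ^ 2 = 1 + PowerSeries.X := by
      rw [pow_two, ← PowerSeries.binomialSeries_add]
      have : (1 / 2 : ℚ) + 1 / 2 = ((1 : ℕ) : ℚ) := by norm_num
      rw [this, PowerSeries.binomialSeries_nat, pow_one]
    rw [← map_pow, h1, map_add, map_one, PowerSeries.rescale_X]

end Series

end Pool.Agent.WMS
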