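import Mathlib

/-!
Uniqueness of the place at infinity of `E(X, r_1, ..., r_n)`, `r_i ^ 2 = X - a_i`, at which all
`r_i / r_j` have the value `1`.
-/

set_option autoImplicit false
set_option linter.unusedSectionVars false

namespace Pool.Agent.WMS

open WithZero

section Uniq

variable {E L I : Type*} [Field E] [CharZero E] [Field L] [Fintype I]

/-- the properties of the valuation which determine it -/
structure Pl (κ : E →+* L) (r : I → L) (w : Valuation L (WithZero (Multiplicative ℤ))) :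
    Prop where
  triv : ∀ e : E, e ≠ 0 → w (κ e) = 1
  pole : ∀ i, w (r i) = exp (1 : ℤ)
  near : ∀ i j, w (r i - r j) < exp (1 : ℤ)

/-- the subring generated by the constants, `u = 1 / r_0` and the `s_i = r_i / r_0` -/
def Bsub (κ : E →+* L) (r : I → L) (i0 : I) : Subring L :=
  Subring.closure (Set.range κ ∪ {(r i0)⁻¹} ∪ Set.range (fun i => r i * (r i0)⁻¹))

theorem const_mem (κ : E →+* L) (r : I → L) (i0 : I) (e : E) : κ e ∈ Bsub κ r i0 :=
  Subring.subset_closure (Or.inl (Or.inl ⟨e, rfl⟩))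

theorem u_mem (κ : E →+* L) (r : I → L) (i0 : I) : (r i0)⁻¹ ∈ Bsub κ r i0 :=
  Subring.subset_closure (Or.inl (Or.inr rfl))

theorem s_mem (κ : E →+* L) (r : I → L) (i0 i : I) : r i * (r i0)⁻¹ ∈ Bsub κ r i0 :=
  Subring.subset_closure (Or.inr ⟨i, rfl⟩)

/-- the product of all `s_i + 1` -/
def hh (r : I → L) (i0 : I) : L := ∏ i, (r i * (r i0)⁻¹ + 1)

theorem hh_mem (κ : E →+* L) (r : I → L) (i0 : I) : hh r i0 ∈ Bsub κ r i0 :=
  Subring.prod_mem _ fun i _ => Subring.add_mem _ (s_mem κ r i0 i) (Subring.one_mem _)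

variable {κ : E →+* L} {X : L} {a : I → E} {r : I → L}

/-- division by the uniformizer -/
theorem div_step (hr : ∀ i, r i ^ 2 = X - κ (a i)) (i0 : I) (h0 : r i0 ≠ 0) (z : L)
    (hz : z ∈ Bsub κ r i0) :
    ∃ e : E, ∃ z' ∈ Bsub κ r i0, hh r i0 * (z - κ e) = (r i0)⁻¹ * z' := by
  classical
  rw [Bsub] at hz
  induction hz using Subring.closure_induction with
  | mem z hz =>
    rcases hz with (⟨e, rfl⟩ | hz) | ⟨i, rfl⟩
    · exact ⟨e, 0, Subring.zero_mem _, by rw [sub_self]; ring⟩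
    · rw [Set.mem_singleton_iff] at hz
      subst hz
      exact ⟨0, hh r i0, hh_mem κ r i0, by rw [map_zero]; ring⟩
    · refine ⟨1, (∏ j ∈ Finset.univ.erase i, (r j * (r i0)⁻¹ + 1)) *
        (κ (a i0 - a i) * (r i0)⁻¹), ?_, ?_⟩
      · exact Subring.mul_mem _ (Subring.prod_mem _ fun i _ =>
          Subring.add_mem _ (s_mem κ r i0 i) (Subring.one_mem _))
          (Subring.mul_mem _ (const_mem κ r i0 _) (u_mem κ r i0))
      · have e1 : hh r i0 = (r i * (r i0)⁻¹ + 1) *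
            ∏ j ∈ Finset.univ.erase i, (r j * (r i0)⁻¹ + 1) := by
          rw [hh, ← Finset.mul_prod_erase Finset.univ (fun j => r j * (r i0)⁻¹ + 1)
            (Finset.mem_univ i)]
        rw [e1, map_one, map_sub]
        have e2 : (r i * (r i0)⁻¹ + 1) * (r i * (r i0)⁻¹ - 1) =
            (κ (a i0) - κ (a i)) * ((r i0)⁻¹ * (r i0)⁻¹) := by
          have e3 : (r i0) ^ 2 * ((r i0)⁻¹ * (r i0)⁻¹) = 1 := by
            field_simp
          have e4 : r i ^ 2 - r i0 ^ 2 = κ (a i0) - κ (a i) := by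
            rw [hr, hr]; ring
          linear_combination ((r i0)⁻¹ * (r i0)⁻¹) * e4 + e3
        linear_combination (∏ j ∈ Finset.univ.erase i, (r j * (r i0)⁻¹ + 1)) * e2
  | zero => exact ⟨0, 0, Subring.zero_mem _, by rw [map_zero]; ring⟩
  | one => exact ⟨1, 0, Subring.zero_mem _, by rw [map_one]; ring⟩
  | add x y _ _ hx hy =>
    obtain ⟨e1, z1, hz1, h1⟩ := hx
    obtain ⟨e2, z2, hz2, h2⟩ := hy
    refine ⟨e1 + e2, z1 + z2, Subring.add_mem _ hz1 hz2, ?_⟩
    rw [map_add]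
    linear_combination h1 + h2
  | neg x _ hx =>
    obtain ⟨e1, z1, hz1, h1⟩ := hx
    refine ⟨-e1, -z1, Subring.neg_mem _ hz1, ?_⟩
    rw [map_neg]
    linear_combination -h1
  | mul x y hx' _ hx hy =>
    obtain ⟨e1, z1, hz1, h1⟩ := hx
    obtain ⟨e2, z2, hz2, h2⟩ := hy
    refine ⟨e1 * e2, z2 * x + κ e2 * z1, Subring.add_mem _ (Subring.mul_mem _ hz2 hx')
      (Subring.mul_mem _ (const_mem κ r i0 _) hz1), ?_⟩
    rw [map_mul]
    linear_combination (κ e2) * h1 + x * h2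

variable {w w' : Valuation L (WithZero (Multiplicative ℤ))}

theorem Pl.const_le (hw : Pl κ r w) (e : E) : w (κ e) ≤ 1 := by
  by_cases he : e = 0
  · rw [he, map_zero, map_zero]; exact zero_le_one
  · exact (hw.triv e he).le

theorem Pl.u_val (hw : Pl κ r w) (i0 : I) : w (r i0)⁻¹ = exp (-1 : ℤ) := by
  rw [map_inv₀, hw.pole, exp_neg]

theorem Pl.ne_zero (hw : Pl κ r w) (i : I) : r i ≠ 0 := by
  intro h
  have := hw.pole i
  rw [h, map_zero] at this
  exact exp_ne_zero this.symm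

theorem Pl.s_near (hw : Pl κ r w) (i0 i : I) : w (r i * (r i0)⁻¹ - 1) < 1 := by
  have h0 := hw.ne_zero i0
  have e1 : r i * (r i0)⁻¹ - 1 = (r i - r i0) * (r i0)⁻¹ := by
    field_simp
  rw [e1, map_mul, hw.u_val i0]
  have h1 := hw.near i i0
  have h2 : exp (1 : ℤ) * exp (-1 : ℤ) = (1 : WithZero (Multiplicative ℤ)) := by
    rw [← exp_add]; simp
  calc w (r i - r i0) * exp (-1 : ℤ) < exp (1 : ℤ) * exp (-1 : ℤ) :=
        mul_lt_mul_of_pos_right h1 exp_pos
    _ = 1 := h2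

theorem Pl.s_val (hw : Pl κ r w) (i0 i : I) : w (r i * (r i0)⁻¹) = 1 := by
  have h0 := hw.ne_zero i0
  rw [map_mul, hw.u_val i0, hw.pole, ← exp_add]; simp

theorem Pl.s_add (hw : Pl κ r w) (i0 i : I) : w (r i * (r i0)⁻¹ + 1) = 1 := by
  have h2 : w (κ 2) = 1 := hw.triv 2 two_ne_zero
  have e1 : r i * (r i0)⁻¹ + 1 = (r i * (r i0)⁻¹ - 1) + κ 2 := by
    rw [map_ofNat]; ring
  have h3 : w (r i * (r i0)⁻¹ - 1) < w (κ 2) := by
    rw [h2]; exact hw.s_near i0 i
  rw [e1, Valuation.map_add_eq_of_lt_right _ h3, h2]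

theorem Pl.hh_val (hw : Pl κ r w) (i0 : I) : w (hh r i0) = 1 := by
  rw [hh, map_prod]
  exact Finset.prod_eq_one fun i _ => hw.s_add i0 i

theorem Pl.le_one (hw : Pl κ r w) (i0 : I) (z : L) (hz : z ∈ Bsub κ r i0) : w z ≤ 1 := by
  have h : Bsub κ r i0 ≤ w.integer := by
    rw [Bsub, Subring.closure_le]
    rintro z ((⟨e, rfl⟩ | hz) | ⟨i, rfl⟩)
    · exact hw.const_le e
    · rw [Set.mem_singleton_iff] at hz
      subst hz
      show w _ ≤ 1
      rw [hw.u_val i0, ← exp_zero, exp_le_exp]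
      norm_num
    · exact (hw.s_val i0 i).le
  exact h hz

/-- value of an element with given constant term -/
theorem Pl.lt_one (hw : Pl κ r w) (i0 : I) {z z' : L} {e : E} (hz' : z' ∈ Bsub κ r i0)
    (h : hh r i0 * (z - κ e) = (r i0)⁻¹ * z') : w (z - κ e) < 1 := by
  have h1 := congrArg w h
  rw [map_mul, map_mul, hw.hh_val i0, one_mul, hw.u_val i0] at h1
  rw [h1]
  have h2 := hw.le_one i0 z' hz'
  calc exp (-1 : ℤ) * w z' ≤ exp (-1 : ℤ) * 1 := mul_le_mul_right h2 _
    _ < 1 := by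
      rw [mul_one, ← exp_zero, exp_lt_exp]; norm_num

theorem Pl.eq_step (hr : ∀ i, r i ^ 2 = X - κ (a i)) (hw : Pl κ r w) (hw' : Pl κ r w') (i0 : I)
    (n : ℕ) : ∀ z ∈ Bsub κ r i0, w z = exp (-(n : ℤ)) → w' z = exp (-(n : ℤ)) := by
  induction n with
  | zero =>
    intro z hz h
    obtain ⟨e, z', hz', he⟩ := div_step hr i0 (hw.ne_zero i0) z hz
    have h0 : w z = 1 := by simpa using h
    have he0 : e ≠ 0 := by
      intro h1
      have h2 := hw.lt_one i0 hz' he
      rw [h1, map_zero, sub_zero, h0] at h2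
      exact lt_irrefl _ h2
    have h3 := hw'.lt_one i0 hz' he
    have h4 : w' (κ e) = 1 := hw'.triv e he0
    have e1 : z = (z - κ e) + κ e := by ring
    rw [e1, Valuation.map_add_eq_of_lt_right _ (by rw [h4]; exact h3), h4]
    simp
  | succ n ih =>
    intro z hz h
    obtain ⟨e, z', hz', he⟩ := div_step hr i0 (hw.ne_zero i0) z hz
    have he0 : e = 0 := by
      by_contra h1
      have h2 := hw.lt_one i0 hz' he
      have h4 : w (κ e) = 1 := hw.triv e h1
      have e1 : z = (z - κ e) + κ e := by ring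
      have h5 : w z = 1 := by
        rw [e1, Valuation.map_add_eq_of_lt_right _ (by rw [h4]; exact h2), h4]
      rw [h5, ← exp_zero] at h
      have h6 := exp_injective h
      push_cast at h6
      omega
    rw [he0, map_zero, sub_zero] at he
    have h1 := congrArg w he
    have h1' := congrArg w' he
    rw [map_mul, map_mul, hw.hh_val i0, one_mul, hw.u_val i0, h] at h1
    rw [map_mul, map_mul, hw'.hh_val i0, one_mul, hw'.u_val i0] at h1'
    have h2 : w z' = exp (-(n : ℤ)) := by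
      have h3 : exp (1 : ℤ) * exp (-((n + 1 : ℕ) : ℤ)) = exp (1 : ℤ) * (exp (-1 : ℤ) * w z') := by
        rw [h1]
      rw [← mul_assoc, ← exp_add, ← exp_add] at h3
      have e4 : (1 : ℤ) + -((n + 1 : ℕ) : ℤ) = -(n : ℤ) := by push_cast; ring
      rw [e4] at h3
      simpa using h3.symm
    rw [h1', ih z' hz' h2, ← exp_add]
    congr 1
    push_cast; ring

theorem Pl.eq_sub (hr : ∀ i, r i ^ 2 = X - κ (a i)) (hw : Pl κ r w) (hw' : Pl κ r w') (i0 : I)
    (z : L) (hz : z ∈ Bsub κ r i0) : w z = w' z := by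
  by_cases h0 : z = 0
  · rw [h0, map_zero, map_zero]
  have h1 := hw.le_one i0 z hz
  have h2 : w z ≠ 0 := (Valuation.ne_zero_iff _).2 h0
  have h3 : w z = exp (log (w z)) := (exp_log h2).symm
  have h4 : log (w z) ≤ 0 := by
    rw [h3, ← exp_zero, exp_le_exp] at h1
    exact h1
  obtain ⟨n, hn⟩ := Int.exists_eq_neg_ofNat h4
  rw [hn] at h3
  rw [h3, Pl.eq_step hr hw hw' i0 n z hz h3]

/-- **uniqueness of the place** -/
theorem Pl.unique [Nonempty I] (hr : ∀ i, r i ^ 2 = X - κ (a i))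
    (hgen : ∀ z : L, z ∈ Subfield.closure (Set.range κ ∪ {X} ∪ Set.range r))
    (hw : Pl κ r w) (hw' : Pl κ r w') (z : L) : w z = w' z := by
  obtain ⟨i0⟩ := (inferInstance : Nonempty I)
  have h0 := hw.ne_zero i0
  have hz : z ∈ Subfield.closure (Set.range κ ∪ {(r i0)⁻¹} ∪ Set.range (fun i => r i * (r i0)⁻¹)) := by
    have hle : Subfield.closure (Set.range κ ∪ {X} ∪ Set.range r) ≤
        Subfield.closure (Set.range κ ∪ {(r i0)⁻¹} ∪ Set.range (fun i => r i * (r i0)⁻¹)) := by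
      have hk : ∀ e, κ e ∈ Subfield.closure
          (Set.range κ ∪ {(r i0)⁻¹} ∪ Set.range (fun i => r i * (r i0)⁻¹)) := fun e =>
        Subfield.subset_closure (Or.inl (Or.inl ⟨e, rfl⟩))
      have hu : r i0 ∈ Subfield.closure
          (Set.range κ ∪ {(r i0)⁻¹} ∪ Set.range (fun i => r i * (r i0)⁻¹)) := by
        have := Subfield.inv_mem _ (Subfield.subset_closure (Or.inl (Or.inr rfl)) :
          (r i0)⁻¹ ∈ Subfield.closure
          (Set.range κ ∪ {(r i0)⁻¹} ∪ Set.range (fun i => r i * (r i0)⁻¹)))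
        rwa [inv_inv] at this
      rw [Subfield.closure_le]
      rintro x ((⟨e, rfl⟩ | hx) | ⟨i, rfl⟩)
      · exact hk e
      · rw [Set.mem_singleton_iff] at hx
        subst hx
        have e1 : x = r i0 ^ 2 + κ (a i0) := by rw [hr]; ring
        rw [SetLike.mem_coe, e1]
        exact Subfield.add_mem _ (Subfield.pow_mem _ hu 2) (hk _)
      · have h1 : r i * (r i0)⁻¹ ∈ Subfield.closure
          (Set.range κ ∪ {(r i0)⁻¹} ∪ Set.range (fun i => r i * (r i0)⁻¹)) :=
          Subfield.subset_closure (Or.inr ⟨i, rfl⟩)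
        have h2 := Subfield.mul_mem _ h1 hu
        rwa [mul_assoc, inv_mul_cancel₀ h0, mul_one] at h2
    exact hle (hgen z)
  obtain ⟨y, hy, y', hy', rfl⟩ := Subfield.mem_closure_iff.1 hz
  rw [map_div₀, map_div₀, Pl.eq_sub hr hw hw' i0 y hy, Pl.eq_sub hr hw hw' i0 y' hy']

end Uniq

end Pool.Agent.WMS
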